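import Pool.Agent.Lib.MP_a0a715_lc_BT.Drv

/-!
# The variables which are determined by others
-/

namespace Pool.Agent.MPa0a715.BT

open Pool.Agent.MPa0a715
open Pool.Agent.MPa0a715.BI (Base)

variable {B : Base} {X : Var → Bool}

namespace ChnAux

theorem cv_eq {X : Var → Bool} {a g : Var} : cv X (cEq a g) = true ↔ X g ≠ X a := by
  simp only [cv, pv, cEq, List.any_cons, List.any_nil, List.all_cons, List.all_nil]
  cases X a <;> cases X g <;> simp

theorem cv_nor {X : Var → Bool} {a b g : Var} :
    cv X (cNor a b g) = true ↔ X g ≠ (X a || X b) := by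
  simp only [cv, pv, cNor, List.any_cons, List.any_nil, List.all_cons, List.all_nil]
  cases X a <;> cases X b <;> cases X g <;> simp

theorem cv_ol {X : Var → Bool} {a b g : Var} {h : Bool} :
    cv X (cOl a h b g) = true ↔ X g ≠ ((X a == h) || X b) := by
  simp only [cv, pv, cOl, List.any_cons, List.any_nil, List.all_cons, List.all_nil]
  cases h <;> cases X a <;> cases X b <;> cases X g <;> simp

theorem cv_an {X : Var → Bool} {a b g : Var} :
    cv X (cAn a b g) = true ↔ X g ≠ (X a && !X b) := by
  simp only [cv, pv, cAn, List.any_cons, List.any_nil, List.all_cons, List.all_nil]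
  cases X a <;> cases X b <;> cases X g <;> simp

theorem cv_tt {X : Var → Bool} {g : Var} : cv X [[(g, true)]] = true ↔ X g ≠ false := by
  simp [cv, pv]

/-- the constraint of a variable which is determined by others is violated iff the value is
wrong -/
theorem cv_pcon (X : Var → Bool) {v : Var} (hp : Pas v) :
    cv X (pcon B v) = true ↔ X v ≠ pdf B X v := by
  cases v with
  | ph k =>
    cases k with
    | zero => exact cv_tt
    | succ k =>
      simp only [pcon, pdf]
      rcases flagAt B k with _ | a
      · rw [cv_eq, Option.elim_none, Bool.or_false]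
      · rw [cv_nor, Option.elim_some]
  | mp j => exact cv_eq
  | L t j =>
    by_cases hj : j = B.m
    · simp only [pcon, pdf, hj, if_true]
      exact cv_tt
    · simp only [pcon, pdf, hj, if_false]
      exact cv_nor
  | rho j => exact cv_nor
  | yc b => cases b <;> exact cv_eq
  | UJ t k => cases k <;> first | exact cv_ol | exact cv_eq
  | UE s k =>
    cases k
    · simp only [pcon, pdf]
      rw [cv_ol]
      cases X (.e s) <;> simp
    · exact cv_eq
  | UW s k =>
    cases k
    · simp only [pcon, pdf]
      rw [cv_ol]
      cases X (.A s) <;> simp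
    · exact cv_eq
  | UQ k => cases k <;> first | exact cv_nor | exact cv_eq
  | La t b => cases b <;> exact cv_eq
  | A s => exact cv_an
  | xi t g i => exact cv_eq
  | _ => exact hp.elim

/-- the value given by the other variables does not depend on the variable -/
theorem pdf_fl (X : Var → Bool) {v : Var} : pdf B (fl X v) v = pdf B X v := by
  cases v with
  | ph k =>
    cases k with
    | zero => rfl
    | succ k =>
      simp only [pdf]
      rcases flagAt B k with _ | a
      · rw [fl_ne _ (by simp)]
        rfl
      · simp only [Option.elim_some]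
        rw [fl_ne _ (by simp), fl_ne _ (by simp)]
  | mp j => simp only [pdf]; rw [fl_ne _ (by simp)]
  | L t j =>
    simp only [pdf]
    rw [fl_ne _ (by simp), fl_ne _ (by simp)]
  | rho j =>
    simp only [pdf]
    rw [fl_ne _ (by simp), fl_ne _ (by simp)]
  | yc b => cases b <;> simp only [pdf] <;> rw [fl_ne _ (by simp)]
  | UJ t k =>
    cases k <;> simp only [pdf]
    · rw [fl_ne _ (by simp), fl_ne _ (by simp)]
    · rw [fl_ne _ (by simp)]
  | UE t k =>
    cases k <;> simp only [pdf]
    · rw [fl_ne _ (by simp), fl_ne _ (by simp)]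
    · rw [fl_ne _ (by simp)]
  | UW t k =>
    cases k <;> simp only [pdf]
    · rw [fl_ne _ (by simp), fl_ne _ (by simp)]
    · rw [fl_ne _ (by simp)]
  | UQ k =>
    cases k <;> simp only [pdf]
    · rw [fl_ne _ (by simp), fl_ne _ (by simp)]
    · rw [fl_ne _ (by simp)]
  | La t b => cases b <;> simp only [pdf] <;> rw [fl_ne _ (by simp)]
  | A s =>
    simp only [pdf]
    rw [fl_ne _ (by simp), fl_ne _ (by simp)]
  | xi t g i => simp only [pdf]; rw [fl_ne _ (by simp)]
  | _ => rfl

theorem key_rdph (k : ℕ) : 19 ≤ (key B (rdph B k)).1 := by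
  unfold rdph
  split_ifs <;> simp [key]

/-- the constraint of a variable which is determined by others is the most important one -/
theorem first_P {v : Var} (hp : Pas v) (hv : Vld B v) :
    ∀ d ∈ occ B v, ¬ klt (key B d) (key B (.P v)) := by
  intro d hd
  cases v with
  | ph k =>
    simp only [occ, List.mem_cons, List.not_mem_nil, or_false] at hd
    rcases hd with rfl | rfl | rfl
    · simp [key, klt]
    · simp [key, klt]
    · have h1 := key_rdph (B := B) k
      have h2 : (key B (.P (.ph k))).1 = 17 := rfl
      unfold klt
      omega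
  | mp j =>
    simp only [occ, List.mem_cons, List.not_mem_nil, or_false] at hd
    rcases hd with rfl | rfl | rfl <;> simp [key, klt]
  | L t j =>
    have hj : j ≤ B.m := hv
    simp only [occ] at hd
    split_ifs at hd with h1
    · subst h1
      simp only [List.mem_cons, List.not_mem_nil, or_false] at hd
      rcases hd with rfl | rfl | rfl
      · unfold klt; omega
      · simp only [key]
        split_ifs <;> simp [klt]
      · simp only [key]
        split_ifs <;> simp [klt]
    · simp only [List.mem_cons, List.not_mem_nil, or_false] at hd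
      rcases hd with rfl | rfl | rfl
      · unfold klt; omega
      · simp only [key, klt]
        split_ifs <;> dsimp only <;> omega
      · simp only [key, klt]
        split_ifs <;> dsimp only <;> omega
  | rho j =>
    simp only [occ, List.mem_cons, List.not_mem_nil, or_false] at hd
    rcases hd with rfl | rfl <;> simp [key, klt]
  | yc b =>
    cases b <;> simp only [occ, List.mem_cons, List.not_mem_nil, or_false] at hd
    · rcases hd with rfl | rfl | rfl <;> simp [key, klt]
    · rcases hd with rfl | rfl <;> simp [key, klt]
  | UJ t k =>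
    simp only [occ, List.mem_cons, List.not_mem_nil, or_false] at hd
    rcases hd with rfl | rfl | rfl
    · simp [key, klt]
    · simp [key, klt]
    · split_ifs <;> simp [key, klt]
  | UE t k =>
    simp only [occ, List.mem_cons, List.not_mem_nil, or_false] at hd
    rcases hd with rfl | rfl | rfl <;> simp [key, klt]
  | UW t k =>
    simp only [occ, List.mem_cons, List.not_mem_nil, or_false] at hd
    rcases hd with rfl | rfl | rfl
    · simp [key, klt]
    · simp [key, klt]
    · split_ifs <;> simp [key, klt]
  | UQ k =>
    simp only [occ, List.mem_cons, List.not_mem_nil, or_false] at hd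
    rcases hd with rfl | rfl | rfl <;> simp [key, klt]
  | La t b =>
    cases b <;> simp only [occ, List.mem_cons, List.not_mem_nil, or_false] at hd
    · rcases hd with rfl | rfl | rfl <;> simp [key, klt]
    · rcases hd with rfl | rfl <;> simp [key, klt]
  | A s =>
    simp only [occ, List.mem_cons, List.not_mem_nil, or_false] at hd
    rcases hd with rfl | rfl <;> simp [key, klt]
  | xi t g i =>
    simp only [occ] at hd
    split_ifs at hd
    · simp only [List.mem_cons, List.not_mem_nil, or_false] at hd
      rcases hd with rfl | rfl | rfl <;> simp [key, klt]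
    · simp only [List.mem_cons, List.not_mem_nil, or_false] at hd
      rcases hd with rfl | rfl <;> simp [key, klt]
  | _ => exact hp.elim

end ChnAux

open ChnAux

/-- the most important constraint containing a passive variable determines it -/
theorem passive_eq (hB : B.Ok) (hX : Mn B X) {v : Var} (hp : Pas v) (hv : Vld B v) :
    X v = pdf B X v := by
  by_contra hcon
  have h1 : cv X (con B (.P v)) = true := (cv_pcon X hp).2 hcon
  have h2 := drive hB hX (v := v) (p := .P v) ⟨hp, hv⟩ h1
    fun d hd _ _ hk => absurd hk (first_P hp hv d hd)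
  have h3 := (cv_pcon (fl X v) hp).1 h2
  rw [pdf_fl, fl_self] at h3
  revert hcon h3
  cases X v <;> cases pdf B X v <;> simp

theorem flagAt_none {k : ℕ} (h : Z B ≤ k) : flagAt B k = none := by
  rcases hf : flagAt B k with _ | a
  · rfl
  · obtain ⟨h1, h2⟩ := flagAt_some hf
    have := num_f_lt h1
    omega

theorem ph_zero (hB : B.Ok) (hX : Mn B X) : X (.ph 0) = false :=
  passive_eq hB hX (v := .ph 0) trivial (show 0 < 2 * Z B + 8 by omega)

theorem ph_succ (hB : B.Ok) (hX : Mn B X) {k : ℕ} (hk : k + 1 < 2 * Z B + 8) :
    X (.ph (k + 1)) = (X (.ph k) || ((flagAt B k).elim false fun a => X (.f a))) :=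
  passive_eq hB hX (v := .ph (k + 1)) trivial hk

theorem ph_eq (hB : B.Ok) (hX : Mn B X) {k : ℕ} (h1 : Z B ≤ k) (h2 : k < 2 * Z B + 8) :
    X (.ph k) = X (.ph (Z B)) := by
  induction k, h1 using Nat.le_induction with
  | base => rfl
  | succ k hk ih =>
    rw [ph_succ hB hX h2, flagAt_none hk, Option.elim_none, Bool.or_false]
    exact ih (by omega)

theorem ph_mono (hB : B.Ok) (hX : Mn B X) {k l : ℕ} (h : k ≤ l) (hl : l < 2 * Z B + 8)
    (hk : X (.ph k) = true) : X (.ph l) = true := by
  induction l, h using Nat.le_induction with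
  | base => exact hk
  | succ l _ ih =>
    rw [ph_succ hB hX hl, ih (by omega), Bool.true_or]

theorem ph_of_flag (hB : B.Ok) (hX : Mn B X) {a : Ch} (ha : ChV B a) (h : X (.f a) = true) :
    X (.ph (Z B)) = true := by
  have h1 := num_f_lt ha
  refine ph_mono hB hX (k := num B (.f a) + 1) (by omega) (by omega) ?_
  rw [ph_succ hB hX (by omega), flagAt_num ha, Option.elim_some, h, Bool.or_true]

theorem flag_of_ph (hB : B.Ok) (hX : Mn B X) (h : X (.ph (Z B)) = true) :
    ∃ a, ChV B a ∧ X (.f a) = true := by
  have key : ∀ k ≤ Z B, X (.ph k) = true → ∃ a, ChV B a ∧ X (.f a) = true := by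
    intro k
    induction k with
    | zero =>
      intro _ h
      rw [ph_zero hB hX] at h
      exact absurd h (by simp)
    | succ k ih =>
      intro hk h
      rw [ph_succ hB hX (by omega), Bool.or_eq_true] at h
      rcases h with h | h
      · exact ih (by omega) h
      · rcases hf : flagAt B k with _ | a
        · rw [hf] at h
          exact absurd h (by simp)
        · rw [hf, Option.elim_some] at h
          exact ⟨a, (flagAt_some hf).1, h⟩
  exact key _ le_rfl h

theorem yc_eq (hB : B.Ok) (hX : Mn B X) (b : Bool) : X (.yc b) = X .y := by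
  have h : X (.yc false) = X .y := passive_eq hB hX (v := .yc false) trivial trivial
  cases b
  · exact h
  · rw [← h]
    exact passive_eq hB hX (v := .yc true) trivial trivial

theorem UJ_eq (hB : B.Ok) (hX : Mn B X) {t : Bool} {k : ℕ} (hk : k < Z B + 1) :
    X (.UJ t k) = ((X .y == t) || X (.ph (Z B))) := by
  induction k with
  | zero =>
    have h := passive_eq hB hX (v := .UJ t 0) trivial hk
    have := NumAux.toNat_le t
    simp only [pdf] at h
    rw [h, yc_eq hB hX, ph_eq hB hX (by omega) (by omega)]
  | succ k ih =>
    rw [← ih (by omega)]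
    exact passive_eq hB hX (v := .UJ t (k + 1)) trivial hk

theorem UE_eq (hB : B.Ok) (hX : Mn B X) {s : Bool} {k : ℕ} (hk : k < Z B + 1) :
    X (.UE s k) = (!X (.e s) || X (.ph (Z B))) := by
  induction k with
  | zero =>
    have h := passive_eq hB hX (v := .UE s 0) trivial hk
    have := NumAux.toNat_le s
    simp only [pdf] at h
    rw [h, ph_eq hB hX (by omega) (by omega)]
  | succ k ih =>
    rw [← ih (by omega)]
    exact passive_eq hB hX (v := .UE s (k + 1)) trivial hk

theorem La_eq (hB : B.Ok) (hX : Mn B X) (t b : Bool) : X (.La t b) = X (.L t 0) := by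
  have h : X (.La t false) = X (.L t 0) :=
    passive_eq hB hX (v := .La t false) trivial trivial
  cases b
  · exact h
  · rw [← h]
    exact passive_eq hB hX (v := .La t true) trivial trivial

theorem A_eq (hB : B.Ok) (hX : Mn B X) (s : Bool) :
    X (.A s) = (X (.L s 0) && !X (.L (!s) 0)) := by
  have h := passive_eq hB hX (v := .A s) trivial trivial
  simp only [pdf] at h
  rw [h, La_eq hB hX, La_eq hB hX]

theorem UW_eq (hB : B.Ok) (hX : Mn B X) {s : Bool} {k : ℕ} (hk : k < Z B + 1) :
    X (.UW s k) = ((X (.L s 0) && !X (.L (!s) 0)) || X (.ph (Z B))) := by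
  induction k with
  | zero =>
    have h := passive_eq hB hX (v := .UW s 0) trivial hk
    have := NumAux.toNat_le s
    simp only [pdf] at h
    rw [h, A_eq hB hX, ph_eq hB hX (by omega) (by omega)]
  | succ k ih =>
    rw [← ih (by omega)]
    exact passive_eq hB hX (v := .UW s (k + 1)) trivial hk

theorem UQ_eq (hB : B.Ok) (hX : Mn B X) {k : ℕ} (hk : k < Z B + 1) :
    X (.UQ k) = ((X (.L false 0) && !X (.L true 0)) || (X (.L true 0) && !X (.L false 0)) ||
      X (.ph (Z B))) := by
  induction k with
  | zero =>
    have h := passive_eq hB hX (v := .UQ 0) trivial hk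
    simp only [pdf] at h
    rw [h, UW_eq hB hX (by omega), UW_eq hB hX (by omega), Bool.not_false, Bool.not_true]
    cases X (.L false 0) <;> cases X (.L true 0) <;> cases X (.ph (Z B)) <;> simp
  | succ k ih =>
    rw [← ih (by omega)]
    exact passive_eq hB hX (v := .UQ (k + 1)) trivial hk

theorem L_top (hB : B.Ok) (hX : Mn B X) {t : Bool} : X (.L t B.m) = false := by
  have h := passive_eq hB hX (v := .L t B.m) trivial (show B.m ≤ B.m from le_rfl)
  simpa only [pdf, if_true] using h

theorem L_eq (hB : B.Ok) (hX : Mn B X) {t : Bool} {j : ℕ} (hj : j < B.m) :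
    X (.L t j) = (X (.L t (j + 1)) || X (.tau t j)) := by
  have h := passive_eq hB hX (v := .L t j) trivial (show j ≤ B.m from hj.le)
  simpa only [pdf, hj.ne, if_false] using h

theorem rho_eq (hB : B.Ok) (hX : Mn B X) {j : ℕ} (hj : j < B.m) :
    X (.rho j) = (X (.L false (j + 1)) || X (.L true (j + 1))) :=
  passive_eq hB hX (v := .rho j) trivial hj

theorem mp_eq (hB : B.Ok) (hX : Mn B X) {j : ℕ} (hj : j < B.m) : X (.mp j) = X (.m j) :=
  passive_eq hB hX (v := .mp j) trivial hj

theorem xi_eq (hB : B.Ok) (hX : Mn B X) {t g : Bool} {i : ℕ} (hi : i < B.n) :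
    X (.xi t g i) = X (.x (.r t g (B.nx.getD i 0) (kxi B i))) :=
  passive_eq hB hX (v := .xi t g i) trivial hi

end Pool.Agent.MPa0a715.BT
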