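import Pool.Agent.Lib.MP_a0a715_lc_BI.Defs

/-!
# A system of constraints with three variables each, every variable in at most three constraints

The system simulates a circuit which computes, for a solution, the next solution, the digits of
its cost and the position of the first digit that decreases. There are two slots for solutions.
It is a variant of the system in `MP_a0a715_lc_BI` in which every value is read at most once by
each other variable. Chains of copies consist of the variables `c a`, `d a`, `x a`: the copy `c a`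
forces `d a` up, unless the flag `f a` is up, and `d a` forces up the next copy `c (nxt a)` and the
variable `x a`, which is read elsewhere. If some flag is up then everything is pushed up.
-/

namespace Pool.Agent.MPa0a715.BT

open Pool.Agent.MPa0a715
open Pool.Agent.MPa0a715.BI (Base)

/-- the places in the chains of copies -/
inductive Ch
  /-- wire `w` of the circuit on the solution in slot `s` may have the value `g`; copy `k` -/
  | r (s g : Bool) (w k : ℕ)
  /-- slot `t` may differ from the next solution of the other slot; copy `k` -/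
  | D (t : Bool) (k : ℕ)
  /-- slot `s` may be the active one; copy `k` -/
  | Y (s : Bool) (k : ℕ)
  deriving DecidableEq

/-- the next place -/
def nxt : Ch → Ch
  | .r s g w k => .r s g w (k + 1)
  | .D t k => .D t (k + 1)
  | .Y s k => .Y s (k + 1)

/-- The variables of the system. The boolean `s` or `t` is the number of a slot. -/
inductive Var
  /-- bit `i` of the solution in slot `s` -/
  | V (s : Bool) (i : ℕ)
  /-- bit `i` of slot `t` may have the value `g` (used for comparing) -/
  | z (t g : Bool) (i : ℕ)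
  /-- a copy -/
  | c (a : Ch)
  /-- it forces the next copy and `x` up -/
  | d (a : Ch)
  /-- a copy that is read once -/
  | x (a : Ch)
  /-- flag: `d a` need not be up -/
  | f (a : Ch)
  /-- bit `i` of slot `t` may have the value `g` and this may be wrong -/
  | ck (t g : Bool) (i : ℕ)
  /-- bit `i` of slot `t` may be wrong -/
  | F (t : Bool) (i : ℕ)
  /-- one of the first `i` bits of slot `t` may be wrong -/
  | E (t : Bool) (i : ℕ)
  /-- digit `j` of the cost of slot `s` has to be shown -/
  | p (s : Bool) (j : ℕ)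
  /-- digit `j` of slot `s` -/
  | u (s : Bool) (j : ℕ)
  /-- digit `j` of slot `s` if this is the active slot -/
  | al (s : Bool) (j : ℕ)
  /-- slot `s` may be active and improve its digit `j` -/
  | be (s : Bool) (j : ℕ)
  /-- digit `j` of the active slot -/
  | q (j : ℕ)
  /-- digit `j` of the register -/
  | m (j : ℕ)
  /-- its copy -/
  | mp (j : ℕ)
  /-- the active slot is left in favour of slot `t` because of digit `j` -/
  | tau (t : Bool) (j : ℕ)
  /-- the same for a digit with number at least `j` -/
  | L (t : Bool) (j : ℕ)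
  /-- the same for a digit with number larger than `j` and some slot -/
  | rho (j : ℕ)
  /-- the number of the active slot -/
  | y
  /-- its copies -/
  | yc (b : Bool)
  /-- slot `t` is evaluated -/
  | e (t : Bool)
  /-- there is a flag with number less than `k` -/
  | ph (k : ℕ)
  /-- slot `t` is active, or there is a flag; copies -/
  | UJ (t : Bool) (k : ℕ)
  /-- slot `s` is not evaluated, or there is a flag; copies -/
  | UE (s : Bool) (k : ℕ)
  /-- slot `s` becomes active, or there is a flag; copies -/
  | UW (s : Bool) (k : ℕ)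
  /-- some slot becomes active, or there is a flag; copies -/
  | UQ (k : ℕ)
  /-- copies of `L t 0` -/
  | La (t b : Bool)
  /-- slot `s` becomes active -/
  | A (s : Bool)
  /-- wire `nx i` of slot `t` may have the value `g` -/
  | xi (t g : Bool) (i : ℕ)
  deriving DecidableEq

/-- a conjunction of literals; `(v, b)` says that `v` has the value `b` -/
abbrev Part := List (Var × Bool)

/-- a constraint is violated if one of its parts is true -/
abbrev Con := List Part

/-- value of a part -/
def pv (X : Var → Bool) (P : Part) : Bool := P.all fun l => X l.1 == l.2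

/-- the constraint is violated -/
def cv (X : Var → Bool) (c : Con) : Bool := c.any (pv X)

/-- flip one variable -/
def fl (X : Var → Bool) (v : Var) : Var → Bool := Function.update X v (!X v)

/-- no part of the constraint becomes true -/
def NI (X X' : Var → Bool) (c : Con) : Prop := ∀ P ∈ c, pv X' P = true → pv X P = true

/-- the variable occurs in the constraint -/
def Occ (v : Var) (c : Con) : Prop := ∃ P ∈ c, ∃ l ∈ P, l.1 = v

/-- `g` if `a` and `b` -/
def cAnd (a b g : Var) : Con := [[(a, true), (b, true), (g, false)]]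

/-- `g` if `a` or `b` -/
def cOr (a b g : Var) : Con := [[(a, true), (g, false)], [(b, true), (g, false)]]

/-- `g` if `a` -/
def cCp (a g : Var) : Con := [[(a, true), (g, false)]]

/-- `g` iff `a` -/
def cEq (a g : Var) : Con := [[(g, true), (a, false)], [(g, false), (a, true)]]

/-- `g` iff `a` or `b` -/
def cNor (a b g : Var) : Con :=
  [[(g, true), (a, false), (b, false)], [(g, false), (a, true)], [(g, false), (b, true)]]

/-- `g` iff `a` has the value `h` or `b` -/
def cOl (a : Var) (h : Bool) (b g : Var) : Con :=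
  [[(g, true), (a, !h), (b, false)], [(g, false), (a, h)], [(g, false), (b, true)]]

/-- `g` iff `a` and not `b` -/
def cAn (a b g : Var) : Con :=
  [[(g, true), (a, false)], [(g, true), (b, true)], [(g, false), (a, true), (b, false)]]

variable (B : Base)

/-- number of copies of each wire: `2 * w + 1` and `2 * w + 2` are used for gate `w` -/
def K : ℕ := 2 * B.N + 1 + 2 * B.n + 3 * B.m

/-- numbers of copies used for the comparison, `xi`, `p`, `u`, `be` -/
def kck (i : ℕ) : ℕ := 2 * B.N + 1 + i
/-- see `kck` -/
def kxi (i : ℕ) : ℕ := 2 * B.N + 1 + B.n + i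
/-- see `kck` -/
def kp (j : ℕ) : ℕ := 2 * B.N + 1 + 2 * B.n + j
/-- see `kck` -/
def ku (j : ℕ) : ℕ := 2 * B.N + 1 + 2 * B.n + B.m + j
/-- see `kck` -/
def kbe (j : ℕ) : ℕ := 2 * B.N + 1 + 2 * B.n + 2 * B.m + j

/-! ### numbers of variables -/

/-- kind and indices of a place -/
def codeC : Ch → ℕ × ℕ × ℕ
  | .r s g w k => (2 * s.toNat + g.toNat, w, k)
  | .D t k => (4 + t.toNat, k, 0)
  | .Y s k => (6 + s.toNat, k, 0)

/-- bound for the indices -/
def R : ℕ := K B + 1

/-- there are `Z` numbers for the variables which are not in chains of signals -/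
def Z : ℕ := 77 * R B * R B

/-- kind and indices of a variable -/
def code : Var → ℕ × ℕ × ℕ
  | .c a => codeC a
  | .d a => (8 + (codeC a).1, (codeC a).2)
  | .x a => (16 + (codeC a).1, (codeC a).2)
  | .f a => (24 + (codeC a).1, (codeC a).2)
  | .V s i => (32 + s.toNat, i, 0)
  | .z t g i => (34 + 2 * t.toNat + g.toNat, i, 0)
  | .ck t g i => (38 + 2 * t.toNat + g.toNat, i, 0)
  | .F t i => (42 + t.toNat, i, 0)
  | .E t i => (44 + t.toNat, i, 0)
  | .p s j => (46 + s.toNat, j, 0)
  | .u s j => (48 + s.toNat, j, 0)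
  | .al s j => (50 + s.toNat, j, 0)
  | .be s j => (52 + s.toNat, j, 0)
  | .q j => (54, j, 0)
  | .m j => (55, j, 0)
  | .mp j => (56, j, 0)
  | .tau t j => (57 + t.toNat, j, 0)
  | .L t j => (59 + t.toNat, j, 0)
  | .rho j => (61, j, 0)
  | .y => (62, 0, 0)
  | .yc b => (63 + b.toNat, 0, 0)
  | .e t => (65 + t.toNat, 0, 0)
  | .La t b => (67 + 2 * t.toNat + b.toNat, 0, 0)
  | .A s => (71 + s.toNat, 0, 0)
  | .xi t g i => (73 + 2 * t.toNat + g.toNat, i, 0)
  | .ph k => (77, 0, k)
  | .UJ t k => (78 + t.toNat, 0, k)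
  | .UE s k => (80 + s.toNat, 0, k)
  | .UW s k => (82 + s.toNat, 0, k)
  | .UQ k => (84, 0, k)

/-- number of a variable -/
def num : Var → ℕ
  | .ph k => Z B + k
  | .UJ t k => 3 * Z B + 8 + t.toNat * (Z B + 1) + k
  | .UE s k => 3 * Z B + 8 + (2 + s.toNat) * (Z B + 1) + k
  | .UW s k => 3 * Z B + 8 + (4 + s.toNat) * (Z B + 1) + k
  | .UQ k => 3 * Z B + 8 + 6 * (Z B + 1) + k
  | v => ((code v).1 * R B + (code v).2.1) * R B + (code v).2.2

/-- number of variables -/
def Nv : ℕ := 3 * Z B + 8 + 7 * (Z B + 1)

/-- the copies with this number are used for the variable -/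
def pos (v : Var) : ℕ := num B v + 1

/-- the place is in range (for `d`, `x`, `f`) -/
def ChV : Ch → Prop
  | .r _ _ w k => w < B.N ∧ k < K B
  | .D _ k => k ≤ B.m
  | .Y _ k => k < 2 * B.m

/-- the place is in range (for `c`) -/
def ChE : Ch → Prop
  | .r _ _ w k => w < B.N ∧ k ≤ K B
  | .D _ k => k ≤ B.m + 1
  | .Y _ k => k ≤ 2 * B.m

/-- the place with the given number of its flag -/
def flagAt (k : ℕ) : Option Ch :=
  if k / R B / R B = 24 ∧ k / R B % R B < B.N ∧ k % R B < K B then
    some (.r false false (k / R B % R B) (k % R B))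
  else if k / R B / R B = 25 ∧ k / R B % R B < B.N ∧ k % R B < K B then
    some (.r false true (k / R B % R B) (k % R B))
  else if k / R B / R B = 26 ∧ k / R B % R B < B.N ∧ k % R B < K B then
    some (.r true false (k / R B % R B) (k % R B))
  else if k / R B / R B = 27 ∧ k / R B % R B < B.N ∧ k % R B < K B then
    some (.r true true (k / R B % R B) (k % R B))
  else if k / R B / R B = 28 ∧ k / R B % R B ≤ B.m ∧ k % R B = 0 then
    some (.D false (k / R B % R B))
  else if k / R B / R B = 29 ∧ k / R B % R B ≤ B.m ∧ k % R B = 0 then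
    some (.D true (k / R B % R B))
  else if k / R B / R B = 30 ∧ k / R B % R B < 2 * B.m ∧ k % R B = 0 then
    some (.Y false (k / R B % R B))
  else if k / R B / R B = 31 ∧ k / R B % R B < 2 * B.m ∧ k % R B = 0 then
    some (.Y true (k / R B % R B))
  else none

/-- the indices are in range -/
def Vld : Var → Prop
  | .V _ i => i < B.n
  | .z _ _ i => i < B.n
  | .c a => ChE B a
  | .d a => ChV B a
  | .x a => ChV B a
  | .f a => ChV B a
  | .ck _ _ i => i < B.n
  | .F _ i => i < B.n
  | .E _ i => i ≤ B.n
  | .p _ j => j < B.m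
  | .u _ j => j < B.m
  | .al _ j => j < B.m
  | .be _ j => j < B.m
  | .q j => j < B.m
  | .m j => j < B.m
  | .mp j => j < B.m
  | .tau _ j => j < B.m
  | .L _ j => j ≤ B.m
  | .rho j => j < B.m
  | .y => True
  | .yc _ => True
  | .e _ => True
  | .ph k => k < 2 * Z B + 8
  | .UJ _ k => k < Z B + 1
  | .UE _ k => k < Z B + 1
  | .UW _ k => k < Z B + 1
  | .UQ k => k < Z B + 1
  | .La _ _ => True
  | .A _ => True
  | .xi _ _ i => i < B.n

/-- the variable is a rail: it is forced up by a constraint and pushed to a value by another -/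
def Rail : Var → Prop
  | .c _ => True
  | .d _ => True
  | .x _ => True
  | .ck _ _ _ => True
  | .F _ _ => True
  | .E _ _ => True
  | .p _ _ => True
  | .u _ _ => True
  | .al _ _ => True
  | .be _ _ => True
  | .q _ => True
  | _ => False

/-- the variable is determined by others: the most important constraint containing it says so -/
def Pas : Var → Prop
  | .ph _ => True
  | .mp _ => True
  | .L _ _ => True
  | .rho _ => True
  | .yc _ => True
  | .UJ _ _ => True
  | .UE _ _ => True
  | .UW _ _ => True
  | .UQ _ => True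
  | .La _ _ => True
  | .A _ => True
  | .xi _ _ _ => True
  | _ => False

/-- rails which have a constraint of their own -/
def Own : Var → Prop
  | .c (.r _ _ w 0) => B.n ≤ w ∧ w < B.N
  | .c (.D _ 0) => True
  | .ck _ _ i => i < B.n
  | .F _ i => i < B.n
  | .E _ (i + 1) => i < B.n
  | .p _ j => j < B.m
  | .u _ j => j < B.m
  | .al _ j => j < B.m
  | .be _ j => j < B.m
  | .q j => j < B.m
  | _ => False

/-- lists of places -/
def chs (h : ℕ → ℕ) (K : ℕ) : List Ch :=
  ([false, true].flatMap fun s => [false, true].flatMap fun g =>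
      (List.range B.N).flatMap fun w => (List.range K).map (Ch.r s g w)) ++
    ([false, true].flatMap fun t => (List.range (h (B.m + 1))).map (Ch.D t)) ++
    ([false, true].flatMap fun s => (List.range (h (2 * B.m))).map (Ch.Y s))

/-- the places for `d`, `x`, `f` -/
def chV : List Ch := chs B (fun k => k) (K B)

/-- the places for `c` -/
def chE : List Ch := chs B (fun k => k + 1) (K B + 1)

/-- the list of all rails, ordered by their codes -/
def rails : List Var :=
  [ (chE B).map Var.c,
    (chV B).map Var.d,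
    (chV B).map Var.x,
    [false, true].flatMap fun t => [false, true].flatMap fun g =>
      (List.range B.n).map (Var.ck t g),
    [false, true].flatMap fun t => (List.range B.n).map (Var.F t),
    [false, true].flatMap fun t => (List.range (B.n + 1)).map (Var.E t),
    [false, true].flatMap fun s => (List.range B.m).map (Var.p s),
    [false, true].flatMap fun s => (List.range B.m).map (Var.u s),
    [false, true].flatMap fun s => (List.range B.m).map (Var.al s),
    [false, true].flatMap fun s => (List.range B.m).map (Var.be s),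
    (List.range B.m).map Var.q ].flatten

/-! ### the constraints -/

/-- names of the constraints -/
inductive Pos
  | HL (s : Bool) (i : ℕ)
  | HZ (t : Bool) (i : ℕ)
  | Hy
  | N (a : Ch)
  | O (a : Ch)
  | H (g : Var)
  | Df (a : Ch)
  | P (v : Var)
  | hold (j : ℕ)
  | M (j : ℕ)
  | T1 (t : Bool) (j : ℕ)
  | T2 (t : Bool) (j : ℕ)
  | Yd
  | K1 (t : Bool)
  | K2 (t : Bool)
  | Lp (g : Var)
  | Lz (t g : Bool) (i : ℕ)
  | Ld (t : Bool) (i : ℕ)
  deriving DecidableEq

/-- the constraint for wire `w` of slot `s`, value `g` -/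
def gcon (s g : Bool) (w : ℕ) : Con :=
  match B.G[w - B.n]? with
  | none => []
  | some (.and i j) =>
    if g then cAnd (.x (.r s g i (2 * w + 1))) (.x (.r s g j (2 * w + 2))) (.c (.r s g w 0))
    else cOr (.x (.r s g i (2 * w + 1))) (.x (.r s g j (2 * w + 2))) (.c (.r s g w 0))
  | some (.or i j) =>
    if g then cOr (.x (.r s g i (2 * w + 1))) (.x (.r s g j (2 * w + 2))) (.c (.r s g w 0))
    else cAnd (.x (.r s g i (2 * w + 1))) (.x (.r s g j (2 * w + 2))) (.c (.r s g w 0))
  | some (.not i) => cCp (.x (.r s (!g) i (2 * w + 1))) (.c (.r s g w 0))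

/-- the constraint which forces a rail up -/
def hcon : Var → Con
  | .c (.r s g w 0) => gcon B s g w
  | .c (.D t 0) => cCp (.E t B.n) (.c (.D t 0))
  | .ck t g i =>
    cAnd (.z t g i) (.x (.r (!t) (!g) (B.nx.getD i 0) (kck B i))) (.ck t g i)
  | .F t i => cOr (.ck t true i) (.ck t false i) (.F t i)
  | .E t (i + 1) => cOr (.E t i) (.F t i) (.E t (i + 1))
  | .p s j => cOr (.x (.r s false (B.im.getD j 0) (kp B j))) (.x (.D (!s) (j + 1))) (.p s j)
  | .u s j => cAnd (.x (.r s true (B.co.getD j 0) (ku B j))) (.p s j) (.u s j)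
  | .al s j => cAnd (.x (.Y s (2 * j))) (.u s j) (.al s j)
  | .be s j =>
    cAnd (.x (.Y s (2 * j + 1))) (.x (.r s true (B.im.getD j 0) (kbe B j))) (.be s j)
  | .q j => cOr (.al false j) (.al true j) (.q j)
  | _ => []

/-- the constraint which determines a variable -/
def pcon : Var → Con
  | .ph 0 => [[(.ph 0, true)]]
  | .ph (k + 1) => match flagAt B k with
    | none => cEq (.ph k) (.ph (k + 1))
    | some a => cNor (.ph k) (.f a) (.ph (k + 1))
  | .mp j => cEq (.m j) (.mp j)
  | .L t j => if j = B.m then [[(.L t j, true)]] else cNor (.L t (j + 1)) (.tau t j) (.L t j)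
  | .rho j => cNor (.L false (j + 1)) (.L true (j + 1)) (.rho j)
  | .yc false => cEq .y (.yc false)
  | .yc true => cEq (.yc false) (.yc true)
  | .UJ t 0 => cOl (.yc t) t (.ph (2 * Z B + 2 + t.toNat)) (.UJ t 0)
  | .UJ t (k + 1) => cEq (.UJ t k) (.UJ t (k + 1))
  | .UE s 0 => cOl (.e s) false (.ph (2 * Z B + 4 + s.toNat)) (.UE s 0)
  | .UE s (k + 1) => cEq (.UE s k) (.UE s (k + 1))
  | .UW s 0 => cOl (.A s) true (.ph (2 * Z B + 6 + s.toNat)) (.UW s 0)
  | .UW s (k + 1) => cEq (.UW s k) (.UW s (k + 1))
  | .UQ 0 => cNor (.UW false 0) (.UW true 0) (.UQ 0)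
  | .UQ (k + 1) => cEq (.UQ k) (.UQ (k + 1))
  | .La t false => cEq (.L t 0) (.La t false)
  | .La t true => cEq (.La t false) (.La t true)
  | .A s => cAn (.La s false) (.La (!s) true) (.A s)
  | .xi t g i => cEq (.x (.r t g (B.nx.getD i 0) (kxi B i))) (.xi t g i)
  | _ => []

/-- the signal for the direction of a rail -/
def upv (g : Var) : Var :=
  match g with
  | .c (.r s _ _ _) => .UE s (pos B g)
  | .d (.r s _ _ _) => .UE s (pos B g)
  | .x (.r s _ _ _) => .UE s (pos B g)
  | .c (.D t _) => .UJ t (pos B g)
  | .d (.D t _) => .UJ t (pos B g)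
  | .x (.D t _) => .UJ t (pos B g)
  | .c (.Y s _) => .UW s (pos B g)
  | .d (.Y s _) => .UW s (pos B g)
  | .x (.Y s _) => .UW s (pos B g)
  | .ck t _ _ => .UJ t (pos B g)
  | .F t _ => .UJ t (pos B g)
  | .E t _ => .UJ t (pos B g)
  | .p s _ => .UE s (pos B g)
  | .u s _ => .UE s (pos B g)
  | .al s _ => .UW s (pos B g)
  | .be s _ => .UW s (pos B g)
  | _ => .UQ (pos B g)

/-- the constraints -/
def con : Pos → Con
  | .HL s i => [[(.V s i, true), (.c (.r s true i 0), false)],
      [(.V s i, false), (.c (.r s false i 0), false)]]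
  | .HZ t i => [[(.V t i, true), (.z t true i, false)], [(.V t i, false), (.z t false i, false)]]
  | .Hy => [[(.y, true), (.c (.Y true 0), false)], [(.y, false), (.c (.Y false 0), false)]]
  | .N a => [[(.d a, true), (.c (nxt a), false)], [(.d a, true), (.x a, false)]]
  | .O a => [[(.c a, true), (.d a, false), (.f a, false)]]
  | .H g => hcon B g
  | .Df a => [[(.f a, true)]]
  | .P v => pcon B v
  | .hold j => cOr (.q j) (.rho j) (.m j)
  | .M j => cEq (.ph (Z B + 1 + j)) (.m j)
  | .T1 t j => [[(.be (!t) j, true), (.mp j, false), (.tau t j, false)]]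
  | .T2 t j => [[(.tau t j, true)]]
  | .Yd => [[(.y, true), (.L false 0, true)], [(.y, false), (.L true 0, true)]]
  | .K1 t => [[(.e t, true), (.x (.D t 0), true), (.UJ t 0, false)]]
  | .K2 t => [[(.e t, false)]]
  | .Lp g => cEq (upv B g) g
  | .Lz t g i => cEq (.xi (!t) g i) (.z t g i)
  | .Ld t i => cEq (.xi (!t) true i) (.V t i)

/-- the constraints of the wires of slot `s` -/
def segR (s : Bool) : List Pos :=
  (List.range B.N).flatMap fun w =>
    (if w < B.n then [] else [Pos.H (.c (.r s false w 0)), Pos.H (.c (.r s true w 0))]) ++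
    (List.range (K B)).flatMap fun k => [Pos.N (.r s false w k), Pos.N (.r s true w k),
      Pos.O (.r s false w k), Pos.O (.r s true w k)]

/-- the constraints of a digit -/
def segD (j : ℕ) : List Pos :=
  [.P (.rho j), .hold j, .M j, .P (.mp j), .T1 false j, .T1 true j, .T2 false j, .T2 true j,
    .P (.L false j), .P (.L true j)]

/-- the segments of the list of constraints -/
def segs : List (List Pos) :=
  [ (List.range B.n).flatMap fun i => [.HL false i, .HL true i],
    (List.range B.n).flatMap fun i => [.HZ false i, .HZ true i],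
    segR B false,
    segR B true,
    (List.range B.n).flatMap fun i => [.H (.ck false false i), .H (.ck false true i),
      .H (.ck true false i), .H (.ck true true i)],
    (List.range B.n).flatMap fun i => [.H (.F false i), .H (.F true i)],
    (List.range B.n).flatMap fun i => [.H (.E false (i + 1)), .H (.E true (i + 1))],
    [.H (.c (.D false 0)), .H (.c (.D true 0))],
    (List.range (B.m + 1)).flatMap fun k => [.N (.D false k), .N (.D true k), .O (.D false k),
      .O (.D true k)],
    (List.range B.m).flatMap fun j => [.H (.p false j), .H (.p true j)],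
    (List.range B.m).flatMap fun j => [.H (.u false j), .H (.u true j)],
    [.Hy],
    (List.range (2 * B.m)).flatMap fun k => [.N (.Y false k), .N (.Y true k), .O (.Y false k),
      .O (.Y true k)],
    (List.range B.m).flatMap fun j => [.H (.al false j), .H (.al true j)],
    (List.range B.m).flatMap fun j => [.H (.be false j), .H (.be true j)],
    (List.range B.m).map fun j => .H (.q j),
    (chV B).map Pos.Df,
    (List.range (2 * Z B + 8)).map fun k => .P (.ph k),
    [.P (.L false B.m), .P (.L true B.m)],
    (List.range B.m).flatMap fun d => segD (B.m - 1 - d),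
    [.Yd, .P (.yc false), .P (.yc true)],
    (List.range (Z B + 1)).flatMap fun k => [.P (.UJ false k), .P (.UJ true k)],
    [.K1 false, .K1 true, .K2 false, .K2 true],
    (List.range (Z B + 1)).flatMap fun k => [.P (.UE false k), .P (.UE true k)],
    [.P (.La false false), .P (.La true false), .P (.La false true), .P (.La true true),
      .P (.A false), .P (.A true)],
    (List.range (Z B + 1)).flatMap fun k => [.P (.UW false k), .P (.UW true k)],
    (List.range (Z B + 1)).map fun k => .P (.UQ k),
    (rails B).map Pos.Lp,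
    (List.range B.n).flatMap fun i => [.P (.xi false false i), .P (.xi false true i),
      .P (.xi true false i), .P (.xi true true i)],
    (List.range B.n).flatMap fun i => [.Lz false false i, .Lz false true i, .Lz true false i,
      .Lz true true i],
    (List.range B.n).flatMap fun i => [.Ld false i, .Ld true i] ]

/-- the list of all constraints, the most important one first -/
def posL : List Pos := (segs B).flatten

/-- the place of a constraint in the list: number of the segment, and three further numbers -/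
def key : Pos → ℕ × ℕ × ℕ × ℕ
  | .HL s i => (0, i, 0, s.toNat)
  | .HZ t i => (1, i, 0, t.toNat)
  | .H (.c (.r s g w 0)) => (2 + s.toNat, w, 0, g.toNat)
  | .N (.r s g w k) => (2 + s.toNat, w, k + 1, g.toNat)
  | .O (.r s g w k) => (2 + s.toNat, w, k + 1, 2 + g.toNat)
  | .H (.ck t g i) => (4, i, t.toNat, g.toNat)
  | .H (.F t i) => (5, i, 0, t.toNat)
  | .H (.E t i) => (6, i, 0, t.toNat)
  | .H (.c (.D t 0)) => (7, 0, 0, t.toNat)
  | .N (.D t k) => (8, k, 0, t.toNat)
  | .O (.D t k) => (8, k, 0, 2 + t.toNat)
  | .H (.p s j) => (9, j, 0, s.toNat)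
  | .H (.u s j) => (10, j, 0, s.toNat)
  | .Hy => (11, 0, 0, 0)
  | .N (.Y s k) => (12, k, 0, s.toNat)
  | .O (.Y s k) => (12, k, 0, 2 + s.toNat)
  | .H (.al s j) => (13, j, 0, s.toNat)
  | .H (.be s j) => (14, j, 0, s.toNat)
  | .H (.q j) => (15, j, 0, 0)
  | .Df a => (16, codeC a)
  | .P (.ph k) => (17, k, 0, 0)
  | .P (.L t j) => if j = B.m then (18, 0, 0, t.toNat) else (19, B.m - j, 6, t.toNat)
  | .P (.rho j) => (19, B.m - j, 0, 0)
  | .hold j => (19, B.m - j, 1, 0)
  | .M j => (19, B.m - j, 2, 0)
  | .P (.mp j) => (19, B.m - j, 3, 0)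
  | .T1 t j => (19, B.m - j, 4, t.toNat)
  | .T2 t j => (19, B.m - j, 5, t.toNat)
  | .Yd => (20, 0, 0, 0)
  | .P (.yc b) => (20, 1, 0, b.toNat)
  | .P (.UJ t k) => (21, k, 0, t.toNat)
  | .K1 t => (22, 0, 0, t.toNat)
  | .K2 t => (22, 1, 0, t.toNat)
  | .P (.UE s k) => (23, k, 0, s.toNat)
  | .P (.La t b) => (24, 0, b.toNat, t.toNat)
  | .P (.A s) => (24, 1, 0, s.toNat)
  | .P (.UW s k) => (25, k, 0, s.toNat)
  | .P (.UQ k) => (26, k, 0, 0)
  | .Lp g => (27, code g)
  | .P (.xi t g i) => (28, i, t.toNat, g.toNat)
  | .Lz t g i => (29, i, t.toNat, g.toNat)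
  | .Ld t i => (30, i, 0, t.toNat)
  | .H _ => (31, 0, 0, 0)
  | .P _ => (31, 0, 0, 0)

/-- strict lexicographic order -/
def klt (a b : ℕ × ℕ × ℕ × ℕ) : Prop :=
  a.1 < b.1 ∨ (a.1 = b.1 ∧ (a.2.1 < b.2.1 ∨ (a.2.1 = b.2.1 ∧
    (a.2.2.1 < b.2.2.1 ∨ (a.2.2.1 = b.2.2.1 ∧ a.2.2.2 < b.2.2.2)))))

/-- the indices of the constraint are in range -/
def PVld : Pos → Prop
  | .HL _ i => i < B.n
  | .HZ _ i => i < B.n
  | .Hy => True
  | .N a => ChV B a
  | .O a => ChV B a
  | .H g => Own B g
  | .Df a => ChV B a
  | .P v => Pas v ∧ Vld B v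
  | .hold j => j < B.m
  | .M j => j < B.m
  | .T1 _ j => j < B.m
  | .T2 _ j => j < B.m
  | .Yd => True
  | .K1 _ => True
  | .K2 _ => True
  | .Lp g => Rail g ∧ Vld B g
  | .Lz _ _ i => i < B.n
  | .Ld _ i => i < B.n

/-- the constraint which reads `x (r s g _ k)` -/
def rdx (s g : Bool) (k : ℕ) : Pos :=
  if k ≤ 2 * B.N then
    match B.G[(k - 1) / 2 - B.n]? with
    | some (.not _) => .H (.c (.r s (!g) ((k - 1) / 2) 0))
    | _ => .H (.c (.r s g ((k - 1) / 2) 0))
  else if k < 2 * B.N + 1 + B.n then .H (.ck (!s) (!g) (k - (2 * B.N + 1)))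
  else if k < 2 * B.N + 1 + 2 * B.n then .P (.xi s g (k - (2 * B.N + 1 + B.n)))
  else if k < 2 * B.N + 1 + 2 * B.n + B.m then .H (.p s (k - (2 * B.N + 1 + 2 * B.n)))
  else if k < 2 * B.N + 1 + 2 * B.n + 2 * B.m then
    .H (.u s (k - (2 * B.N + 1 + 2 * B.n + B.m)))
  else .H (.be s (k - (2 * B.N + 1 + 2 * B.n + 2 * B.m)))

/-- the constraint which reads a rail -/
def rdr : Var → Pos
  | .c a => .O a
  | .d a => .N a
  | .x (.r s g _ k) => rdx B s g k
  | .x (.D t k) => if k = 0 then .K1 t else .H (.p (!t) (k - 1))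
  | .x (.Y s k) => if k % 2 = 0 then .H (.al s (k / 2)) else .H (.be s (k / 2))
  | .ck t _ i => .H (.F t i)
  | .F t i => .H (.E t (i + 1))
  | .E t i => if i = B.n then .H (.c (.D t 0)) else .H (.E t (i + 1))
  | .p s j => .H (.u s j)
  | .u s j => .H (.al s j)
  | .al _ j => .H (.q j)
  | .be s j => .T1 (!s) j
  | .q j => .hold j
  | _ => .Yd

/-- the constraint which forces a rail up -/
def own : Var → Pos
  | .c (.r s g w 0) => if w < B.n then .HL s w else .H (.c (.r s g w 0))
  | .c (.r s g w (k + 1)) => .N (.r s g w k)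
  | .c (.D t 0) => .H (.c (.D t 0))
  | .c (.D t (k + 1)) => .N (.D t k)
  | .c (.Y _ 0) => .Hy
  | .c (.Y s (k + 1)) => .N (.Y s k)
  | .d a => .O a
  | .x a => .N a
  | g => .H g

open Classical in
/-- the rail which uses the copies with number `k` -/
noncomputable def inv (k : ℕ) : Var :=
  if h : ∃ g, Rail g ∧ Vld B g ∧ pos B g = k then h.choose else .y

/-- the constraint, apart from the next copy, which reads `ph k` -/
def rdph (k : ℕ) : Pos :=
  if k < 2 * Z B + 2 then .M (k - (Z B + 1))
  else if k = 2 * Z B + 2 then .P (.UJ false 0)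
  else if k = 2 * Z B + 3 then .P (.UJ true 0)
  else if k = 2 * Z B + 4 then .P (.UE false 0)
  else if k = 2 * Z B + 5 then .P (.UE true 0)
  else if k = 2 * Z B + 6 then .P (.UW false 0)
  else .P (.UW true 0)

/-- the constraints which contain a variable (and perhaps others) -/
noncomputable def occ : Var → List Pos
  | .V s i => [.HL s i, .HZ s i, .Ld s i]
  | .z t g i => [.HZ t i, .H (.ck t g i), .Lz t g i]
  | .f a => [.O a, .Df a, .P (.ph (num B (.f a) + 1))]
  | .m j => [.hold j, .M j, .P (.mp j)]
  | .mp j => [.P (.mp j), .T1 false j, .T1 true j]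
  | .tau t j => [.T1 t j, .T2 t j, .P (.L t j)]
  | .L t j => if j = 0 then [.P (.L t 0), .Yd, .P (.La t false)]
      else [.P (.L t j), .P (.rho (j - 1)), .P (.L t (j - 1))]
  | .rho j => [.P (.rho j), .hold j]
  | .y => [.Hy, .Yd, .P (.yc false)]
  | .yc false => [.P (.yc false), .P (.yc true), .P (.UJ false 0)]
  | .yc true => [.P (.yc true), .P (.UJ true 0)]
  | .e t => [.K1 t, .K2 t, .P (.UE t 0)]
  | .ph k => [.P (.ph k), .P (.ph (k + 1)), rdph B k]
  | .UJ t k => [.P (.UJ t k), .P (.UJ t (k + 1)), if k = 0 then .K1 t else .Lp (inv B k)]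
  | .UE s k => [.P (.UE s k), .P (.UE s (k + 1)), .Lp (inv B k)]
  | .UW s k => [.P (.UW s k), .P (.UW s (k + 1)), if k = 0 then .P (.UQ 0) else .Lp (inv B k)]
  | .UQ k => [.P (.UQ k), .P (.UQ (k + 1)), .Lp (inv B k)]
  | .La t false => [.P (.La t false), .P (.La t true), .P (.A t)]
  | .La t true => [.P (.La t true), .P (.A (!t))]
  | .A s => [.P (.A s), .P (.UW s 0)]
  | .xi t g i => if g then [.P (.xi t g i), .Lz (!t) g i, .Ld (!t) i]
      else [.P (.xi t g i), .Lz (!t) g i]
  | g => [own B g, rdr B g, .Lp g]

/-! ### values -/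

/-- the rail `g` has to be up because of its own constraint -/
def frc (X : Var → Bool) : Var → Bool
  | .c (.r s g w 0) => if w < B.n then X (.V s w) == g else
      match B.G[w - B.n]? with
      | none => false
      | some (.and i j) =>
        if g then X (.x (.r s g i (2 * w + 1))) && X (.x (.r s g j (2 * w + 2)))
        else X (.x (.r s g i (2 * w + 1))) || X (.x (.r s g j (2 * w + 2)))
      | some (.or i j) =>
        if g then X (.x (.r s g i (2 * w + 1))) || X (.x (.r s g j (2 * w + 2)))
        else X (.x (.r s g i (2 * w + 1))) && X (.x (.r s g j (2 * w + 2)))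
      | some (.not i) => X (.x (.r s (!g) i (2 * w + 1)))
  | .c (.r s g w (k + 1)) => X (.d (.r s g w k))
  | .c (.D t 0) => X (.E t B.n)
  | .c (.D t (k + 1)) => X (.d (.D t k))
  | .c (.Y s 0) => X .y == s
  | .c (.Y s (k + 1)) => X (.d (.Y s k))
  | .d a => X (.c a) && !X (.f a)
  | .x a => X (.d a)
  | .ck t g i => X (.z t g i) && X (.x (.r (!t) (!g) (B.nx.getD i 0) (kck B i)))
  | .F t i => X (.ck t true i) || X (.ck t false i)
  | .E _ 0 => false
  | .E t (i + 1) => X (.E t i) || X (.F t i)
  | .p s j => X (.x (.r s false (B.im.getD j 0) (kp B j))) || X (.x (.D (!s) (j + 1)))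
  | .u s j => X (.x (.r s true (B.co.getD j 0) (ku B j))) && X (.p s j)
  | .al s j => X (.x (.Y s (2 * j))) && X (.u s j)
  | .be s j =>
    X (.x (.Y s (2 * j + 1))) && X (.x (.r s true (B.im.getD j 0) (kbe B j)))
  | .q j => X (.al false j) || X (.al true j)
  | _ => false

/-- the value of a variable which is determined by others -/
def pdf (X : Var → Bool) : Var → Bool
  | .ph 0 => false
  | .ph (k + 1) => X (.ph k) || ((flagAt B k).elim false fun a => X (.f a))
  | .mp j => X (.m j)
  | .L t j => if j = B.m then false else X (.L t (j + 1)) || X (.tau t j)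
  | .rho j => X (.L false (j + 1)) || X (.L true (j + 1))
  | .yc false => X .y
  | .yc true => X (.yc false)
  | .UJ t 0 => (X (.yc t) == t) || X (.ph (2 * Z B + 2 + t.toNat))
  | .UJ t (k + 1) => X (.UJ t k)
  | .UE s 0 => !X (.e s) || X (.ph (2 * Z B + 4 + s.toNat))
  | .UE s (k + 1) => X (.UE s k)
  | .UW s 0 => X (.A s) || X (.ph (2 * Z B + 6 + s.toNat))
  | .UW s (k + 1) => X (.UW s k)
  | .UQ 0 => X (.UW false 0) || X (.UW true 0)
  | .UQ (k + 1) => X (.UQ k)
  | .La t false => X (.L t 0)
  | .La t true => X (.La t false)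
  | .A s => X (.La s false) && !X (.La (!s) true)
  | .xi t g i => X (.x (.r t g (B.nx.getD i 0) (kxi B i)))
  | _ => false

/-- no flip of a variable is an improvement: whenever a flip repairs a violated constraint, a part
of a more important constraint becomes true -/
def Mn (X : Var → Bool) : Prop :=
  ∀ (v : Var) (P Q : List Pos) (p : Pos), posL B = P ++ p :: Q → cv X (con B p) = true →
    (∀ d ∈ P, NI X (fl X v) (con B d)) → cv (fl X v) (con B p) = true

/-- the solution in slot `s` -/
def sl (X : Var → Bool) (s : Bool) : List Bool := (List.range B.n).map fun i => X (.V s i)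

end Pool.Agent.MPa0a715.BT
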