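import Pool.Agent.Lib.MP_a0a715_lc_BT.Num

/-!
# Occurrences of variables in constraints
-/

namespace Pool.Agent.MPa0a715.BT

open Pool.Agent.MPa0a715
open Pool.Agent.MPa0a715.BI (Base)

variable {B : Base} {X : Var → Bool}

namespace OccAux

open NumAux

/-- the variables of the constraint of a rail -/
def vsH (B : Base) : Var → List Var
  | .c (.r s g w 0) => match B.G[w - B.n]? with
    | none => []
    | some (.and i j) =>
      [.x (.r s g i (2 * w + 1)), .x (.r s g j (2 * w + 2)), .c (.r s g w 0)]
    | some (.or i j) =>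
      [.x (.r s g i (2 * w + 1)), .x (.r s g j (2 * w + 2)), .c (.r s g w 0)]
    | some (.not i) => [.x (.r s (!g) i (2 * w + 1)), .c (.r s g w 0)]
  | .c (.D t 0) => [.E t B.n, .c (.D t 0)]
  | .ck t g i => [.z t g i, .x (.r (!t) (!g) (B.nx.getD i 0) (kck B i)), .ck t g i]
  | .F t i => [.ck t true i, .ck t false i, .F t i]
  | .E t (i + 1) => [.E t i, .F t i, .E t (i + 1)]
  | .p s j => [.x (.r s false (B.im.getD j 0) (kp B j)), .x (.D (!s) (j + 1)), .p s j]
  | .u s j => [.x (.r s true (B.co.getD j 0) (ku B j)), .p s j, .u s j]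
  | .al s j => [.x (.Y s (2 * j)), .u s j, .al s j]
  | .be s j => [.x (.Y s (2 * j + 1)), .x (.r s true (B.im.getD j 0) (kbe B j)), .be s j]
  | .q j => [.al false j, .al true j, .q j]
  | _ => []

/-- the variables of the constraint which determines a variable -/
def vsP (B : Base) : Var → List Var
  | .ph 0 => [.ph 0]
  | .ph (k + 1) => match flagAt B k with
    | none => [.ph k, .ph (k + 1)]
    | some a => [.ph k, .f a, .ph (k + 1)]
  | .mp j => [.m j, .mp j]
  | .L t j => if j = B.m then [.L t j] else [.L t (j + 1), .tau t j, .L t j]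
  | .rho j => [.L false (j + 1), .L true (j + 1), .rho j]
  | .yc false => [.y, .yc false]
  | .yc true => [.yc false, .yc true]
  | .UJ t 0 => [.yc t, .ph (2 * Z B + 2 + t.toNat), .UJ t 0]
  | .UJ t (k + 1) => [.UJ t k, .UJ t (k + 1)]
  | .UE s 0 => [.e s, .ph (2 * Z B + 4 + s.toNat), .UE s 0]
  | .UE s (k + 1) => [.UE s k, .UE s (k + 1)]
  | .UW s 0 => [.A s, .ph (2 * Z B + 6 + s.toNat), .UW s 0]
  | .UW s (k + 1) => [.UW s k, .UW s (k + 1)]
  | .UQ 0 => [.UW false 0, .UW true 0, .UQ 0]
  | .UQ (k + 1) => [.UQ k, .UQ (k + 1)]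
  | .La t false => [.L t 0, .La t false]
  | .La t true => [.La t false, .La t true]
  | .A s => [.La s false, .La (!s) true, .A s]
  | .xi t g i => [.x (.r t g (B.nx.getD i 0) (kxi B i)), .xi t g i]
  | _ => []

/-- the variables of a constraint -/
def vs (B : Base) : Pos → List Var
  | .HL s i => [.V s i, .c (.r s true i 0), .c (.r s false i 0)]
  | .HZ t i => [.V t i, .z t true i, .z t false i]
  | .Hy => [.y, .c (.Y true 0), .c (.Y false 0)]
  | .N a => [.d a, .c (nxt a), .x a]
  | .O a => [.c a, .d a, .f a]
  | .H g => vsH B g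
  | .Df a => [.f a]
  | .P v => vsP B v
  | .hold j => [.q j, .rho j, .m j]
  | .M j => [.ph (Z B + 1 + j), .m j]
  | .T1 t j => [.be (!t) j, .mp j, .tau t j]
  | .T2 t j => [.tau t j]
  | .Yd => [.y, .L false 0, .L true 0]
  | .K1 t => [.e t, .x (.D t 0), .UJ t 0]
  | .K2 t => [.e t]
  | .Lp g => [upv B g, g]
  | .Lz t g i => [.xi (!t) g i, .z t g i]
  | .Ld t i => [.xi (!t) true i, .V t i]

theorem occ_iff {v : Var} {c : Con} : Occ v c ↔ v ∈ c.flatten.map Prod.fst := by
  constructor
  · rintro ⟨P, hP, l, hl, rfl⟩
    exact List.mem_map.2 ⟨l, List.mem_flatten.2 ⟨P, hP, hl⟩, rfl⟩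
  · intro h
    obtain ⟨l, hl, rfl⟩ := List.mem_map.1 h
    obtain ⟨P, hP, hl⟩ := List.mem_flatten.1 hl
    exact ⟨P, hP, l, hl, rfl⟩

theorem vsH_len (g : Var) : (vsH B g).length ≤ 3 := by
  unfold vsH
  repeat' split
  all_goals simp

theorem vsP_len (g : Var) : (vsP B g).length ≤ 3 := by
  unfold vsP
  repeat' split
  all_goals simp

theorem vs_len (p : Pos) : (vs B p).length ≤ 3 := by
  cases p with
  | H g => exact vsH_len g
  | P g => exact vsP_len g
  | _ => simp [vs]

theorem occ_vsH {v g : Var} (h : v ∈ (hcon B g).flatten.map Prod.fst) : v ∈ vsH B g := by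
  cases g with
  | c a =>
    rcases a with ⟨s, g, w, _ | k⟩ | ⟨t, _ | k⟩ | ⟨s, k⟩
    · rcases hG : B.G[w - B.n]? with _ | (⟨i, j⟩ | ⟨i, j⟩ | ⟨i⟩)
      · simp [hcon, gcon, hG] at h
      · cases g <;> simp [hcon, gcon, vsH, hG, cOr, cAnd] at h ⊢ <;> tauto
      · cases g <;> simp [hcon, gcon, vsH, hG, cOr, cAnd] at h ⊢ <;> tauto
      · simp [hcon, gcon, vsH, hG, cCp] at h ⊢
        tauto
    · simp [hcon] at h
    · simp [hcon, vsH, cCp] at h ⊢
      tauto
    · simp [hcon] at h
    · simp [hcon] at h
  | E t i =>
    cases i with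
    | zero => simp [hcon] at h
    | succ i =>
      simp [hcon, vsH, cOr] at h ⊢
      tauto
  | _ =>
    simp [hcon, vsH, cOr, cAnd] at h ⊢ <;> tauto

theorem occ_vsP {v g : Var} (h : v ∈ (pcon B g).flatten.map Prod.fst) : v ∈ vsP B g := by
  cases g with
  | ph k =>
    cases k with
    | zero => simpa [pcon, vsP] using h
    | succ k =>
      rcases hf : flagAt B k with _ | a
      · simp [pcon, vsP, hf, cEq] at h ⊢
        tauto
      · simp [pcon, vsP, hf, cNor] at h ⊢
        tauto
  | L t j =>
    by_cases hj : j = B.m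
    · simpa [pcon, vsP, hj] using h
    · simp [pcon, vsP, hj, cNor] at h ⊢
      tauto
  | yc b => cases b <;> simp [pcon, vsP, cEq] at h ⊢ <;> tauto
  | UJ t k => cases k <;> simp [pcon, vsP, cEq, cOl] at h ⊢ <;> tauto
  | UE t k => cases k <;> simp [pcon, vsP, cEq, cOl] at h ⊢ <;> tauto
  | UW t k => cases k <;> simp [pcon, vsP, cEq, cOl] at h ⊢ <;> tauto
  | UQ k => cases k <;> simp [pcon, vsP, cEq, cNor] at h ⊢ <;> tauto
  | La t b => cases b <;> simp [pcon, vsP, cEq] at h ⊢ <;> tauto
  | _ =>
    simp [pcon, vsP, cEq, cNor, cAn] at h ⊢ <;> tauto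

theorem occ_vs {v : Var} {p : Pos} (h : Occ v (con B p)) : v ∈ vs B p := by
  rw [occ_iff] at h
  cases p with
  | H g => exact occ_vsH h
  | P g => exact occ_vsP h
  | _ =>
    simp [con, cOr, cAnd, cCp, cEq, cNor] at h
    simp [vs]
    tauto

theorem gate_refs (hB : B.Ok) {w : ℕ} {g : Gate} (h : B.G[w - B.n]? = some g) (hw : B.n ≤ w) :
    ∀ r ∈ g.refs, r < w := by
  obtain ⟨h1, h2⟩ := List.getElem?_eq_some_iff.1 h
  intro r hr
  rw [← h2] at hr
  have := hB.gates _ h1 r hr
  omega

theorem R_le_Z (B : Base) : R B ≤ Z B := by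
  unfold Z
  have : 0 < R B := by rw [R_eq]; omega
  nlinarith

theorem m_lt (B : Base) : 2 * B.m < Z B := by
  have := R_le_Z B
  have := R_eq B
  have := K_eq B
  omega

theorem nxt_vld {a : Ch} (h : ChV B a) : ChE B (nxt a) := by
  cases a <;> simp only [nxt, ChV, ChE] at * <;> omega

theorem upv_vld {g : Var} (hr : Rail g) (hg : Vld B g) : Vld B (upv B g) := by
  have h := num_lt_Z hr hg
  have hp : pos B g < Z B + 1 := by unfold pos; omega
  cases g with
  | c a => cases a <;> exact hp
  | d a => cases a <;> exact hp
  | x a => cases a <;> exact hp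
  | _ => first | exact hp | exact hr.elim

theorem vsH_vld (hB : B.Ok) {g v : Var} (hg : Own B g) (h : v ∈ vsH B g) : Vld B v := by
  have hn := n_le_N B
  have hpos := hB.pos
  have hK := K_eq B
  cases g with
  | c a =>
    rcases a with ⟨s, g, w, _ | k⟩ | ⟨t, _ | k⟩ | ⟨s, k⟩
    · have hp' : B.n ≤ w ∧ w < B.N := hg
      rcases hG : B.G[w - B.n]? with _ | (⟨i, j⟩ | ⟨i, j⟩ | ⟨i⟩)
      · simp [vsH, hG] at h
      · have hr := gate_refs hB hG hp'.1
        simp [Gate.refs] at hr
        simp [vsH, hG] at h
        rcases h with rfl | rfl | rfl <;> simp only [Vld, ChV, ChE] <;> omega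
      · have hr := gate_refs hB hG hp'.1
        simp [Gate.refs] at hr
        simp [vsH, hG] at h
        rcases h with rfl | rfl | rfl <;> simp only [Vld, ChV, ChE] <;> omega
      · have hr := gate_refs hB hG hp'.1
        simp [Gate.refs] at hr
        simp [vsH, hG] at h
        rcases h with rfl | rfl <;> simp only [Vld, ChV, ChE] <;> omega
    · simp [vsH] at h
    · simp [vsH] at h
      rcases h with rfl | rfl <;> simp only [Vld, ChE] <;> omega
    · simp [vsH] at h
    · simp [vsH] at h
  | ck t g i =>
    have hp' : i < B.n := hg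
    have h1 := hB.nx i hp'
    simp only [vsH, List.mem_cons, List.not_mem_nil, or_false] at h
    rcases h with rfl | rfl | rfl
    · exact hp'
    · exact ⟨h1, by unfold kck; omega⟩
    · exact hp'
  | F t i =>
    have hp' : i < B.n := hg
    simp only [vsH, List.mem_cons, List.not_mem_nil, or_false] at h
    rcases h with rfl | rfl | rfl <;> exact hp'
  | E t i =>
    cases i with
    | zero => simp [vsH] at h
    | succ i =>
      have hp' : i < B.n := hg
      simp only [vsH, List.mem_cons, List.not_mem_nil, or_false] at h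
      rcases h with rfl | rfl | rfl <;> simp only [Vld] <;> omega
  | p s j =>
    have hp' : j < B.m := hg
    have h1 := hB.im j hp'
    simp only [vsH, List.mem_cons, List.not_mem_nil, or_false] at h
    rcases h with rfl | rfl | rfl
    · exact ⟨h1, by unfold kp; omega⟩
    · exact hp'
    · exact hp'
  | u s j =>
    have hp' : j < B.m := hg
    have h1 := hB.co j hp'
    simp only [vsH, List.mem_cons, List.not_mem_nil, or_false] at h
    rcases h with rfl | rfl | rfl
    · exact ⟨h1, by unfold ku; omega⟩
    · exact hp'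
    · exact hp'
  | al s j =>
    have hp' : j < B.m := hg
    simp only [vsH, List.mem_cons, List.not_mem_nil, or_false] at h
    rcases h with rfl | rfl | rfl <;> simp only [Vld, ChV] <;> omega
  | be s j =>
    have hp' : j < B.m := hg
    have h1 := hB.im j hp'
    simp only [vsH, List.mem_cons, List.not_mem_nil, or_false] at h
    rcases h with rfl | rfl | rfl
    · simp only [Vld, ChV]
      omega
    · exact ⟨h1, by unfold kbe; omega⟩
    · exact hp'
  | q j =>
    have hp' : j < B.m := hg
    simp only [vsH, List.mem_cons, List.not_mem_nil, or_false] at h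
    rcases h with rfl | rfl | rfl <;> exact hp'
  | _ => simp [vsH] at h

theorem vsP_vld (hB : B.Ok) {g v : Var} (hg : Vld B g) (h : v ∈ vsP B g) : Vld B v := by
  have hn := n_le_N B
  have hpos := hB.pos
  have hK := K_eq B
  have hb := toNat_le
  cases g with
  | ph k =>
    have hp' : k < 2 * Z B + 8 := hg
    cases k with
    | zero =>
      simp [vsP] at h
      subst h
      exact hp'
    | succ k =>
      rcases hf : flagAt B k with _ | a
      · simp [vsP, hf] at h
        rcases h with rfl | rfl <;> simp only [Vld] <;> omega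
      · simp [vsP, hf] at h
        rcases h with rfl | rfl | rfl
        · simp only [Vld]
          omega
        · exact (flagAt_some hf).1
        · exact hp'
  | mp j =>
    simp [vsP] at h
    rcases h with rfl | rfl <;> exact hg
  | L t j =>
    have hp' : j ≤ B.m := hg
    by_cases hj : j = B.m
    · simp [vsP, hj] at h
      subst h
      simp only [Vld]
      omega
    · simp [vsP, hj] at h
      rcases h with rfl | rfl | rfl <;> simp only [Vld] <;> omega
  | rho j =>
    have hp' : j < B.m := hg
    simp [vsP] at h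
    rcases h with rfl | rfl | rfl <;> simp only [Vld] <;> omega
  | yc b =>
    cases b <;> simp [vsP] at h <;> rcases h with rfl | rfl <;> trivial
  | UJ t k =>
    have hp' : k < Z B + 1 := hg
    have := hb t
    cases k <;> simp [vsP] at h
    · rcases h with rfl | rfl | rfl
      · trivial
      · simp only [Vld]; omega
      · exact hp'
    · rcases h with rfl | rfl <;> simp only [Vld] <;> omega
  | UE t k =>
    have hp' : k < Z B + 1 := hg
    have := hb t
    cases k <;> simp [vsP] at h
    · rcases h with rfl | rfl | rfl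
      · trivial
      · simp only [Vld]; omega
      · exact hp'
    · rcases h with rfl | rfl <;> simp only [Vld] <;> omega
  | UW t k =>
    have hp' : k < Z B + 1 := hg
    have := hb t
    cases k <;> simp [vsP] at h
    · rcases h with rfl | rfl | rfl
      · trivial
      · simp only [Vld]; omega
      · exact hp'
    · rcases h with rfl | rfl <;> simp only [Vld] <;> omega
  | UQ k =>
    have hp' : k < Z B + 1 := hg
    cases k <;> simp [vsP] at h
    · rcases h with rfl | rfl | rfl <;> simp only [Vld] <;> omega
    · rcases h with rfl | rfl <;> simp only [Vld] <;> omega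
  | La t b =>
    cases b <;> simp [vsP] at h <;> rcases h with rfl | rfl <;> simp only [Vld] <;> omega
  | A s =>
    simp [vsP] at h
    rcases h with rfl | rfl | rfl <;> trivial
  | xi t g i =>
    have hp' : i < B.n := hg
    have h1 := hB.nx i hp'
    simp only [vsP, List.mem_cons, List.not_mem_nil, or_false] at h
    rcases h with rfl | rfl
    · exact ⟨h1, by unfold kxi; omega⟩
    · exact hp'
  | _ => simp [vsP] at h

theorem vs_vld (hB : B.Ok) {p : Pos} {v : Var} (hp : PVld B p) (h : v ∈ vs B p) :
    Vld B v := by
  have hn := n_le_N B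
  have hpos := hB.pos
  have hK := K_eq B
  have hm := m_lt B
  cases p with
  | HL s i =>
    have hp' : i < B.n := hp
    simp [vs] at h
    rcases h with rfl | rfl | rfl <;> simp only [Vld, ChE] <;> omega
  | HZ s i =>
    have hp' : i < B.n := hp
    simp [vs] at h
    rcases h with rfl | rfl | rfl <;> exact hp'
  | Hy =>
    simp [vs] at h
    rcases h with rfl | rfl | rfl <;> simp only [Vld, ChE] <;> omega
  | N a =>
    simp only [vs, List.mem_cons, List.not_mem_nil, or_false] at h
    rcases h with rfl | rfl | rfl
    · exact hp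
    · exact nxt_vld hp
    · exact hp
  | O a =>
    simp only [vs, List.mem_cons, List.not_mem_nil, or_false] at h
    rcases h with rfl | rfl | rfl
    · exact chE_of_chV hp
    · exact hp
    · exact hp
  | H g => exact vsH_vld hB hp h
  | Df a =>
    simp only [vs, List.mem_cons, List.not_mem_nil, or_false] at h
    subst h
    exact hp
  | P g => exact vsP_vld hB hp.2 h
  | hold j =>
    simp only [vs, List.mem_cons, List.not_mem_nil, or_false] at h
    rcases h with rfl | rfl | rfl <;> exact hp
  | M j =>
    have hp' : j < B.m := hp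
    simp only [vs, List.mem_cons, List.not_mem_nil, or_false] at h
    rcases h with rfl | rfl
    · simp only [Vld]
      omega
    · exact hp
  | T1 t j =>
    simp only [vs, List.mem_cons, List.not_mem_nil, or_false] at h
    rcases h with rfl | rfl | rfl <;> exact hp
  | T2 t j =>
    simp only [vs, List.mem_cons, List.not_mem_nil, or_false] at h
    subst h
    exact hp
  | Yd =>
    simp only [vs, List.mem_cons, List.not_mem_nil, or_false] at h
    rcases h with rfl | rfl | rfl <;> simp only [Vld] <;> omega
  | K1 t =>
    simp only [vs, List.mem_cons, List.not_mem_nil, or_false] at h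
    rcases h with rfl | rfl | rfl <;> simp only [Vld, ChV] <;> omega
  | K2 t =>
    simp only [vs, List.mem_cons, List.not_mem_nil, or_false] at h
    subst h
    trivial
  | Lp g =>
    simp only [vs, List.mem_cons, List.not_mem_nil, or_false] at h
    rcases h with rfl | rfl
    · exact upv_vld hp.1 hp.2
    · exact hp.2
  | Lz t g i =>
    simp only [vs, List.mem_cons, List.not_mem_nil, or_false] at h
    rcases h with rfl | rfl <;> exact hp
  | Ld t i =>
    simp only [vs, List.mem_cons, List.not_mem_nil, or_false] at h
    rcases h with rfl | rfl <;> exact hp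

theorem rdx_gate {s g : Bool} {w c : ℕ} (hw : w < B.N) (hc : c = 2 * w + 1 ∨ c = 2 * w + 2)
    (h : ∀ i, B.G[w - B.n]? ≠ some (.not i)) : rdx B s g c = .H (.c (.r s g w 0)) := by
  have h1 : c ≤ 2 * B.N := by omega
  have h2 : (c - 1) / 2 = w := by omega
  rw [rdx, if_pos h1, h2]
  split
  · next i hi => exact absurd hi (h i)
  · rfl

theorem rdx_not {s g : Bool} {w i : ℕ} (hw : w < B.N) (h : B.G[w - B.n]? = some (.not i)) :
    rdx B s (!g) (2 * w + 1) = .H (.c (.r s g w 0)) := by
  have h1 : 2 * w + 1 ≤ 2 * B.N := by omega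
  have h2 : (2 * w + 1 - 1) / 2 = w := by omega
  rw [rdx, if_pos h1, h2, h]
  simp

theorem rdx_ck {s g : Bool} {i : ℕ} (hi : i < B.n) :
    rdx B (!s) (!g) (kck B i) = .H (.ck s g i) := by
  unfold kck
  rw [rdx, if_neg (by omega), if_pos (by omega)]
  simp

theorem rdx_xi {s g : Bool} {i : ℕ} (hi : i < B.n) :
    rdx B s g (kxi B i) = .P (.xi s g i) := by
  unfold kxi
  rw [rdx, if_neg (by omega), if_neg (by omega), if_pos (by omega)]
  simp

theorem rdx_p {s g : Bool} {j : ℕ} (hj : j < B.m) :
    rdx B s g (kp B j) = .H (.p s j) := by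
  unfold kp
  rw [rdx, if_neg (by omega), if_neg (by omega), if_neg (by omega), if_pos (by omega)]
  simp

theorem rdx_u {s g : Bool} {j : ℕ} (hj : j < B.m) :
    rdx B s g (ku B j) = .H (.u s j) := by
  unfold ku
  rw [rdx, if_neg (by omega), if_neg (by omega), if_neg (by omega), if_neg (by omega),
    if_pos (by omega)]
  simp

theorem rdx_be {s g : Bool} {j : ℕ} :
    rdx B s g (kbe B j) = .H (.be s j) := by
  unfold kbe
  rw [rdx, if_neg (by omega), if_neg (by omega), if_neg (by omega), if_neg (by omega),
    if_neg (by omega)]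
  simp

theorem occ_rail {g : Var} (hr : Rail g) : occ B g = [own B g, rdr B g, .Lp g] := by
  cases g <;> first | exact hr.elim | rfl

theorem occ_of {g : Var} {p : Pos} (hr : Rail g) (h : p = own B g ∨ p = rdr B g ∨ p = .Lp g) :
    p ∈ occ B g := by
  rw [occ_rail hr]
  simpa using h

theorem vsH_mem {g v : Var} (hg : Own B g) (h : v ∈ vsH B g) : Pos.H g ∈ occ B v := by
  cases g with
  | c a =>
    rcases a with ⟨s, g, w, _ | k⟩ | ⟨t, _ | k⟩ | ⟨s, k⟩
    · have hp' : B.n ≤ w ∧ w < B.N := hg
      have ho : Pos.H (.c (.r s g w 0)) ∈ occ B (.c (.r s g w 0)) := by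
        refine occ_of trivial ?_
        simp [own, hp'.1]
      rcases hG : B.G[w - B.n]? with _ | (⟨i, j⟩ | ⟨i, j⟩ | ⟨i⟩)
      · simp [vsH, hG] at h
      · have h1 : ∀ i, B.G[w - B.n]? ≠ some (.not i) := by simp [hG]
        simp [vsH, hG] at h
        rcases h with rfl | rfl | rfl
        · refine occ_of trivial ?_
          simp [rdr, rdx_gate hp'.2 (Or.inl rfl) h1]
        · refine occ_of trivial ?_
          simp [rdr, rdx_gate hp'.2 (Or.inr rfl) h1]
        · exact ho
      · have h1 : ∀ i, B.G[w - B.n]? ≠ some (.not i) := by simp [hG]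
        simp [vsH, hG] at h
        rcases h with rfl | rfl | rfl
        · refine occ_of trivial ?_
          simp [rdr, rdx_gate hp'.2 (Or.inl rfl) h1]
        · refine occ_of trivial ?_
          simp [rdr, rdx_gate hp'.2 (Or.inr rfl) h1]
        · exact ho
      · simp [vsH, hG] at h
        rcases h with rfl | rfl
        · refine occ_of trivial ?_
          simp [rdr, rdx_not hp'.2 hG]
        · exact ho
    · simp [vsH] at h
    · simp [vsH] at h
      rcases h with rfl | rfl
      · refine occ_of trivial ?_
        simp [rdr]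
      · refine occ_of trivial ?_
        simp [own]
    · simp [vsH] at h
    · simp [vsH] at h
  | ck t g i =>
    have hp' : i < B.n := hg
    simp only [vsH, List.mem_cons, List.not_mem_nil, or_false] at h
    rcases h with rfl | rfl | rfl
    · simp [occ]
    · refine occ_of trivial ?_
      simp [rdr, rdx_ck hp']
    · refine occ_of trivial ?_
      simp [own]
  | F t i =>
    simp only [vsH, List.mem_cons, List.not_mem_nil, or_false] at h
    rcases h with rfl | rfl | rfl <;> refine occ_of trivial ?_ <;> simp [own, rdr]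
  | E t i =>
    cases i with
    | zero => simp [vsH] at h
    | succ i =>
      have hp' : i < B.n := hg
      simp only [vsH, List.mem_cons, List.not_mem_nil, or_false] at h
      rcases h with rfl | rfl | rfl <;> refine occ_of trivial ?_ <;> simp [own, rdr, hp'.ne]
  | p s j =>
    have hp' : j < B.m := hg
    simp only [vsH, List.mem_cons, List.not_mem_nil, or_false] at h
    rcases h with rfl | rfl | rfl <;> refine occ_of trivial ?_ <;> simp [own, rdr, rdx_p hp']
  | u s j =>
    have hp' : j < B.m := hg
    simp only [vsH, List.mem_cons, List.not_mem_nil, or_false] at h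
    rcases h with rfl | rfl | rfl <;> refine occ_of trivial ?_ <;> simp [own, rdr, rdx_u hp']
  | al s j =>
    simp only [vsH, List.mem_cons, List.not_mem_nil, or_false] at h
    rcases h with rfl | rfl | rfl <;> refine occ_of trivial ?_ <;> simp [own, rdr]
  | be s j =>
    simp only [vsH, List.mem_cons, List.not_mem_nil, or_false] at h
    rcases h with rfl | rfl | rfl
    · refine occ_of trivial ?_
      have h1 : (2 * j + 1) % 2 = 1 := by omega
      have h2 : (2 * j + 1) / 2 = j := by omega
      simp [rdr, h2]
    · refine occ_of trivial ?_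
      simp [rdr, rdx_be]
    · refine occ_of trivial ?_
      simp [own]
  | q j =>
    simp only [vsH, List.mem_cons, List.not_mem_nil, or_false] at h
    rcases h with rfl | rfl | rfl <;> refine occ_of trivial ?_ <;> simp [own, rdr]
  | _ => simp [vsH] at h

theorem vsP_mem {g v : Var} (hg : Vld B g) (h : v ∈ vsP B g) : Pos.P g ∈ occ B v := by
  cases g with
  | ph k =>
    cases k with
    | zero =>
      simp [vsP] at h
      subst h
      simp [occ]
    | succ k =>
      rcases hf : flagAt B k with _ | a
      · simp [vsP, hf] at h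
        rcases h with rfl | rfl <;> simp [occ]
      · simp [vsP, hf] at h
        rcases h with rfl | rfl | rfl
        · simp [occ]
        · simp [occ, (flagAt_some hf).2]
        · simp [occ]
  | mp j =>
    simp [vsP] at h
    rcases h with rfl | rfl <;> simp [occ]
  | L t j =>
    by_cases hj : j = B.m
    · simp [vsP, hj] at h
      subst h
      rcases Nat.eq_zero_or_pos B.m with h0 | h0
      · simp [occ, h0, hj]
      · simp [occ, h0.ne', hj]
    · simp [vsP, hj] at h
      rcases h with rfl | rfl | rfl
      · simp [occ]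
      · simp [occ]
      · rcases Nat.eq_zero_or_pos j with h0 | h0
        · simp [occ, h0]
        · simp [occ, h0.ne']
  | rho j =>
    simp [vsP] at h
    rcases h with rfl | rfl | rfl <;> simp [occ]
  | yc b =>
    cases b <;> simp [vsP] at h <;> rcases h with rfl | rfl <;> simp [occ]
  | UJ t k =>
    cases k <;> simp [vsP] at h
    · rcases h with rfl | rfl | rfl
      · cases t <;> simp [occ]
      · cases t <;> simp [occ, rdph]
      · simp [occ]
    · rcases h with rfl | rfl <;> simp [occ]
  | UE t k =>
    cases k <;> simp [vsP] at h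
    · rcases h with rfl | rfl | rfl
      · simp [occ]
      · cases t <;> simp [occ, rdph]
      · simp [occ]
    · rcases h with rfl | rfl <;> simp [occ]
  | UW t k =>
    cases k <;> simp [vsP] at h
    · rcases h with rfl | rfl | rfl
      · simp [occ]
      · cases t <;> simp [occ, rdph]
      · simp [occ]
    · rcases h with rfl | rfl <;> simp [occ]
  | UQ k =>
    cases k <;> simp [vsP] at h
    · rcases h with rfl | rfl | rfl <;> simp [occ]
    · rcases h with rfl | rfl <;> simp [occ]
  | La t b =>
    cases b <;> simp [vsP] at h <;> rcases h with rfl | rfl <;> simp [occ]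
  | A s =>
    simp [vsP] at h
    rcases h with rfl | rfl | rfl <;> simp [occ]
  | xi t g i =>
    have hp' : i < B.n := hg
    simp only [vsP, List.mem_cons, List.not_mem_nil, or_false] at h
    rcases h with rfl | rfl
    · refine occ_of trivial ?_
      simp [rdr, rdx_xi hp']
    · cases g <;> simp [occ]
  | _ => simp [vsP] at h

theorem vs_mem {p : Pos} {v : Var} (hp : PVld B p) (h : v ∈ vs B p) :
    p ∈ occ B v := by
  have hm := m_lt B
  cases p with
  | HL s i =>
    have hp' : i < B.n := hp
    simp [vs] at h
    rcases h with rfl | rfl | rfl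
    · simp [occ]
    · refine occ_of trivial ?_
      simp [own, hp']
    · refine occ_of trivial ?_
      simp [own, hp']
  | HZ s i =>
    simp [vs] at h
    rcases h with rfl | rfl | rfl <;> simp [occ]
  | Hy =>
    simp [vs] at h
    rcases h with rfl | rfl | rfl
    · simp [occ]
    · refine occ_of trivial ?_
      simp [own]
    · refine occ_of trivial ?_
      simp [own]
  | N a =>
    simp only [vs, List.mem_cons, List.not_mem_nil, or_false] at h
    rcases h with rfl | rfl | rfl
    · refine occ_of trivial ?_
      simp [rdr]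
    · refine occ_of trivial ?_
      cases a <;> simp [own, nxt]
    · refine occ_of trivial ?_
      simp [own]
  | O a =>
    simp only [vs, List.mem_cons, List.not_mem_nil, or_false] at h
    rcases h with rfl | rfl | rfl
    · refine occ_of trivial ?_
      simp [rdr]
    · refine occ_of trivial ?_
      simp [own]
    · simp [occ]
  | H g => exact vsH_mem hp h
  | Df a =>
    simp only [vs, List.mem_cons, List.not_mem_nil, or_false] at h
    subst h
    simp [occ]
  | P g => exact vsP_mem hp.2 h
  | hold j =>
    simp only [vs, List.mem_cons, List.not_mem_nil, or_false] at h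
    rcases h with rfl | rfl | rfl
    · refine occ_of trivial ?_
      simp [rdr]
    · simp [occ]
    · simp [occ]
  | M j =>
    have hp' : j < B.m := hp
    simp only [vs, List.mem_cons, List.not_mem_nil, or_false] at h
    rcases h with rfl | rfl
    · have h1 : Z B + 1 + j < 2 * Z B + 2 := by omega
      simp [occ, rdph, h1]
    · simp [occ]
  | T1 t j =>
    simp only [vs, List.mem_cons, List.not_mem_nil, or_false] at h
    rcases h with rfl | rfl | rfl
    · refine occ_of trivial ?_
      simp [rdr]
    · cases t <;> simp [occ]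
    · simp [occ]
  | T2 t j =>
    simp only [vs, List.mem_cons, List.not_mem_nil, or_false] at h
    subst h
    simp [occ]
  | Yd =>
    simp only [vs, List.mem_cons, List.not_mem_nil, or_false] at h
    rcases h with rfl | rfl | rfl <;> simp [occ]
  | K1 t =>
    simp only [vs, List.mem_cons, List.not_mem_nil, or_false] at h
    rcases h with rfl | rfl | rfl
    · simp [occ]
    · refine occ_of trivial ?_
      simp [rdr]
    · simp [occ]
  | K2 t =>
    simp only [vs, List.mem_cons, List.not_mem_nil, or_false] at h
    subst h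
    simp [occ]
  | Lp g =>
    simp only [vs, List.mem_cons, List.not_mem_nil, or_false] at h
    have hi := inv_eq hp.1 hp.2
    have h0 : pos B g ≠ 0 := by simp [pos]
    have hr := hp.1
    rcases h with rfl | rfl
    · cases g with
      | c a => cases a <;> simp [upv, occ, hi, h0]
      | d a => cases a <;> simp [upv, occ, hi, h0]
      | x a => cases a <;> simp [upv, occ, hi, h0]
      | _ => first | exact hr.elim | simp [upv, occ, hi, h0]
    · rw [occ_rail hr]
      simp
  | Lz t g i =>
    simp only [vs, List.mem_cons, List.not_mem_nil, or_false] at h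
    rcases h with rfl | rfl
    · cases g <;> simp [occ]
    · simp [occ]
  | Ld t i =>
    simp only [vs, List.mem_cons, List.not_mem_nil, or_false] at h
    rcases h with rfl | rfl <;> simp [occ]

end OccAux

open OccAux

theorem occ_mem (_hB : B.Ok) {p : Pos} {v : Var} (hp : PVld B p) (h : Occ v (con B p)) :
    p ∈ occ B v :=
  vs_mem hp (occ_vs h)

theorem occ_len (v : Var) : (occ B v).length ≤ 3 := by
  by_cases h : Rail v
  · rw [occ_rail h]
    simp
  · cases v with
    | yc b => cases b <;> simp [occ]
    | La t b => cases b <;> simp [occ]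
    | L t j =>
      simp only [occ]
      split <;> simp
    | xi t g i =>
      simp only [occ]
      split <;> simp
    | _ => first | exact absurd trivial h | simp [occ]

theorem con_vld (hB : B.Ok) {p : Pos} {v : Var} (hp : PVld B p) (h : Occ v (con B p)) :
    Vld B v :=
  vs_vld hB hp (occ_vs h)

theorem con_vars (p : Pos) : ∃ S : Finset Var, S.card ≤ 3 ∧ ∀ v, Occ v (con B p) → v ∈ S :=
  ⟨(vs B p).toFinset, (List.toFinset_card_le _).trans (vs_len p),
    fun _ h => List.mem_toFinset.2 (occ_vs h)⟩

namespace OccAux

/-- the shape of a constraint is in order -/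
def Shp (c : Con) : Prop := c ≠ [] ∧ c.length ≤ 3 ∧
    ∀ P ∈ c, P ≠ [] ∧ P.length ≤ 3 ∧ (P.map Prod.fst).Nodup

theorem shape_H {g : Var} (hg : Own B g) : Shp (hcon B g) := by
  cases g with
  | c a =>
    rcases a with ⟨s, g, w, _ | k⟩ | ⟨t, _ | k⟩ | ⟨s, k⟩
    · have hp' : B.n ≤ w ∧ w < B.N := hg
      have hlt : w - B.n < B.G.length := by
        have : B.N = B.n + B.G.length := rfl
        omega
      rcases hG : B.G[w - B.n] with ⟨i, j⟩ | ⟨i, j⟩ | ⟨i⟩
      · cases g <;> simp [Shp, hcon, gcon, List.getElem?_eq_getElem hlt, hG, cOr, cAnd]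
      · cases g <;> simp [Shp, hcon, gcon, List.getElem?_eq_getElem hlt, hG, cOr, cAnd]
      · simp [Shp, hcon, gcon, List.getElem?_eq_getElem hlt, hG, cCp]
    · exact hg.elim
    · simp [Shp, hcon, cCp]
    · exact hg.elim
    · exact hg.elim
  | E t i =>
    cases i with
    | zero => exact hg.elim
    | succ i => simp [Shp, hcon, cOr]
  | _ => first | exact hg.elim | simp [Shp, hcon, cOr, cAnd]

theorem shape_P {g : Var} (hg : Pas g) : Shp (pcon B g) := by
  cases g with
  | ph k =>
    cases k with
    | zero => simp [Shp, pcon]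
    | succ k => rcases hf : flagAt B k with _ | a <;> simp [Shp, pcon, hf, cEq, cNor]
  | L t j => by_cases hj : j = B.m <;> simp [Shp, pcon, hj, cNor]
  | yc b => cases b <;> simp [Shp, pcon, cEq]
  | UJ t k => cases k <;> simp [Shp, pcon, cEq, cOl]
  | UE t k => cases k <;> simp [Shp, pcon, cEq, cOl]
  | UW t k => cases k <;> simp [Shp, pcon, cEq, cOl]
  | UQ k => cases k <;> simp [Shp, pcon, cEq, cNor]
  | La t b => cases b <;> simp [Shp, pcon, cEq]
  | _ => first | exact hg.elim | simp [Shp, pcon, cEq, cNor, cAn]

theorem shape_Lp {g : Var} (hg : Rail g) : Shp (cEq (upv B g) g) := by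
  cases g with
  | c a => cases a <;> simp [Shp, cEq, upv]
  | d a => cases a <;> simp [Shp, cEq, upv]
  | x a => cases a <;> simp [Shp, cEq, upv]
  | _ => first | exact hg.elim | simp [Shp, cEq, upv]

end OccAux

theorem con_shape (_hB : B.Ok) {p : Pos} (hp : PVld B p) : con B p ≠ [] ∧
    (con B p).length ≤ 3 ∧
    ∀ P ∈ con B p, P ≠ [] ∧ P.length ≤ 3 ∧ (P.map Prod.fst).Nodup := by
  cases p with
  | H g => exact shape_H hp
  | P g => exact shape_P hp.1
  | Lp g => exact shape_Lp hp.1
  | _ => simp [con, cCp, cOr, cAnd, cNor, cEq]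

end Pool.Agent.MPa0a715.BT
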