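import Pool.Agent.Lib.MP_a0a715_lc_BT.Defs

/-!
# The list of constraints is sorted
-/

namespace Pool.Agent.MPa0a715.BT

open Pool.Agent.MPa0a715
open Pool.Agent.MPa0a715.BI (Base)

variable {B : Base}

namespace OrdAux

theorem digit (m j : ℕ) : (∃ a < m, j = m - 1 - a) ↔ j < m := by
  constructor
  · rintro ⟨a, ha, h⟩
    omega
  · intro h
    exact ⟨m - 1 - j, by omega, by omega⟩

theorem range_flatMap {α : Type} (R : α → α → Prop) (m : ℕ) (f : ℕ → List α)
    (h1 : ∀ i < m, (f i).Pairwise R)
    (h2 : ∀ i j, i < j → j < m → ∀ x ∈ f i, ∀ y ∈ f j, R x y) :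
    ((List.range m).flatMap f).Pairwise R := by
  rw [List.pairwise_flatMap]
  exact ⟨fun i hi => h1 i (List.mem_range.1 hi), List.pairwise_lt_range.imp_of_mem
    (fun _ hj hij => h2 _ _ hij (List.mem_range.1 hj))⟩

theorem range_map {α : Type} (R : α → α → Prop) (m : ℕ) (f : ℕ → α)
    (h : ∀ i j, i < j → j < m → R (f i) (f j)) : ((List.range m).map f).Pairwise R := by
  rw [List.pairwise_map]
  exact List.pairwise_lt_range.imp_of_mem
    (fun _ hj hij => h _ _ hij (List.mem_range.1 hj))

theorem flatten_sorted {α : Type} (k : α → ℕ) (R : α → α → Prop) (hR : ∀ x y, k x < k y → R x y)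
    {Ls : List (List α)} {bs : List (ℕ × ℕ)}
    (h : List.Forall₂ (fun l b => (∀ x ∈ l, b.1 ≤ k x ∧ k x < b.2) ∧ l.Pairwise R) Ls bs)
    (hbs : bs.Pairwise fun b c => b.2 ≤ c.1) :
    Ls.flatten.Pairwise R ∧ ∀ x ∈ Ls.flatten, ∃ b ∈ bs, b.1 ≤ k x := by
  induction h with
  | nil => simp
  | @cons l b Ls bs hl _ ih =>
    rw [List.pairwise_cons] at hbs
    obtain ⟨ih1, ih2⟩ := ih hbs.2
    rw [List.flatten_cons]
    refine ⟨List.pairwise_append.2 ⟨hl.2, ih1, fun x hx y hy => hR x y ?_⟩, fun x hx => ?_⟩
    · obtain ⟨c, hc, hcy⟩ := ih2 y hy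
      have h1 := hbs.1 c hc
      have h2 := (hl.1 x hx).2
      omega
    · rcases List.mem_append.1 hx with hx | hx
      · exact ⟨b, List.mem_cons_self, (hl.1 x hx).1⟩
      · obtain ⟨c, hc, hcx⟩ := ih2 x hx
        exact ⟨c, List.mem_cons_of_mem _ hc, hcx⟩

/-- lexicographic order on triples -/
def lt3 (a b : ℕ × ℕ × ℕ) : Prop :=
  a.1 < b.1 ∨ (a.1 = b.1 ∧ (a.2.1 < b.2.1 ∨ (a.2.1 = b.2.1 ∧ a.2.2 < b.2.2)))

theorem klt_of_lt3 {c : ℕ} {a b : ℕ × ℕ × ℕ} (h : lt3 a b) : klt (c, a) (c, b) := by
  unfold klt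
  exact Or.inr ⟨rfl, h⟩

/-- a list with keys in order, and first components in the interval from `a` to `b` -/
structure Seg {α : Type} (f : α → ℕ × ℕ × ℕ) (a b : ℕ) (l : List α) : Prop where
  bd : ∀ x ∈ l, a ≤ (f x).1 ∧ (f x).1 < b
  pw : l.Pairwise fun x z => lt3 (f x) (f z)

section Seg

variable {α : Type} {f : α → ℕ × ℕ × ℕ}

theorem Seg.append {a b c d : ℕ} {l l' : List α} (h : Seg f a b l) (h' : Seg f c d l')
    (hbc : b ≤ c) (hac : a ≤ c) (hbd : b ≤ d) : Seg f a d (l ++ l') where
  bd x hx := by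
    rcases List.mem_append.1 hx with hx | hx
    · have := h.bd x hx
      omega
    · have := h'.bd x hx
      omega
  pw := List.pairwise_append.2 ⟨h.pw, h'.pw, fun x hx z hz => Or.inl (by
    have := h.bd x hx
    have := h'.bd z hz
    omega)⟩

theorem Seg.bool {a c : ℕ} (b : ℕ) {g : Bool → List α} (h : Seg f a b (g false))
    (h' : Seg f b c (g true)) (hab : a ≤ b) (hbc : b ≤ c) :
    Seg f a c ([false, true].flatMap g) := by
  have e : [false, true].flatMap g = g false ++ g true := by simp
  rw [e]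
  exact h.append h' le_rfl hab hbc

theorem Seg.map {k : ℕ} (m : ℕ) (g : ℕ → α) (hk : ∀ i, (f (g i)).1 = k)
    (hc : ∀ i, (f (g i)).2.1 = i) : Seg f k (k + 1) ((List.range m).map g) where
  bd x hx := by
    obtain ⟨i, _, rfl⟩ := List.mem_map.1 hx
    rw [hk]
    omega
  pw := range_map _ _ _ fun i j hij _ => by
    unfold lt3
    rw [hk, hk, hc, hc]
    exact Or.inr ⟨rfl, Or.inl hij⟩

end Seg

theorem seg_r (N K : ℕ) (s g : Bool) : Seg codeC (2 * s.toNat + g.toNat)
    (2 * s.toNat + g.toNat + 1)
    ((List.range N).flatMap fun w => (List.range K).map (Ch.r s g w)) where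
  bd x hx := by
    obtain ⟨w, _, hx⟩ := List.mem_flatMap.1 hx
    obtain ⟨c, _, rfl⟩ := List.mem_map.1 hx
    simp only [codeC]
    omega
  pw := by
    refine range_flatMap _ _ _ (fun w _ => range_map _ _ _ fun c c' hc _ => ?_)
      (fun w w' hw _ => ?_)
    · exact Or.inr ⟨rfl, Or.inr ⟨rfl, hc⟩⟩
    · intro x hx z hz
      obtain ⟨c, _, rfl⟩ := List.mem_map.1 hx
      obtain ⟨c', _, rfl⟩ := List.mem_map.1 hz
      exact Or.inr ⟨rfl, Or.inl hw⟩

theorem seg_chs (B : Base) (h : ℕ → ℕ) (K : ℕ) : Seg codeC 0 8 (chs B h K) := by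
  unfold chs
  refine .append (b := 6) (c := 6) (.append (b := 4) (c := 4) (.bool 2 (.bool 1 ?_ ?_ ?_ ?_)
    (.bool 3 ?_ ?_ ?_ ?_) ?_ ?_) (.bool 5 ?_ ?_ ?_ ?_) ?_ ?_ ?_) (.bool 7 ?_ ?_ ?_ ?_) ?_ ?_ ?_
  · exact seg_r _ _ false false
  · exact seg_r _ _ false true
  · omega
  · omega
  · exact seg_r _ _ true false
  · exact seg_r _ _ true true
  · omega
  · omega
  · omega
  · omega
  · exact .map _ _ (fun _ => rfl) fun _ => rfl
  · exact .map _ _ (fun _ => rfl) fun _ => rfl
  · omega
  · omega
  · omega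
  · omega
  · omega
  · exact .map _ _ (fun _ => rfl) fun _ => rfl
  · exact .map _ _ (fun _ => rfl) fun _ => rfl
  all_goals omega

theorem Seg.mapC {a b : ℕ} (d : ℕ) {l : List Ch} (h : Seg codeC a b l) (f : Ch → Var)
    (hf : ∀ x, code (f x) = (d + (codeC x).1, (codeC x).2)) :
    Seg code (d + a) (d + b) (l.map f) where
  bd x hx := by
    obtain ⟨i, hi, rfl⟩ := List.mem_map.1 hx
    have := h.bd i hi
    rw [hf]
    dsimp only
    omega
  pw := by
    rw [List.pairwise_map]
    refine h.pw.imp ?_
    intro x z hxz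
    rw [hf, hf]
    unfold lt3 at hxz ⊢
    dsimp only
    omega

theorem seg_rails (B : Base) : (rails B).Pairwise fun x z => lt3 (code x) (code z) := by
  refine (flatten_sorted (fun g => (code g).1) (fun x z => lt3 (code x) (code z))
    (fun _ _ h => Or.inl h)
    (bs := [(0, 8), (8, 16), (16, 24), (38, 42), (42, 44), (44, 46), (46, 48), (48, 50), (50, 52),
      (52, 54), (54, 55)]) ?_ (by decide)).1
  have key : ∀ {a b : ℕ} {l : List Var}, Seg code a b l →
      (∀ x ∈ l, (a, b).1 ≤ (code x).1 ∧ (code x).1 < (a, b).2) ∧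
        l.Pairwise (fun x z => lt3 (code x) (code z)) :=
    fun h => ⟨h.bd, h.pw⟩
  refine List.Forall₂.cons (key ?_) (List.Forall₂.cons (key ?_) (List.Forall₂.cons (key ?_)
    (List.Forall₂.cons (key ?_) (List.Forall₂.cons (key ?_) (List.Forall₂.cons (key ?_)
    (List.Forall₂.cons (key ?_) (List.Forall₂.cons (key ?_) (List.Forall₂.cons (key ?_)
    (List.Forall₂.cons (key ?_) (List.Forall₂.cons (key ?_) List.Forall₂.nil))))))))))
  · exact Seg.mapC 0 (seg_chs B _ _) _ fun x => by rw [Nat.zero_add]; rfl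
  · exact Seg.mapC 8 (seg_chs B _ _) _ fun x => rfl
  · exact Seg.mapC 16 (seg_chs B _ _) _ fun x => rfl
  · exact .bool 40 (.bool 39 (.map _ _ (fun _ => rfl) fun _ => rfl)
      (.map _ _ (fun _ => rfl) fun _ => rfl) (by omega) (by omega))
      (.bool 41 (.map _ _ (fun _ => rfl) fun _ => rfl) (.map _ _ (fun _ => rfl) fun _ => rfl)
        (by omega) (by omega)) (by omega) (by omega)
  · exact .bool 43 (.map _ _ (fun _ => rfl) fun _ => rfl) (.map _ _ (fun _ => rfl) fun _ => rfl)
      (by omega) (by omega)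
  · exact .bool 45 (.map _ _ (fun _ => rfl) fun _ => rfl) (.map _ _ (fun _ => rfl) fun _ => rfl)
      (by omega) (by omega)
  · exact .bool 47 (.map _ _ (fun _ => rfl) fun _ => rfl) (.map _ _ (fun _ => rfl) fun _ => rfl)
      (by omega) (by omega)
  · exact .bool 49 (.map _ _ (fun _ => rfl) fun _ => rfl) (.map _ _ (fun _ => rfl) fun _ => rfl)
      (by omega) (by omega)
  · exact .bool 51 (.map _ _ (fun _ => rfl) fun _ => rfl) (.map _ _ (fun _ => rfl) fun _ => rfl)
      (by omega) (by omega)
  · exact .bool 53 (.map _ _ (fun _ => rfl) fun _ => rfl) (.map _ _ (fun _ => rfl) fun _ => rfl)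
      (by omega) (by omega)
  · exact .map _ _ (fun _ => rfl) fun _ => rfl

/-- the order on the constraints -/
def RP (B : Base) (p q : Pos) : Prop := klt (key B p) (key B q)

/-- a sorted list of constraints in segment `b` -/
structure SegP (B : Base) (b : ℕ) (l : List Pos) : Prop where
  bd : ∀ x ∈ l, (key B x).1 = b
  pw : l.Pairwise (RP B)

theorem SegP.fm {b m : ℕ} {f : ℕ → List Pos} (h : ℕ → ℕ)
    (hh : ∀ i j, i < j → j < m → h i < h j)
    (h1 : ∀ i < m, ∀ x ∈ f i, (key B x).1 = b ∧ (key B x).2.1 = h i)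
    (h2 : ∀ i < m, (f i).Pairwise (RP B)) : SegP B b ((List.range m).flatMap f) where
  bd x hx := by
    obtain ⟨i, hi, hx⟩ := List.mem_flatMap.1 hx
    exact (h1 i (List.mem_range.1 hi) x hx).1
  pw := by
    refine range_flatMap _ _ _ h2 fun i j hij hj x hx z hz => ?_
    have h3 := h1 i (hij.trans hj) x hx
    have h4 := h1 j hj z hz
    unfold RP klt
    rw [h3.1, h4.1, h3.2, h4.2]
    exact Or.inr ⟨rfl, Or.inl (hh i j hij hj)⟩

theorem SegP.map {b m : ℕ} {f : ℕ → Pos} (h1 : ∀ i, (key B (f i)).1 = b)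
    (h2 : ∀ i, (key B (f i)).2.1 = i) : SegP B b ((List.range m).map f) where
  bd x hx := by
    obtain ⟨i, _, rfl⟩ := List.mem_map.1 hx
    exact h1 i
  pw := range_map _ _ _ fun i j hij _ => by
    unfold RP klt
    rw [h1, h1, h2, h2]
    exact Or.inr ⟨rfl, Or.inl hij⟩

theorem SegP.r (B : Base) (s : Bool) : SegP B (2 + s.toNat) (segR B s) := by
  refine SegP.fm (fun i => i) (fun i j hij _ => hij) (fun w _ x hx => ?_) (fun w _ => ?_)
  · rcases List.mem_append.1 hx with hx | hx
    · by_cases hw : w < B.n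
      · rw [if_pos hw] at hx
        exact absurd hx List.not_mem_nil
      · rw [if_neg hw] at hx
        simp only [List.mem_cons, List.not_mem_nil, or_false] at hx
        rcases hx with rfl | rfl <;> exact ⟨rfl, rfl⟩
    · obtain ⟨c, _, hx⟩ := List.mem_flatMap.1 hx
      simp only [List.mem_cons, List.not_mem_nil, or_false] at hx
      rcases hx with rfl | rfl | rfl | rfl <;> exact ⟨rfl, rfl⟩
  · rw [List.pairwise_append]
    refine ⟨?_, range_flatMap _ _ _ (fun c _ => ?_) (fun c c' hc _ x hx z hz => ?_),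
      fun x hx z hz => ?_⟩
    · by_cases hw : w < B.n
      · rw [if_pos hw]
        exact List.Pairwise.nil
      · rw [if_neg hw]
        simp [RP, klt, key]
    · simp [RP, klt, key]
    · simp only [List.mem_cons, List.not_mem_nil, or_false] at hx hz
      rcases hx with rfl | rfl | rfl | rfl <;> rcases hz with rfl | rfl | rfl | rfl <;>
        simp [RP, klt, key, hc]
    · by_cases hw : w < B.n
      · rw [if_pos hw] at hx
        exact absurd hx List.not_mem_nil
      · rw [if_neg hw] at hx
        obtain ⟨c, _, hz⟩ := List.mem_flatMap.1 hz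
        simp only [List.mem_cons, List.not_mem_nil, or_false] at hx hz
        rcases hx with rfl | rfl <;> rcases hz with rfl | rfl | rfl | rfl <;>
          simp [RP, klt, key]

theorem SegP.rails (B : Base) : SegP B 27 ((rails B).map Pos.Lp) where
  bd x hx := by
    obtain ⟨g, _, rfl⟩ := List.mem_map.1 hx
    rfl
  pw := by
    rw [List.pairwise_map]
    exact (seg_rails B).imp fun h => klt_of_lt3 h

theorem SegP.df (B : Base) : SegP B 16 ((chV B).map Pos.Df) where
  bd x hx := by
    obtain ⟨g, _, rfl⟩ := List.mem_map.1 hx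
    rfl
  pw := by
    rw [List.pairwise_map]
    exact (seg_chs B _ _).pw.imp fun h => klt_of_lt3 h

theorem mem_chV {a : Ch} : a ∈ chV B ↔ ChV B a := by
  cases a <;> simp [chV, chs, ChV]
  case r s g w k => cases s <;> cases g <;> simp
  case D t k => cases t <;> simp
  case Y t k => cases t <;> simp

theorem mem_chE {a : Ch} : a ∈ chE B ↔ ChE B a := by
  cases a <;> simp [chE, chs, ChE]
  case r s g w k => cases s <;> cases g <;> simp
  case D t k => cases t <;> simp
  case Y t k => cases t <;> simp

theorem mem_rails {g : Var} : g ∈ rails B ↔ Rail g ∧ Vld B g := by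
  cases g <;> simp [rails, Rail, Vld, mem_chV, mem_chE]
  case ck t g i => cases t <;> cases g <;> simp
  case F t i => cases t <;> simp
  case E t i => cases t <;> simp
  case p t i => cases t <;> simp
  case u t i => cases t <;> simp
  case al t i => cases t <;> simp
  case be t i => cases t <;> simp

end OrdAux

open OrdAux

theorem mem_posL {p : Pos} : p ∈ posL B ↔ PVld B p := by
  cases p <;> simp [posL, segs, segR, segD, PVld, mem_chV, mem_rails, List.mem_map]
  case HL s i => cases s <;> simp
  case HZ s i => cases s <;> simp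
  case N a =>
    cases a <;> simp [ChV]
    case r s g w k => cases s <;> cases g <;> simp
    case D t k => cases t <;> simp
    case Y s k => cases s <;> simp
  case O a =>
    cases a <;> simp [ChV]
    case r s g w k => cases s <;> cases g <;> simp
    case D t k => cases t <;> simp
    case Y s k => cases s <;> simp
  case H g =>
    cases g <;> simp [Own]
    case c a =>
      cases a with
      | r s g w k => cases k <;> cases s <;> cases g <;> simp [and_comm]
      | D t k => cases k <;> cases t <;> simp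
      | Y s k => cases k <;> simp
    case ck t g i => cases t <;> cases g <;> simp
    case F t i => cases t <;> simp
    case E t i => cases i <;> cases t <;> simp
    case p t i => cases t <;> simp
    case u t i => cases t <;> simp
    case al t i => cases t <;> simp
    case be t i => cases t <;> simp
  case P v =>
    cases v <;> simp [Pas, Vld]
    case mp j => exact digit _ _
    case L t j => cases t <;> simp [digit] <;> omega
    case rho j => exact digit _ _
    case UJ t k => cases t <;> simp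
    case UE t k => cases t <;> simp
    case UW t k => cases t <;> simp
    case La t b => cases t <;> cases b <;> simp
    case xi t g i => cases t <;> cases g <;> simp
  case hold j => exact digit _ _
  case M j => exact digit _ _
  case T1 t j => cases t <;> simp [digit]
  case T2 t j => cases t <;> simp [digit]
  case Lz t g i => cases t <;> cases g <;> simp
  case Ld t i => cases t <;> simp

theorem sorted_posL : (posL B).Pairwise fun p q => klt (key B p) (key B q) := by
  refine (flatten_sorted (fun p => (key B p).1) (RP B) (fun _ _ h => Or.inl h)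
    (bs := [(0, 1), (1, 2), (2, 3), (3, 4), (4, 5), (5, 6), (6, 7), (7, 8), (8, 9), (9, 10),
      (10, 11), (11, 12), (12, 13), (13, 14), (14, 15), (15, 16), (16, 17), (17, 18), (18, 19),
      (19, 20), (20, 21), (21, 22), (22, 23), (23, 24), (24, 25), (25, 26), (26, 27), (27, 28),
      (28, 29), (29, 30), (30, 31)])
    ?_ (by decide)).1
  have hk : ∀ {b : ℕ} {l : List Pos}, SegP B b l →
      (∀ x ∈ l, (b, b + 1).1 ≤ (key B x).1 ∧ (key B x).1 < (b, b + 1).2) ∧ l.Pairwise (RP B) :=
    fun h => ⟨fun x hx => by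
      rw [h.bd x hx]
      exact ⟨le_rfl, Nat.lt_succ_self _⟩, h.pw⟩
  refine List.Forall₂.cons (hk ?_) (List.Forall₂.cons (hk ?_) (List.Forall₂.cons (hk ?_)
    (List.Forall₂.cons (hk ?_) (List.Forall₂.cons (hk ?_) (List.Forall₂.cons (hk ?_)
    (List.Forall₂.cons (hk ?_) (List.Forall₂.cons (hk ?_) (List.Forall₂.cons (hk ?_)
    (List.Forall₂.cons (hk ?_) (List.Forall₂.cons (hk ?_) (List.Forall₂.cons (hk ?_)
    (List.Forall₂.cons (hk ?_) (List.Forall₂.cons (hk ?_) (List.Forall₂.cons (hk ?_)
    (List.Forall₂.cons (hk ?_) (List.Forall₂.cons (hk ?_) (List.Forall₂.cons (hk ?_)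
    (List.Forall₂.cons (hk ?_) (List.Forall₂.cons (hk ?_) (List.Forall₂.cons (hk ?_)
    (List.Forall₂.cons (hk ?_) (List.Forall₂.cons (hk ?_) (List.Forall₂.cons (hk ?_)
    (List.Forall₂.cons (hk ?_) (List.Forall₂.cons (hk ?_) (List.Forall₂.cons (hk ?_)
    (List.Forall₂.cons (hk ?_) (List.Forall₂.cons (hk ?_) (List.Forall₂.cons (hk ?_)
    (List.Forall₂.cons (hk ?_) List.Forall₂.nil))))))))))))))))))))))))))))))
  · exact .fm (fun i => i) (fun _ _ h _ => h) (fun i _ => by simp [key]) (fun i _ => by simp [RP, klt, key])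
  · exact .fm (fun i => i) (fun _ _ h _ => h) (fun i _ => by simp [key]) (fun i _ => by simp [RP, klt, key])
  · exact .r B false
  · exact .r B true
  · exact .fm (fun i => i) (fun _ _ h _ => h) (fun i _ => by simp [key]) (fun i _ => by simp [RP, klt, key])
  · exact .fm (fun i => i) (fun _ _ h _ => h) (fun i _ => by simp [key]) (fun i _ => by simp [RP, klt, key])
  · exact .fm (fun i => i + 1) (fun _ _ h _ => by omega) (fun i _ => by simp [key]) (fun i _ => by simp [RP, klt, key])
  · exact ⟨by simp [key], by simp [RP, klt, key]⟩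
  · exact .fm (fun i => i) (fun _ _ h _ => h) (fun i _ => by simp [key]) (fun i _ => by simp [RP, klt, key])
  · exact .fm (fun i => i) (fun _ _ h _ => h) (fun i _ => by simp [key]) (fun i _ => by simp [RP, klt, key])
  · exact .fm (fun i => i) (fun _ _ h _ => h) (fun i _ => by simp [key]) (fun i _ => by simp [RP, klt, key])
  · exact ⟨by simp [key], by simp [RP, klt, key]⟩
  · exact .fm (fun i => i) (fun _ _ h _ => h) (fun i _ => by simp [key]) (fun i _ => by simp [RP, klt, key])
  · exact .fm (fun i => i) (fun _ _ h _ => h) (fun i _ => by simp [key]) (fun i _ => by simp [RP, klt, key])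
  · exact .fm (fun i => i) (fun _ _ h _ => h) (fun i _ => by simp [key]) (fun i _ => by simp [RP, klt, key])
  · exact .map (fun _ => rfl) (fun _ => rfl)
  · exact .df B
  · exact .map (fun _ => rfl) (fun _ => rfl)
  · exact ⟨by simp [key], by simp [RP, klt, key]⟩
  · exact .fm (fun i => B.m - (B.m - 1 - i)) (fun i j h hj => by omega)
      (fun i hi => by
        have : B.m - 1 - i ≠ B.m := by omega
        simp [key, segD, this]) (fun i hi => by
        have : B.m - 1 - i ≠ B.m := by omega
        simp [RP, klt, key, segD, this])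
  · exact ⟨by simp [key], by simp [RP, klt, key]⟩
  · exact .fm (fun i => i) (fun _ _ h _ => h) (fun i _ => by simp [key]) (fun i _ => by simp [RP, klt, key])
  · exact ⟨by simp [key], by simp [RP, klt, key]⟩
  · exact .fm (fun i => i) (fun _ _ h _ => h) (fun i _ => by simp [key]) (fun i _ => by simp [RP, klt, key])
  · exact ⟨by simp [key], by simp [RP, klt, key]⟩
  · exact .fm (fun i => i) (fun _ _ h _ => h) (fun i _ => by simp [key]) (fun i _ => by simp [RP, klt, key])
  · exact .map (fun _ => rfl) (fun _ => rfl)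
  · exact .rails B
  · exact .fm (fun i => i) (fun _ _ h _ => h) (fun i _ => by simp [key]) (fun i _ => by simp [RP, klt, key])
  · exact .fm (fun i => i) (fun _ _ h _ => h) (fun i _ => by simp [key]) (fun i _ => by simp [RP, klt, key])
  · exact .fm (fun i => i) (fun _ _ h _ => h) (fun i _ => by simp [key]) (fun i _ => by simp [RP, klt, key])

theorem nodup_posL : (posL B).Nodup := by
  refine (sorted_posL (B := B)).imp ?_
  intro a b h e
  subst e
  unfold klt at h
  omega

end Pool.Agent.MPa0a715.BT
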