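import Pool.Agent.Lib.MP_a0a715_lc_BT.Flg

/-!
# Rails which are pushed down have the right values
-/

namespace Pool.Agent.MPa0a715.BT

open Pool.Agent.MPa0a715
open Pool.Agent.MPa0a715.BI (Base)

variable {B : Base} {X : Var → Bool}

namespace ExaAux

theorem length_sl (s : Bool) : (sl B X s).length = B.n := by simp [sl]

theorem env_input {s : Bool} {i : ℕ} (hi : i < B.n) : B.env (sl B X s) i = X (.V s i) := by
  unfold Base.env
  rw [Circuit.env_input _ (by rw [length_sl]; exact hi), sl,
    List.getD_eq_getElem _ _ (by simpa using hi), List.getElem_map, List.getElem_range]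

theorem env_gate (hB : B.Ok) {s : Bool} {k : ℕ} (hk : k < B.G.length) :
    B.env (sl B X s) (B.n + k) = (B.G[k]).evalW (B.env (sl B X s)) :=
  Circuit.env_gate (C := ⟨B.n, B.G, []⟩) ⟨hB.gates, fun _ ho => absurd ho List.not_mem_nil⟩
    (length_sl s) hk

/-- a place that is pushed down: all its variables have the same value -/
theorem place_down (hB : B.Ok) (hX : Mn B X) {a : Ch} (ha : ChV B a) (hd : dir B X a = false) :
    X (.d a) = X (.c a) ∧ X (.x a) = X (.c a) ∧ X (.c (nxt a)) = X (.c a) := by
  have h1 : X (.d a) = X (.c a) := by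
    rw [rail_down hB hX (g := .d a) trivial ha (by rw [dir_d hB hX ha, hd])]
    simp only [frc]
    rw [no_flag hB hX ha]
    simp
  refine ⟨h1, ?_, ?_⟩
  · rw [rail_down hB hX (g := .x a) trivial ha (by rw [dir_x hB hX ha, hd])]
    exact h1
  · have he : ChE B (nxt a) := by
      rcases a with ⟨s, g, w, k⟩ | ⟨t, k⟩ | ⟨s, k⟩
      · exact ⟨ha.1, ha.2⟩
      · exact Nat.succ_le_succ ha
      · exact ha
    have hd' : dir B X (nxt a) = false := by
      rw [← hd]
      cases a <;> rfl
    rw [rail_down hB hX (g := .c (nxt a)) trivial he (by rw [dir_c hB hX he, hd'])]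
    rw [← h1]
    cases a <;> rfl

end ExaAux

open ExaAux

theorem slot_exact (hB : B.Ok) (hX : Mn B X) {s : Bool} (he : X (.e s) = true) {w k : ℕ}
    (hw : w < B.N) (hk : k < K B) (g : Bool) :
    X (.x (.r s g w k)) = (B.env (sl B X s) w == g) := by
  have hdir : ∀ g w k, dir B X (.r s g w k) = false := by
    intro g w k
    simp [dir, he, no_ph hB hX]
  induction w using Nat.strong_induction_on generalizing k g with
  | _ w ih =>
    have h0 : ∀ g, X (.c (.r s g w 0)) = (B.env (sl B X s) w == g) := by
      intro g
      have hv : ChE B (.r s g w 0) := ⟨hw, Nat.zero_le _⟩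
      rw [rail_down hB hX (g := .c (.r s g w 0)) trivial hv (by rw [dir_c hB hX hv, hdir])]
      by_cases hwn : w < B.n
      · simp only [frc, if_pos hwn]
        rw [env_input hwn]
      · simp only [frc, if_neg hwn]
        obtain ⟨k, rfl⟩ : ∃ k, w = B.n + k := ⟨w - B.n, by omega⟩
        have hk : k < B.G.length := by unfold Base.N at hw; omega
        rw [Nat.add_sub_cancel_left, List.getElem?_eq_getElem hk, env_gate hB hk]
        have hr := hB.gates k hk
        have hc2 : 2 * (B.n + k) + 2 < K B := by
          rw [NumAux.K_eq]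
          omega
        generalize B.G[k] = G at hr
        cases G with
        | and i j =>
          have hi := hr i (by simp [Gate.refs])
          have hj := hr j (by simp [Gate.refs])
          simp only [Gate.evalW]
          rw [ih i hi (by omega) (k := 2 * (B.n + k) + 1) (by omega) g,
            ih j hj (by omega) (k := 2 * (B.n + k) + 2) (by omega) g]
          cases g <;> cases B.env (sl B X s) i <;> cases B.env (sl B X s) j <;> rfl
        | or i j =>
          have hi := hr i (by simp [Gate.refs])
          have hj := hr j (by simp [Gate.refs])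
          simp only [Gate.evalW]
          rw [ih i hi (by omega) (k := 2 * (B.n + k) + 1) (by omega) g,
            ih j hj (by omega) (k := 2 * (B.n + k) + 2) (by omega) g]
          cases g <;> cases B.env (sl B X s) i <;> cases B.env (sl B X s) j <;> rfl
        | not i =>
          have hi := hr i (by simp [Gate.refs])
          simp only [Gate.evalW]
          rw [ih i hi (by omega) (k := 2 * (B.n + k) + 1) (by omega) (!g)]
          cases g <;> cases B.env (sl B X s) i <;> rfl
    have hc : ∀ k ≤ K B, X (.c (.r s g w k)) = (B.env (sl B X s) w == g) := by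
      intro k
      induction k with
      | zero => exact fun _ => h0 g
      | succ k ihk =>
        intro hk
        rw [← ihk (by omega)]
        exact (place_down hB hX (a := .r s g w k) ⟨hw, hk⟩ (hdir _ _ _)).2.2
    rw [(place_down hB hX (a := .r s g w k) ⟨hw, hk⟩ (hdir _ _ _)).2.1]
    exact hc k hk.le

namespace ExaAux

theorem ck_exact (hB : B.Ok) (hX : Mn B X) {s : Bool} (he : X (.e s) = true) (hy : X .y = s)
    {i : ℕ} (hi : i < B.n) (g : Bool) : X (.ck (!s) g i) =
      ((X (.V (!s) i) == g) && (B.env (sl B X s) (B.nx.getD i 0) == !g)) := by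
  have hd : X (upv B (.ck (!s) g i)) = false := by
    rw [UpAux.dir_D (g := .ck (!s) g i) hB hX trivial hi rfl, hy, no_ph hB hX]
    cases s <;> rfl
  rw [rail_down hB hX (g := .ck (!s) g i) trivial hi hd]
  simp only [frc]
  have hnx := hB.nx i hi
  have hk1 : kck B i < K B := by
    rw [NumAux.K_eq]
    unfold kck
    omega
  have hk2 : kxi B i < K B := by
    rw [NumAux.K_eq]
    unfold kxi
    omega
  rw [Bool.not_not, slot_exact hB hX he hnx hk1]
  by_cases h1 : B.env (sl B X s) (B.nx.getD i 0) = !g
  · have h2 : X (.x (.r (!(!s)) g (B.nx.getD i 0) (kxi B i))) = false := by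
      rw [Bool.not_not, slot_exact hB hX he hnx hk2, h1]
      cases g <;> rfl
    by_cases h3 : X (.V (!s) i) = g
    · rw [z_ge hB hX hi h3, h3]
      simp
    · have h4 : X (.V (!s) i) = !g := by
        revert h3
        cases X (.V (!s) i) <;> cases g <;> simp
      rw [z_down hB hX hi h4 h2, h4]
      cases g <;> rfl
  · have h2 : B.env (sl B X s) (B.nx.getD i 0) = g := by
      revert h1
      cases B.env (sl B X s) (B.nx.getD i 0) <;> cases g <;> simp
    rw [h2]
    cases g <;> simp

end ExaAux

theorem D_exact (hB : B.Ok) (hX : Mn B X) {s : Bool} (he : X (.e s) = true) (hy : X .y = s)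
    {k : ℕ} (hk : k ≤ B.m) : X (.x (.D (!s) k)) = true ↔
      ∃ i < B.n, X (.V (!s) i) ≠ B.env (sl B X s) (B.nx.getD i 0) := by
  have hdn : ((X .y == !s) || X (.ph (Z B))) = false := by
    rw [hy, no_ph hB hX]
    cases s <;> rfl
  have hF : ∀ i < B.n, X (.F (!s) i) = true ↔
      X (.V (!s) i) ≠ B.env (sl B X s) (B.nx.getD i 0) := by
    intro i hi
    rw [rail_down hB hX (g := .F (!s) i) trivial hi
      ((UpAux.dir_D (g := .F (!s) i) hB hX trivial hi rfl).trans hdn)]
    simp only [frc]
    rw [ck_exact hB hX he hy hi, ck_exact hB hX he hy hi]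
    cases X (.V (!s) i) <;> cases B.env (sl B X s) (B.nx.getD i 0) <;> simp
  have hE : ∀ j ≤ B.n, X (.E (!s) j) = true ↔
      ∃ i < j, X (.V (!s) i) ≠ B.env (sl B X s) (B.nx.getD i 0) := by
    intro j
    induction j with
    | zero =>
      intro hj
      rw [rail_down hB hX (g := .E (!s) 0) trivial hj
        ((UpAux.dir_D (g := .E (!s) 0) hB hX trivial hj rfl).trans hdn)]
      simp [frc]
    | succ j ih =>
      intro hj
      rw [rail_down hB hX (g := .E (!s) (j + 1)) trivial hj
        ((UpAux.dir_D (g := .E (!s) (j + 1)) hB hX trivial hj rfl).trans hdn)]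
      simp only [frc, Bool.or_eq_true]
      rw [ih (by omega), hF j (by omega)]
      constructor
      · rintro (⟨i, hi, h⟩ | h)
        · exact ⟨i, by omega, h⟩
        · exact ⟨j, by omega, h⟩
      · rintro ⟨i, hi, h⟩
        rcases Nat.lt_succ_iff_lt_or_eq.1 hi with h1 | h1
        · exact Or.inl ⟨i, h1, h⟩
        · rw [h1] at h
          exact Or.inr h
  have hD : ∀ k ≤ B.m + 1, X (.c (.D (!s) k)) = X (.E (!s) B.n) := by
    intro k
    induction k with
    | zero =>
      intro hk
      rw [rail_down hB hX (g := .c (.D (!s) 0)) trivial hk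
        ((dir_c (a := .D (!s) 0) hB hX hk).trans hdn)]
      rfl
    | succ k ih =>
      intro hk
      rw [← ih (by omega)]
      exact (place_down hB hX (a := .D (!s) k) (Nat.le_of_succ_le_succ hk) hdn).2.2
  rw [(place_down hB hX (a := .D (!s) k) hk hdn).2.1, hD k (by omega), hE B.n le_rfl]

theorem Y_exact (hB : B.Ok) (hX : Mn B X) {s : Bool}
    (hd : (X (.L s 0) && !X (.L (!s) 0)) = false) {k : ℕ} (hk : k < 2 * B.m) :
    X (.x (.Y s k)) = (X .y == s) := by
  have hdn : ((X (.L s 0) && !X (.L (!s) 0)) || X (.ph (Z B))) = false := by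
    rw [hd, no_ph hB hX]
    rfl
  have hc : ∀ k ≤ 2 * B.m, X (.c (.Y s k)) = (X .y == s) := by
    intro k
    induction k with
    | zero =>
      intro hk
      rw [rail_down hB hX (g := .c (.Y s 0)) trivial hk
        ((dir_c (a := .Y s 0) hB hX hk).trans hdn)]
      rfl
    | succ k ih =>
      intro hk
      rw [← ih (by omega)]
      exact (place_down hB hX (a := .Y s k) hk hdn).2.2
  rw [(place_down hB hX (a := .Y s k) hk hdn).2.1]
  exact hc k hk.le

end Pool.Agent.MPa0a715.BT
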