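import Pool.Agent.Lib.MP_a0a715_lc_BT.Slu

/-!
# No flag is up
-/

namespace Pool.Agent.MPa0a715.BT

open Pool.Agent.MPa0a715
open Pool.Agent.MPa0a715.BI (Base)

variable {B : Base} {X : Var → Bool}

open SluAux in
theorem no_ph (hB : B.Ok) (hX : Mn B X) : X (.ph (Z B)) = false := by
  by_contra hcon
  rw [Bool.not_eq_false] at hcon
  have hdir : ∀ a, dir B X a = true := by
    intro a
    cases a <;> simp [dir, hcon]
  have hm : ∀ j < B.m, X (.m j) = true := fun j hj => by rw [m_eq hB hX hj, hcon, Bool.or_true]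
  have hq : ∀ j < B.m, X (.q j) = true := fun j hj =>
    up_q hB hX hj (Or.inl (hdir _)) (hm j hj)
  have hal : ∀ s, ∀ j < B.m, X (.al s j) = true := fun s j hj =>
    up_al hB hX hj (hdir _) (hq j hj)
  have hbe : ∀ s, ∀ j < B.m, X (.be s j) = true := fun s j hj =>
    up_be hB hX hj (hdir _) (hm j hj)
  have hslot : ∀ t, (∀ k ≤ B.m, X (.d (.D (!t) k)) = true) ∧
      ∀ g, ∀ w < B.N, ∀ k < K B, X (.d (.r t g w k)) = true ∧ X (.c (.r t g w k)) = true :=
    fun t => slot_up hB hX (hdir _) (hdir _) (fun j hj => Or.inr (hal t j hj))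
      fun j hj => Or.inr (hbe t j hj)
  have hY' : ∀ s, ∀ k < 2 * B.m, X (.c (.Y s (k + 1))) = true →
      X (.d (.Y s k)) = true ∧ X (.c (.Y s k)) = true := by
    intro s k hk ih
    refine chain_step hB hX (a := .Y s k) hk (hdir _) ih ?_ hk.le
    rcases Nat.even_or_odd' k with ⟨j, rfl | rfl⟩
    · exact up_xY0 hB hX (by omega) (hdir _) (Or.inr (hal s j (by omega)))
    · exact up_xY1 hB hX (by omega) (hdir _) (Or.inr (hbe s j (by omega)))
  have hYc : ∀ s, ∀ k ≤ 2 * B.m, X (.c (.Y s k)) = true := by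
    intro s
    refine desc ?_ ?_
    · exact up_c hB hX (a := .Y s (2 * B.m)) (le_refl (2 * B.m)) (hdir _) fun h =>
        absurd h (lt_irrefl _)
    · intro k hk ih
      exact (hY' s k hk ih).2
  obtain ⟨a, ha, hf⟩ := flag_of_ph hB hX hcon
  have hd : X (.d a) = true := by
    rcases a with ⟨s, g, w, k⟩ | ⟨t, k⟩ | ⟨s, k⟩
    · exact ((hslot s).2 g w ha.1 k ha.2).1
    · have := (hslot (!t)).1 k ha
      rwa [Bool.not_not] at this
    · exact (hY' s k ha (hYc s (k + 1) ha)).1
  rw [(f_up hB hX ha hf).2] at hd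
  exact absurd hd (by simp)

theorem no_flag (hB : B.Ok) (hX : Mn B X) {a : Ch} (ha : ChV B a) : X (.f a) = false := by
  by_contra hcon
  rw [Bool.not_eq_false] at hcon
  have h := ph_of_flag hB hX ha hcon
  rw [no_ph hB hX] at h
  exact absurd h (by simp)

end Pool.Agent.MPa0a715.BT
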