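import Pool.Agent.Lib.MP_a0a715_lc_BT.Exa

/-!
# Local minima of the system: the solution in the active slot is a local minimum
-/

namespace Pool.Agent.MPa0a715.BT

open Pool.Agent.MPa0a715
open Pool.Agent.MPa0a715.BI (Base)

variable {B : Base} {X : Var → Bool}

namespace LogAux

theorem e_active (hB : B.Ok) (hX : Mn B X) {s : Bool} (hy : X .y = s) : X (.e s) = true := by
  rw [e_eq hB hX, hy]
  simp

theorem L_zero (hB : B.Ok) (hX : Mn B X) {t : Bool} (h : X (.L t 0) = false) :
    ∀ j ≤ B.m, X (.L t j) = false := by
  intro j
  induction j with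
  | zero => exact fun _ => h
  | succ j ih =>
    intro hj
    have h1 := ih (by omega)
    rw [L_eq hB hX (by omega)] at h1
    simp only [Bool.or_eq_false_iff] at h1
    exact h1.1

theorem tau_zero (hB : B.Ok) (hX : Mn B X) {t : Bool} (h : X (.L t 0) = false) {j : ℕ}
    (hj : j < B.m) : X (.tau t j) = false := by
  have h1 := L_zero hB hX h j (by omega)
  rw [L_eq hB hX hj] at h1
  simp only [Bool.or_eq_false_iff] at h1
  exact h1.2

theorem exists_tau (hB : B.Ok) (hX : Mn B X) {t : Bool} (h : X (.L t 0) = true) :
    ∃ j < B.m, X (.tau t j) = true := by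
  by_contra hcon
  push Not at hcon
  have key : ∀ d ≤ B.m, X (.L t (B.m - d)) = false := by
    intro d
    induction d with
    | zero => exact fun _ => L_top hB hX
    | succ d ih =>
      intro hd
      rw [L_eq hB hX (by omega), show B.m - (d + 1) + 1 = B.m - d by omega, ih (by omega)]
      have := hcon (B.m - (d + 1)) (by omega)
      simpa using this
  have := key B.m le_rfl
  rw [Nat.sub_self, h] at this
  exact absurd this (by simp)

theorem L_of_tau (hB : B.Ok) (hX : Mn B X) {t : Bool} {j : ℕ} (hj : j < B.m)
    (h : X (.tau t j) = true) : ∀ k ≤ j, X (.L t k) = true := by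
  have key : ∀ d ≤ j, X (.L t (j - d)) = true := by
    intro d
    induction d with
    | zero =>
      intro _
      rw [Nat.sub_zero, L_eq hB hX hj, h]
      simp
    | succ d ih =>
      intro hd
      rw [L_eq hB hX (by omega), show j - (d + 1) + 1 = j - d by omega, ih (by omega)]
      simp
  intro k hk
  have := key (j - k) (by omega)
  rwa [show j - (j - k) = k by omega] at this

theorem m_val (hB : B.Ok) (hX : Mn B X) {j : ℕ} (hj : j < B.m) :
    X (.m j) = (X (.q j) || X (.rho j)) := by
  rw [m_eq hB hX hj, no_ph hB hX, Bool.or_false]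

/-! ### rails which are pushed down -/

theorem p_down (hB : B.Ok) (hX : Mn B X) {s : Bool} {j : ℕ} (hj : j < B.m)
    (he : X (.e s) = true) : X (.p s j) = frc B X (.p s j) := by
  refine rail_down hB hX trivial hj ?_
  rw [UpAux.dir_r (g := .p s j) hB hX trivial hj rfl, he, no_ph hB hX]
  rfl

theorem u_down (hB : B.Ok) (hX : Mn B X) {s : Bool} {j : ℕ} (hj : j < B.m)
    (he : X (.e s) = true) : X (.u s j) = frc B X (.u s j) := by
  refine rail_down hB hX trivial hj ?_
  rw [UpAux.dir_r (g := .u s j) hB hX trivial hj rfl, he, no_ph hB hX]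
  rfl

theorem al_down (hB : B.Ok) (hX : Mn B X) {s : Bool} {j : ℕ} (hj : j < B.m)
    (hd : (X (.L s 0) && !X (.L (!s) 0)) = false) : X (.al s j) = frc B X (.al s j) := by
  refine rail_down hB hX trivial hj ?_
  rw [UpAux.dir_Y (g := .al s j) hB hX trivial hj rfl, hd, no_ph hB hX]
  rfl

theorem be_down (hB : B.Ok) (hX : Mn B X) {s : Bool} {j : ℕ} (hj : j < B.m)
    (hd : (X (.L s 0) && !X (.L (!s) 0)) = false) : X (.be s j) = frc B X (.be s j) := by
  refine rail_down hB hX trivial hj ?_
  rw [UpAux.dir_Y (g := .be s j) hB hX trivial hj rfl, hd, no_ph hB hX]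
  rfl

theorem q_down (hB : B.Ok) (hX : Mn B X) {j : ℕ} (hj : j < B.m)
    (h0 : X (.L false 0) = false) (h1 : X (.L true 0) = false) :
    X (.q j) = frc B X (.q j) := by
  refine rail_down hB hX trivial hj ?_
  change X (.UQ (pos B (.q j))) = false
  rw [UQ_eq hB hX (UpAux.pos_lt (g := .q j) trivial hj), h0, h1, no_ph hB hX]
  rfl

/-- the active slot is not the target -/
theorem no_own (hB : B.Ok) (hX : Mn B X) {s : Bool} (hy : X .y = s) : X (.L s 0) = false := by
  by_contra hcon
  rw [Bool.not_eq_false] at hcon
  obtain ⟨j, hj, h1⟩ := exists_tau hB hX hcon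
  rw [tau_eq hB hX hj, Bool.and_eq_true] at h1
  have hd : (X (.L (!s) 0) && !X (.L (!(!s)) 0)) = false := by
    rw [Bool.not_not, hcon]
    simp
  have h2 := be_down hB hX hj hd
  have h3 : X (.x (.Y (!s) (2 * j + 1))) = false := by
    rw [Y_exact hB hX hd (by omega), hy]
    cases s <;> rfl
  rw [h1.1] at h2
  simp only [frc, h3, Bool.false_and] at h2
  exact absurd h2 (by simp)

/-! ### the digits and the position of the improved digit are read off correctly -/

theorem co_exact (hB : B.Ok) (hX : Mn B X) {s : Bool} (he : X (.e s) = true) {j : ℕ}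
    (hj : j < B.m) : X (.x (.r s true (B.co.getD j 0) (ku B j))) =
      B.env (sl B X s) (B.co.getD j 0) := by
  rw [slot_exact hB hX he (hB.co j hj) (by rw [NumAux.K_eq]; unfold ku; omega) true]
  simp

theorem im_exact (hB : B.Ok) (hX : Mn B X) {s : Bool} (he : X (.e s) = true) {j : ℕ}
    (hj : j < B.m) : X (.x (.r s true (B.im.getD j 0) (kbe B j))) =
      B.env (sl B X s) (B.im.getD j 0) := by
  rw [slot_exact hB hX he (hB.im j hj) (by rw [NumAux.K_eq]; unfold kbe; omega) true]
  simp

theorem im_exact' (hB : B.Ok) (hX : Mn B X) {s : Bool} (he : X (.e s) = true) {j : ℕ}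
    (hj : j < B.m) : X (.x (.r s false (B.im.getD j 0) (kp B j))) =
      !B.env (sl B X s) (B.im.getD j 0) := by
  rw [slot_exact hB hX he (hB.im j hj) (by rw [NumAux.K_eq]; unfold kp; omega) false]
  simp

/-- the slot which is not active is not the target either -/
theorem no_other (hB : B.Ok) (hS : B.Sem) (hX : Mn B X) {s : Bool} (hy : X .y = s) :
    X (.L (!s) 0) = false := by
  by_contra hcon
  rw [Bool.not_eq_false] at hcon
  have hL : X (.L s 0) = false := no_own hB hX hy
  have he : X (.e s) = true := e_active hB hX hy
  obtain ⟨j, hj, h1⟩ := exists_tau hB hX hcon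
  have hτ := h1
  rw [tau_eq hB hX hj, Bool.and_eq_true, Bool.not_not, Bool.not_eq_true'] at h1
  obtain ⟨hbe, hm⟩ := h1
  have hq : X (.q j) = false ∧ X (.rho j) = false := by
    have := hm
    rw [m_val hB hX hj] at this
    simpa using this
  -- rails for slot `s`
  have hd : (X (.L s 0) && !X (.L (!s) 0)) = false := by rw [hL]; rfl
  have hYt : ∀ k < 2 * B.m, X (.x (.Y s k)) = true := by
    intro k hk
    rw [Y_exact hB hX hd hk, hy]
    simp
  have hbe' := be_down hB hX hj hd
  have him : B.env (sl B X s) (B.im.getD j 0) = true := by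
    rw [hbe] at hbe'
    simp only [frc] at hbe'
    have := hbe'.symm
    rw [Bool.and_eq_true] at this
    rw [← im_exact hB hX he hj]
    exact this.2
  obtain ⟨s1, s2, s3, s4⟩ := hS _ (ExaAux.length_sl s) j hj him
  -- if a register digit is zero then so is the rail `u`
  have hu : ∀ k < B.m, X (.m k) = false → X (.u s k) = false := by
    intro k hk hmk
    have h2 : X (.q k) = false := by
      rw [m_val hB hX hk] at hmk
      simp only [Bool.or_eq_false_iff] at hmk
      exact hmk.1
    by_contra h3
    rw [Bool.not_eq_false] at h3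
    have h4 : X (.al s k) = true := by
      refine rail_up hB hX trivial hk ?_
      simp only [frc, hYt (2 * k) (by omega), h3, Bool.and_self]
    have h5 : X (.q k) = true := by
      refine rail_up hB hX trivial hk ?_
      simp only [frc]
      cases s <;> simp [h4]
    rw [h2] at h5
    exact absurd h5 (by simp)
  have hp : X (.p s j) = false := by
    by_contra h3
    rw [Bool.not_eq_false] at h3
    have h4 : X (.u s j) = true := by
      refine rail_up hB hX trivial hj ?_
      simp only [frc, co_exact hB hX he hj, s1, h3, Bool.and_self]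
    rw [hu j hj hm] at h4
    exact absurd h4 (by simp)
  have hD : X (.x (.D (!s) (j + 1))) = false := by
    by_contra h3
    rw [Bool.not_eq_false] at h3
    have h4 : X (.p s j) = true := by
      refine rail_up hB hX trivial hj ?_
      simp only [frc, h3, Bool.or_true]
    rw [hp] at h4
    exact absurd h4 (by simp)
  have heq : ∀ i < B.n, X (.V (!s) i) = B.env (sl B X s) (B.nx.getD i 0) := by
    intro i hi
    by_contra h3
    have h4 := (D_exact hB hX he hy (k := j + 1) (by omega)).2 ⟨i, hi, h3⟩
    rw [hD] at h4
    exact absurd h4 (by simp)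
  have hsl : sl B X (!s) = B.next (sl B X s) := by
    unfold Base.next
    rw [sl]
    refine List.map_congr_left fun i hi => ?_
    exact heq i (List.mem_range.1 hi)
  have hD0 : X (.x (.D (!s) 0)) = false := by
    by_contra h3
    rw [Bool.not_eq_false] at h3
    obtain ⟨i, hi, h4⟩ := (D_exact hB hX he hy (k := 0) (by omega)).1 h3
    exact h4 (heq i hi)
  have het : X (.e (!s)) = true := by
    rw [e_eq hB hX, hD0]
    rfl
  -- digits of the other slot
  have hco : ∀ k < B.m, X (.m k) = false → B.env (sl B X (!s)) (B.co.getD k 0) = false := by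
    intro k hk hmk
    rw [hsl]
    rcases Nat.lt_trichotomy k j with h3 | h3 | h3
    · exfalso
      have h4 : X (.rho k) = true := by
        rw [rho_eq hB hX hk]
        have := L_of_tau hB hX hj hτ (k + 1) (by omega)
        cases s
        · simp only [Bool.not_false] at this
          rw [this, Bool.or_true]
        · simp only [Bool.not_true] at this
          rw [this, Bool.true_or]
      rw [m_val hB hX hk, h4, Bool.or_true] at hmk
      exact absurd hmk (by simp)
    · rw [h3]
      exact s2
    · rw [s3 k hk h3]
      have h4 := hu k hk hmk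
      by_contra h5
      rw [Bool.not_eq_false] at h5
      have h6 : X (.p s k) = true := by
        refine rail_up hB hX trivial hk ?_
        simp only [frc, im_exact' hB hX he hk, s4 k hk (by omega), Bool.not_false, Bool.true_or]
      have h7 : X (.u s k) = true := by
        refine rail_up hB hX trivial hk ?_
        simp only [frc, co_exact hB hX he hk, h5, h6, Bool.and_self]
      rw [h4] at h7
      exact absurd h7 (by simp)
  have hut : ∀ k < B.m, X (.m k) = false → X (.u (!s) k) = false := by
    intro k hk hmk
    rw [u_down hB hX hk het]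
    simp only [frc, co_exact hB hX het hk, hco k hk hmk, Bool.false_and]
  have himt : ∀ k < B.m, X (.m k) = false → B.env (sl B X (!s)) (B.im.getD k 0) = false := by
    intro k hk hmk
    by_contra h3
    rw [Bool.not_eq_false] at h3
    have h4 := (hS _ (ExaAux.length_sl (!s)) k hk h3).1
    rw [hco k hk hmk] at h4
    exact absurd h4 (by simp)
  have hdt : ∀ k, dir B X (.Y (!s) k) = true := by
    intro k
    simp only [dir, Bool.not_not]
    rw [hcon, hL]
    rfl
  have hqup : ∀ k < B.m, X (.m k) = true → X (.q k) = true := by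
    intro k hk hmk
    refine up_q hB hX hk ?_ hmk
    cases s
    · exact Or.inr (hdt 0)
    · exact Or.inl (hdt 0)
  have hYup : ∀ k ≤ 2 * B.m, X (.c (.Y (!s) k)) = true := by
    refine SluAux.desc ?_ ?_
    · exact up_c hB hX (a := .Y (!s) (2 * B.m)) (le_refl (2 * B.m)) (hdt _) fun h =>
        absurd h (lt_irrefl _)
    · intro k hk ih
      refine (SluAux.chain_step hB hX (a := .Y (!s) k) hk (hdt _) ih ?_ hk.le).2
      rcases Nat.even_or_odd' k with ⟨i, rfl | rfl⟩
      · have hi : i < B.m := by omega
        refine up_xY0 hB hX hi (hdt _) ?_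
        cases hmk : X (.m i) with
        | false => exact Or.inl (hut i hi hmk)
        | true => exact Or.inr (up_al hB hX hi (hdt 0) (hqup i hi hmk))
      · have hi : i < B.m := by omega
        refine up_xY1 hB hX hi (hdt _) ?_
        cases hmk : X (.m i) with
        | false =>
          left
          rw [im_exact hB hX het hi]
          exact himt i hi hmk
        | true => exact Or.inr (up_be hB hX hi (hdt 0) hmk)
  have h3 := hYup 0 (Nat.zero_le _)
  have h4 := y_flip hB hX (by rw [hy]; exact hcon) (by rw [hy]; exact hL)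
  rw [hy, h3] at h4
  exact absurd h4 (by simp)

end LogAux

open LogAux in
/-- in a local minimum of the system no digit of the active solution is improved -/
theorem static (hB : B.Ok) (hS : B.Sem) (hX : Mn B X) :
    ∀ j < B.m, B.env (sl B X (X .y)) (B.im.getD j 0) = false := by
  obtain ⟨s, hy⟩ : ∃ s, X .y = s := ⟨_, rfl⟩
  rw [hy]
  intro j hj
  by_contra him
  rw [Bool.not_eq_false] at him
  have hL : X (.L s 0) = false := no_own hB hX hy
  have hLt : X (.L (!s) 0) = false := no_other hB hS hX hy
  have he : X (.e s) = true := e_active hB hX hy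
  have hL0 : X (.L false 0) = false := by cases s; exacts [hL, hLt]
  have hL1 : X (.L true 0) = false := by cases s; exacts [hLt, hL]
  have hds : (X (.L s 0) && !X (.L (!s) 0)) = false := by rw [hL]; rfl
  have hdt : (X (.L (!s) 0) && !X (.L (!(!s)) 0)) = false := by rw [hLt]; rfl
  have hYt : ∀ k < 2 * B.m, X (.x (.Y (!s) k)) = false := by
    intro k hk
    rw [Y_exact hB hX hdt hk, hy]
    cases s <;> rfl
  have hbe : X (.be s j) = true := by
    refine rail_up hB hX trivial hj ?_
    simp only [frc, im_exact hB hX he hj, him, Bool.and_true]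
    rw [Y_exact hB hX hds (by omega), hy]
    simp
  have hm : X (.m j) = true := by
    have h1 := tau_zero hB hX hLt hj
    rw [tau_eq hB hX hj, Bool.not_not, hbe, Bool.true_and] at h1
    simpa using h1
  have hrho : X (.rho j) = false := by
    rw [rho_eq hB hX hj, L_zero hB hX hL0 (j + 1) (by omega),
      L_zero hB hX hL1 (j + 1) (by omega)]
    rfl
  have hq : X (.q j) = true := by
    rw [m_val hB hX hj, hrho, Bool.or_false] at hm
    exact hm
  have hq' := q_down hB hX hj hL0 hL1
  have halt : X (.al (!s) j) = false := by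
    rw [al_down hB hX hj hdt]
    simp only [frc]
    rw [hYt (2 * j) (by omega)]
    rfl
  have hal : X (.al s j) = true := by
    rw [hq] at hq'
    simp only [frc] at hq'
    cases s
    · simp only [Bool.not_false] at halt
      rw [halt, Bool.or_false] at hq'
      exact hq'.symm
    · simp only [Bool.not_true] at halt
      rw [halt, Bool.false_or] at hq'
      exact hq'.symm
  have hu : X (.u s j) = true := by
    have h1 := al_down hB hX hj hds
    rw [hal] at h1
    simp only [frc] at h1
    have := h1.symm
    rw [Bool.and_eq_true] at this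
    exact this.2
  have hp : X (.p s j) = true := by
    have h1 := u_down hB hX hj he
    rw [hu] at h1
    simp only [frc] at h1
    have := h1.symm
    rw [Bool.and_eq_true] at this
    exact this.2
  have hD : X (.x (.D (!s) (j + 1))) = true := by
    have h1 := p_down hB hX hj he
    rw [hp] at h1
    simp only [frc, im_exact' hB hX he hj, him, Bool.not_true, Bool.false_or] at h1
    exact h1.symm
  obtain ⟨i, hi, hne⟩ := (D_exact hB hX he hy (k := j + 1) (by omega)).1 hD
  have hD0 : X (.x (.D (!s) 0)) = true :=
    (D_exact hB hX he hy (k := 0) (by omega)).2 ⟨i, hi, hne⟩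
  have het : X (.e (!s)) = false := by
    rw [e_eq hB hX, hD0, hy, no_ph hB hX]
    cases s <;> rfl
  have hslot := slot_up hB hX (t := !s) (by simp [dir, het]) (by
      simp only [dir, Bool.not_not, hy]
      simp) (fun k hk => Or.inl (hYt _ (by omega))) (fun k hk => Or.inl (hYt _ (by omega)))
  obtain ⟨v, hv⟩ : ∃ v, X (.V (!s) i) = v := ⟨_, rfl⟩
  obtain ⟨z, hz⟩ : ∃ z, B.env (sl B X s) (B.nx.getD i 0) = z := ⟨_, rfl⟩
  rw [hv, hz] at hne
  have hz' : z = !v := by
    revert hne
    cases v <;> cases z <;> simp
  have hnN : i < B.N := by unfold Base.N; omega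
  have hK : 0 < K B := by rw [NumAux.K_eq]; omega
  have hnx := hB.nx i hi
  have hk1 : kck B i < K B := by
    rw [NumAux.K_eq]
    unfold kck
    omega
  have hk2 : kxi B i < K B := by
    rw [NumAux.K_eq]
    unfold kxi
    omega
  refine load hB hX hi hv (hslot.2 (!v) i hnN 0 hK).2 (z_up hB hX hi ?_ ?_) ?_
  · rw [Bool.not_not, slot_exact hB hX he hnx hk2, hz, hz']
    simp
  · rw [Bool.not_not, Bool.not_not, slot_exact hB hX he hnx hk1, hz, hz']
    cases v <;> rfl
  · rw [Bool.not_not, slot_exact hB hX he hnx hk2, hz, hz']
    simp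

end Pool.Agent.MPa0a715.BT
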