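import Pool.Agent.Lib.MP_a0a715_lc_BT.Chn

/-!
# The other variables which are not rails
-/

namespace Pool.Agent.MPa0a715.BT

open Pool.Agent.MPa0a715
open Pool.Agent.MPa0a715.BI (Base)

variable {B : Base} {X : Var → Bool}

namespace MisAux

theorem m_le_Z (B : Base) : B.m ≤ Z B := by
  have h1 : B.m ≤ R B := by
    rw [NumAux.R_eq, NumAux.K_eq]
    omega
  have h2 : 1 ≤ R B := by
    rw [NumAux.R_eq]
    omega
  unfold Z
  nlinarith

theorem ph_m (hB : B.Ok) (hX : Mn B X) {j : ℕ} (hj : j < B.m) :
    X (.ph (Z B + 1 + j)) = X (.ph (Z B)) := by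
  have := m_le_Z B
  exact ph_eq hB hX (by omega) (by omega)

theorem UJ0 (hB : B.Ok) (hX : Mn B X) {t : Bool} :
    X (.UJ t 0) = ((X .y == t) || X (.ph (Z B))) :=
  UJ_eq hB hX (Nat.succ_pos _)

end MisAux

open MisAux

theorem m_eq (hB : B.Ok) (hX : Mn B X) {j : ℕ} (hj : j < B.m) :
    X (.m j) = (X (.q j) || X (.rho j) || X (.ph (Z B))) := by
  have hph := ph_m hB hX hj
  have up : (X (.q j) || X (.rho j)) = true → X (.m j) = true := by
    intro h
    by_contra hcon
    rw [Bool.not_eq_true] at hcon
    have h1 : cv X (con B (.hold j)) = true := by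
      simp only [con, cOr, cv, pv, List.any_cons, List.any_nil, List.all_cons, List.all_nil, hcon]
      revert h
      cases X (.q j) <;> cases X (.rho j) <;> simp
    have h2 := drive hB hX (v := .m j) (p := .hold j) hj h1 fun d hd _ _ hk => by
      simp only [occ, List.mem_cons, List.not_mem_nil, or_false] at hd
      rcases hd with rfl | rfl | rfl <;> simp [key, klt] at hk
    simp [con, cOr, cv, pv, fl_self, hcon] at h2
  have up' : X (.ph (Z B)) = true → X (.m j) = true := by
    intro h
    by_contra hcon
    rw [Bool.not_eq_true] at hcon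
    have h1 : cv X (con B (.M j)) = true := by
      simp [con, cEq, cv, pv, hcon, hph, h]
    have h2 := drive hB hX (v := .m j) (p := .M j) hj h1 fun d hd _ _ hk => by
      simp only [occ, List.mem_cons, List.not_mem_nil, or_false] at hd
      rcases hd with rfl | rfl | rfl
      · intro P hP h3
        simp only [con, cOr, List.mem_cons, List.not_mem_nil, or_false] at hP
        exfalso
        rcases hP with rfl | rfl
        · simp [pv, fl_self, hcon] at h3
        · simp [pv, fl_self, hcon] at h3
      · simp [key, klt] at hk
      · simp [key, klt] at hk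
    simp [con, cEq, cv, pv, fl_self, fl_ne, hcon, hph, h] at h2
  have down : (X (.q j) || X (.rho j) || X (.ph (Z B))) = false → X (.m j) = false := by
    intro h
    simp only [Bool.or_eq_false_iff] at h
    by_contra hcon
    rw [Bool.not_eq_false] at hcon
    have h1 : cv X (con B (.M j)) = true := by simp [con, cEq, cv, pv, hcon, hph, h.2]
    have h2 := drive hB hX (v := .m j) (p := .M j) hj h1 fun d hd _ _ hk => by
      simp only [occ, List.mem_cons, List.not_mem_nil, or_false] at hd
      rcases hd with rfl | rfl | rfl
      · intro P hP h3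
        simp only [con, cOr, List.mem_cons, List.not_mem_nil, or_false] at hP
        exfalso
        rcases hP with rfl | rfl
        · simp [pv, fl_ne, h.1.1] at h3
        · simp [pv, fl_ne, h.1.2] at h3
      · simp [key, klt] at hk
      · simp [key, klt] at hk
    simp [con, cEq, cv, pv, fl_self, fl_ne, hcon, hph, h.2] at h2
  cases h : (X (.q j) || X (.rho j) || X (.ph (Z B))) with
  | false => exact down h
  | true =>
    rw [Bool.or_eq_true] at h
    rcases h with h | h
    · exact up h
    · exact up' h

theorem tau_eq (hB : B.Ok) (hX : Mn B X) {t : Bool} {j : ℕ} (hj : j < B.m) :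
    X (.tau t j) = (X (.be (!t) j) && !X (.m j)) := by
  have hmp := mp_eq hB hX hj
  have up : (X (.be (!t) j) && !X (.m j)) = true → X (.tau t j) = true := by
    intro h
    rw [Bool.and_eq_true, Bool.not_eq_true'] at h
    by_contra hcon
    rw [Bool.not_eq_true] at hcon
    have h1 : cv X (con B (.T1 t j)) = true := by simp [con, cv, pv, hcon, h.1, h.2, hmp]
    have h2 := drive hB hX (v := .tau t j) (p := .T1 t j) hj h1 fun d hd _ _ hk => by
      simp only [occ, List.mem_cons, List.not_mem_nil, or_false] at hd
      rcases hd with rfl | rfl | rfl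
      · simp [key, klt] at hk
      · simp [key, klt] at hk
      · simp only [key, if_neg hj.ne, klt] at hk
        omega
    simp [con, cv, pv, fl_self, hcon] at h2
  have down : (X (.be (!t) j) && !X (.m j)) = false → X (.tau t j) = false := by
    intro h
    by_contra hcon
    rw [Bool.not_eq_false] at hcon
    have h1 : cv X (con B (.T2 t j)) = true := by simp [con, cv, pv, hcon]
    have h2 := drive hB hX (v := .tau t j) (p := .T2 t j) hj h1 fun d hd _ _ hk => by
      simp only [occ, List.mem_cons, List.not_mem_nil, or_false] at hd
      rcases hd with rfl | rfl | rfl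
      · intro P hP h3
        simp only [con, List.mem_cons, List.not_mem_nil, or_false] at hP
        subst hP
        exfalso
        simp only [pv, List.all_cons, List.all_nil, Bool.and_true, Bool.and_eq_true] at h3
        rw [fl_ne _ (by simp), fl_ne _ (by simp), hmp] at h3
        revert h h3
        cases X (.be (!t) j) <;> cases X (.m j) <;> simp
      · simp [key, klt] at hk
      · simp only [key, if_neg hj.ne, klt] at hk
        omega
    simp [con, cv, pv, fl_self, hcon] at h2
  cases h : (X (.be (!t) j) && !X (.m j)) with
  | false => exact down h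
  | true => exact up h

theorem e_eq (hB : B.Ok) (hX : Mn B X) {t : Bool} :
    X (.e t) = !(X (.x (.D t 0)) && !((X .y == t) || X (.ph (Z B)))) := by
  have hU := UJ0 hB hX (t := t)
  rw [← hU]
  have down : (X (.x (.D t 0)) && !X (.UJ t 0)) = true → X (.e t) = false := by
    intro h
    rw [Bool.and_eq_true, Bool.not_eq_true'] at h
    by_contra hcon
    rw [Bool.not_eq_false] at hcon
    have h1 : cv X (con B (.K1 t)) = true := by
      simp [con, cv, pv, hcon, h.1, h.2]
    have h2 := drive hB hX (v := .e t) (p := .K1 t) trivial h1 fun d hd _ _ hk => by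
      simp only [occ, List.mem_cons, List.not_mem_nil, or_false] at hd
      rcases hd with rfl | rfl | rfl <;> simp [key, klt] at hk
    simp [con, cv, pv, fl_self, hcon] at h2
  have up : (X (.x (.D t 0)) && !X (.UJ t 0)) = false → X (.e t) = true := by
    intro h
    by_contra hcon
    rw [Bool.not_eq_true] at hcon
    have h1 : cv X (con B (.K2 t)) = true := by simp [con, cv, pv, hcon]
    have h2 := drive hB hX (v := .e t) (p := .K2 t) trivial h1 fun d hd _ _ hk => by
      simp only [occ, List.mem_cons, List.not_mem_nil, or_false] at hd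
      rcases hd with rfl | rfl | rfl
      · intro P hP h3
        simp only [con, List.mem_cons, List.not_mem_nil, or_false] at hP
        subst hP
        exfalso
        simp only [pv, List.all_cons, List.all_nil, Bool.and_true, Bool.and_eq_true] at h3
        rw [fl_self, fl_ne _ (show Var.x (.D t 0) ≠ Var.e t by simp),
          fl_ne _ (show Var.UJ t 0 ≠ Var.e t by simp)] at h3
        revert h h3
        cases X (.x (.D t 0)) <;> cases X (.UJ t 0) <;> simp
      · simp [key, klt] at hk
      · simp [key, klt] at hk
    simp [con, cv, pv, fl_self, hcon] at h2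
  cases h : (X (.x (.D t 0)) && !X (.UJ t 0)) with
  | false => exact up h
  | true => exact down h

theorem y_flip (hB : B.Ok) (hX : Mn B X) (h : X (.L (!(X .y)) 0) = true)
    (h' : X (.L (X .y) 0) = false) : X (.c (.Y (!(X .y)) 0)) = false := by
  by_contra hcon
  rw [Bool.not_eq_false] at hcon
  have h1 : cv X (con B .Yd) = true := by
    simp only [con, cv, pv, List.any_cons, List.any_nil, List.all_cons, List.all_nil]
    revert h h'
    cases X .y <;> simp +contextual
  have h2 := drive hB hX (v := .y) (p := .Yd) trivial h1 fun d hd _ _ hk => by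
    simp only [occ, List.mem_cons, List.not_mem_nil, or_false] at hd
    rcases hd with rfl | rfl | rfl
    · intro P hP h3
      exfalso
      simp only [con, List.mem_cons, List.not_mem_nil, or_false] at hP
      rcases hP with rfl | rfl
      · simp only [pv, List.all_cons, List.all_nil, Bool.and_true, Bool.and_eq_true] at h3
        rw [fl_self, fl_ne _ (by simp)] at h3
        revert h3 hcon
        cases X .y <;> simp +contextual
      · simp only [pv, List.all_cons, List.all_nil, Bool.and_true, Bool.and_eq_true] at h3
        rw [fl_self, fl_ne _ (by simp)] at h3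
        revert h3 hcon
        cases X .y <;> simp +contextual
    · simp [key, klt] at hk
    · simp [key, klt] at hk
  simp only [con, cv, pv, List.any_cons, List.any_nil, List.all_cons, List.all_nil] at h2
  rw [fl_self, fl_ne _ (by simp), fl_ne _ (by simp)] at h2
  revert h2 h h'
  cases X .y <;> simp +contextual

theorem z_ge (hB : B.Ok) (hX : Mn B X) {t g : Bool} {i : ℕ} (hi : i < B.n)
    (h : X (.V t i) = g) : X (.z t g i) = true := by
  by_contra hcon
  rw [Bool.not_eq_true] at hcon
  have h1 : cv X (con B (.HZ t i)) = true := by
    cases g <;> simp [con, cv, pv, h, hcon]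
  have h2 := drive hB hX (v := .z t g i) (p := .HZ t i) hi h1 fun d hd _ _ hk => by
    simp only [occ, List.mem_cons, List.not_mem_nil, or_false] at hd
    exfalso
    rcases hd with rfl | rfl | rfl <;> simp [key, klt] at hk
  cases g <;> simp [con, cv, pv, fl_self, fl_ne, h, hcon] at h2

theorem z_down (hB : B.Ok) (hX : Mn B X) {t g : Bool} {i : ℕ} (hi : i < B.n)
    (h : X (.V t i) = !g) (h1 : X (.x (.r (!t) g (B.nx.getD i 0) (kxi B i))) = false) :
    X (.z t g i) = false := by
  by_contra hcon
  rw [Bool.not_eq_false] at hcon
  have hxi := xi_eq hB hX (t := !t) (g := g) hi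
  rw [h1] at hxi
  have h2 : cv X (con B (.Lz t g i)) = true := by
    simp [con, cEq, cv, pv, hcon, hxi]
  have h3 := drive hB hX (v := .z t g i) (p := .Lz t g i) hi h2 fun d hd _ _ hk => by
    simp only [occ, List.mem_cons, List.not_mem_nil, or_false] at hd
    rcases hd with rfl | rfl | rfl
    · intro P hP h4
      exfalso
      simp only [con, List.mem_cons, List.not_mem_nil, or_false] at hP
      rcases hP with rfl | rfl
      · simp only [pv, List.all_cons, List.all_nil, Bool.and_true, Bool.and_eq_true] at h4
        rw [fl_ne _ (by simp), h] at h4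
        cases g
        · rw [fl_ne _ (by simp), z_ge hB hX hi (g := true) h] at h4
          exact absurd h4.2 (by simp)
        · exact absurd h4.1 (by simp)
      · simp only [pv, List.all_cons, List.all_nil, Bool.and_true, Bool.and_eq_true] at h4
        rw [fl_ne _ (by simp), h] at h4
        cases g
        · exact absurd h4.1 (by simp)
        · rw [fl_ne _ (by simp), z_ge hB hX hi (g := false) h] at h4
          exact absurd h4.2 (by simp)
    · intro P hP h4
      exfalso
      simp only [con, BT.hcon, cAnd, List.mem_cons, List.not_mem_nil, or_false] at hP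
      subst hP
      simp [pv, fl_self, hcon] at h4
    · simp [key, klt] at hk
  simp [con, cEq, cv, pv, fl_self, fl_ne, hcon, hxi] at h3

theorem z_up (hB : B.Ok) (hX : Mn B X) {t g : Bool} {i : ℕ} (hi : i < B.n)
    (h1 : X (.x (.r (!t) g (B.nx.getD i 0) (kxi B i))) = true)
    (h2 : X (.x (.r (!t) (!g) (B.nx.getD i 0) (kck B i))) = false) :
    X (.z t g i) = true := by
  by_contra hcon
  rw [Bool.not_eq_true] at hcon
  have hxi := xi_eq hB hX (t := !t) (g := g) hi
  rw [h1] at hxi
  have h3 : cv X (con B (.Lz t g i)) = true := by
    simp [con, cEq, cv, pv, hcon, hxi]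
  have h4 := drive hB hX (v := .z t g i) (p := .Lz t g i) hi h3 fun d hd _ _ hk => by
    simp only [occ, List.mem_cons, List.not_mem_nil, or_false] at hd
    rcases hd with rfl | rfl | rfl
    · intro P hP h5
      simp only [con, List.mem_cons, List.not_mem_nil, or_false] at hP
      cases g <;> rcases hP with rfl | rfl <;>
        simp [pv, fl_self, fl_ne, hcon] at h5 ⊢ <;> exact h5
    · intro P hP h5
      exfalso
      simp only [con, BT.hcon, cAnd, List.mem_cons, List.not_mem_nil, or_false] at hP
      subst hP
      simp only [pv, List.all_cons, List.all_nil, Bool.and_true, Bool.and_eq_true] at h5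
      rw [fl_ne _ (show Var.x (.r (!t) (!g) (B.nx.getD i 0) (kck B i)) ≠ Var.z t g i by simp),
        h2] at h5
      exact absurd h5.2.1 (by simp)
    · simp [key, klt] at hk
  simp [con, cEq, cv, pv, fl_self, fl_ne, hcon, hxi] at h4

theorem load (hB : B.Ok) (hX : Mn B X) {t g : Bool} {i : ℕ} (hi : i < B.n)
    (hV : X (.V t i) = g) (h1 : X (.c (.r t (!g) i 0)) = true) (h2 : X (.z t (!g) i) = true)
    (h3 : X (.x (.r (!t) true (B.nx.getD i 0) (kxi B i))) = !g) : False := by
  have hxi := xi_eq hB hX (t := !t) (g := true) hi
  rw [h3] at hxi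
  have hv : cv X (con B (.Ld t i)) = true := by
    cases g <;> simp [con, cEq, cv, pv, hV, hxi]
  have h4 := drive hB hX (v := .V t i) (p := .Ld t i) hi hv fun d hd _ _ hk => by
    simp only [occ, List.mem_cons, List.not_mem_nil, or_false] at hd
    rcases hd with rfl | rfl | rfl
    · intro P hP h5
      exfalso
      simp only [con, List.mem_cons, List.not_mem_nil, or_false] at hP
      cases g <;> rcases hP with rfl | rfl <;>
        simp_all [pv, fl_self, fl_ne]
    · intro P hP h5
      exfalso
      simp only [con, List.mem_cons, List.not_mem_nil, or_false] at hP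
      cases g <;> rcases hP with rfl | rfl <;>
        simp_all [pv, fl_self, fl_ne]
    · simp [key, klt] at hk
  cases g <;> simp [con, cEq, cv, pv, fl_self, fl_ne, hV, hxi] at h4

end Pool.Agent.MPa0a715.BT
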