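import Pool.Agent.Lib.MP_a0a715_lc_BT.Defs

/-!
# Numbers of variables
-/

namespace Pool.Agent.MPa0a715.BT

open Pool.Agent.MPa0a715
open Pool.Agent.MPa0a715.BI (Base)

variable {B : Base} {X : Var → Bool}

namespace NumAux

/-- the place with a given code -/
def decC (c : ℕ × ℕ × ℕ) : Ch :=
  ([.r false false c.2.1 c.2.2, .r false true c.2.1 c.2.2,
    .r true false c.2.1 c.2.2, .r true true c.2.1 c.2.2,
    .D false c.2.1, .D true c.2.1, .Y false c.2.1, .Y true c.2.1] :
      List Ch).getD c.1 (.Y false 0)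

theorem decC_code (a : Ch) : decC (codeC a) = a := by
  rcases a with ⟨_ | _, _ | _, _, _⟩ | ⟨_ | _, _⟩ | ⟨_ | _, _⟩ <;> rfl

theorem codeC_inj {a b : Ch} (h : codeC a = codeC b) : a = b := by
  rw [← decC_code a, ← decC_code b, h]

/-- the variable with a given code -/
def dec (c : ℕ × ℕ × ℕ) : Var :=
  ([.c (decC c), .c (decC c), .c (decC c), .c (decC c), .c (decC c), .c (decC c), .c (decC c),
    .c (decC c),
    .d (decC (0, c.2)), .d (decC (1, c.2)), .d (decC (2, c.2)), .d (decC (3, c.2)),
    .d (decC (4, c.2)), .d (decC (5, c.2)), .d (decC (6, c.2)), .d (decC (7, c.2)),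
    .x (decC (0, c.2)), .x (decC (1, c.2)), .x (decC (2, c.2)), .x (decC (3, c.2)),
    .x (decC (4, c.2)), .x (decC (5, c.2)), .x (decC (6, c.2)), .x (decC (7, c.2)),
    .f (decC (0, c.2)), .f (decC (1, c.2)), .f (decC (2, c.2)), .f (decC (3, c.2)),
    .f (decC (4, c.2)), .f (decC (5, c.2)), .f (decC (6, c.2)), .f (decC (7, c.2)),
    .V false c.2.1, .V true c.2.1,
    .z false false c.2.1, .z false true c.2.1, .z true false c.2.1, .z true true c.2.1,
    .ck false false c.2.1, .ck false true c.2.1, .ck true false c.2.1, .ck true true c.2.1,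
    .F false c.2.1, .F true c.2.1, .E false c.2.1, .E true c.2.1,
    .p false c.2.1, .p true c.2.1, .u false c.2.1, .u true c.2.1,
    .al false c.2.1, .al true c.2.1, .be false c.2.1, .be true c.2.1,
    .q c.2.1, .m c.2.1, .mp c.2.1, .tau false c.2.1, .tau true c.2.1,
    .L false c.2.1, .L true c.2.1, .rho c.2.1, .y, .yc false, .yc true, .e false, .e true,
    .La false false, .La false true, .La true false, .La true true, .A false, .A true,
    .xi false false c.2.1, .xi false true c.2.1, .xi true false c.2.1, .xi true true c.2.1,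
    .ph c.2.2, .UJ false c.2.2, .UJ true c.2.2, .UE false c.2.2, .UE true c.2.2,
    .UW false c.2.2, .UW true c.2.2, .UQ c.2.2] :
      List Var).getD c.1 .y

theorem dec_code (v : Var) : dec (code v) = v := by
  cases v with
  | c a => rcases a with ⟨_ | _, _ | _, _, _⟩ | ⟨_ | _, _⟩ | ⟨_ | _, _⟩ <;> rfl
  | d a => rcases a with ⟨_ | _, _ | _, _, _⟩ | ⟨_ | _, _⟩ | ⟨_ | _, _⟩ <;> rfl
  | x a => rcases a with ⟨_ | _, _ | _, _, _⟩ | ⟨_ | _, _⟩ | ⟨_ | _, _⟩ <;> rfl
  | f a => rcases a with ⟨_ | _, _ | _, _, _⟩ | ⟨_ | _, _⟩ | ⟨_ | _, _⟩ <;> rfl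
  | V s i => cases s <;> rfl
  | z t g i => cases t <;> cases g <;> rfl
  | ck t g i => cases t <;> cases g <;> rfl
  | F t i => cases t <;> rfl
  | E t i => cases t <;> rfl
  | p s j => cases s <;> rfl
  | u s j => cases s <;> rfl
  | al s j => cases s <;> rfl
  | be s j => cases s <;> rfl
  | q j => rfl
  | m j => rfl
  | mp j => rfl
  | tau t j => cases t <;> rfl
  | L t j => cases t <;> rfl
  | rho j => rfl
  | y => rfl
  | yc b => cases b <;> rfl
  | e t => cases t <;> rfl
  | ph k => rfl
  | UJ t k => cases t <;> rfl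
  | UE t k => cases t <;> rfl
  | UW t k => cases t <;> rfl
  | UQ k => rfl
  | La t b => cases t <;> cases b <;> rfl
  | A s => cases s <;> rfl
  | xi t g i => cases t <;> cases g <;> rfl

theorem code_inj {v w : Var} (h : code v = code w) : v = w := by
  rw [← dec_code v, ← dec_code w, h]

/-- the variable is not a signal -/
def NC : Var → Prop
  | .ph _ => False
  | .UJ _ _ => False
  | .UE _ _ => False
  | .UW _ _ => False
  | .UQ _ => False
  | _ => True

theorem rail_nc {v : Var} (h : Rail v) : NC v := by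
  cases v <;> trivial

theorem num_nc {v : Var} (h : NC v) :
    num B v = ((code v).1 * R B + (code v).2.1) * R B + (code v).2.2 := by
  cases v <;> first | rfl | exact h.elim

theorem K_eq (B : Base) : K B = 2 * B.N + 1 + 2 * B.n + 3 * B.m := rfl

theorem R_eq (B : Base) : R B = K B + 1 := rfl

theorem n_le_N (B : Base) : B.n ≤ B.N := Nat.le_add_right _ _

theorem toNat_le (b : Bool) : b.toNat ≤ 1 := by cases b <;> simp

theorem codeC_lt (a : Ch) : (codeC a).1 < 8 := by
  rcases a with ⟨_ | _, _ | _, _, _⟩ | ⟨_ | _, _⟩ | ⟨_ | _, _⟩ <;> simp [codeC]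

theorem codeC_bdE {a : Ch} (h : ChE B a) : (codeC a).2.1 < R B ∧ (codeC a).2.2 < R B := by
  have hK := K_eq B
  have hR := R_eq B
  have hn := n_le_N B
  cases a <;> simp only [codeC, ChE] at * <;> omega

theorem chE_of_chV {a : Ch} (h : ChV B a) : ChE B a := by
  cases a <;> simp only [ChV, ChE] at * <;> omega

theorem codeC_bd {a : Ch} (h : ChV B a) : (codeC a).2.1 < R B ∧ (codeC a).2.2 < R B :=
  codeC_bdE (chE_of_chV h)

theorem code_bd {v : Var} (h : NC v) (hv : Vld B v) :
    (code v).1 < 77 ∧ (code v).2.1 < R B ∧ (code v).2.2 < R B := by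
  have hK := K_eq B
  have hR := R_eq B
  have hn := n_le_N B
  have hb := toNat_le
  cases v with
  | c a => exact ⟨by have := codeC_lt a; simp only [code]; omega, codeC_bdE hv⟩
  | d a => exact ⟨by have := codeC_lt a; simp only [code]; omega, codeC_bd hv⟩
  | x a => exact ⟨by have := codeC_lt a; simp only [code]; omega, codeC_bd hv⟩
  | f a => exact ⟨by have := codeC_lt a; simp only [code]; omega, codeC_bd hv⟩
  | V s i => simp only [code, Vld] at *; have := hb s; omega
  | z t g i => simp only [code, Vld] at *; have := hb t; have := hb g; omega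
  | ck t g i => simp only [code, Vld] at *; have := hb t; have := hb g; omega
  | F t i => simp only [code, Vld] at *; have := hb t; omega
  | E t i => simp only [code, Vld] at *; have := hb t; omega
  | p s j => simp only [code, Vld] at *; have := hb s; omega
  | u s j => simp only [code, Vld] at *; have := hb s; omega
  | al s j => simp only [code, Vld] at *; have := hb s; omega
  | be s j => simp only [code, Vld] at *; have := hb s; omega
  | q j => simp only [code, Vld] at *; omega
  | m j => simp only [code, Vld] at *; omega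
  | mp j => simp only [code, Vld] at *; omega
  | tau t j => simp only [code, Vld] at *; have := hb t; omega
  | L t j => simp only [code, Vld] at *; have := hb t; omega
  | rho j => simp only [code, Vld] at *; omega
  | y => simp only [code]; omega
  | yc b => simp only [code]; have := hb b; omega
  | e t => simp only [code]; have := hb t; omega
  | ph k => exact h.elim
  | UJ t k => exact h.elim
  | UE t k => exact h.elim
  | UW t k => exact h.elim
  | UQ k => exact h.elim
  | La t b => simp only [code]; have := hb t; have := hb b; omega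
  | A s => simp only [code]; have := hb s; omega
  | xi t g i => simp only [code, Vld] at *; have := hb t; have := hb g; omega

theorem nc_lt {v : Var} (h : NC v) (hv : Vld B v) : num B v < Z B := by
  obtain ⟨h1, h2, h3⟩ := code_bd h hv
  rw [num_nc h, Z]
  have h4 : (code v).1 * R B + (code v).2.1 + 1 ≤ 77 * R B := by
    have := Nat.mul_le_mul_right (R B) (show (code v).1 + 1 ≤ 77 by omega)
    nlinarith
  have h5 := Nat.mul_le_mul_right (R B) h4
  nlinarith

/-- number of the signal and of the copy -/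
def chn : Var → ℕ × ℕ
  | .UJ t k => (t.toNat, k)
  | .UE t k => (2 + t.toNat, k)
  | .UW t k => (4 + t.toNat, k)
  | .UQ k => (6, k)
  | _ => (0, 0)

/-- the variable is a copy of a signal for the direction -/
def CH : Var → Prop
  | .UJ _ _ => True
  | .UE _ _ => True
  | .UW _ _ => True
  | .UQ _ => True
  | _ => False

theorem num_chain {v : Var} (h : CH v) :
    num B v = 3 * Z B + 8 + (chn v).1 * (Z B + 1) + (chn v).2 := by
  cases v <;> first | exact h.elim | rfl

theorem chn_bd {v : Var} (h : CH v) (hv : Vld B v) : (chn v).1 < 7 ∧ (chn v).2 < Z B + 1 := by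
  have hb := toNat_le
  cases v with
  | UJ t k => simp only [chn, Vld] at *; have := hb t; omega
  | UE t k => simp only [chn, Vld] at *; have := hb t; omega
  | UW t k => simp only [chn, Vld] at *; have := hb t; omega
  | UQ k => simp only [chn, Vld] at *; omega
  | _ => exact h.elim

theorem chn_inj {v w : Var} (hv : CH v) (hw : CH w) (h : chn v = chn w) : v = w := by
  cases v <;> first
    | exact hv.elim
    | (cases w <;> first
        | exact hw.elim
        | (rename_i t k t' k'; cases t <;> cases t' <;> simp [chn] at h ⊢ <;> first | exact h | done)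
        | (rename_i t k k'; cases t <;> simp [chn] at h <;> done)
        | (rename_i k t' k'; cases t' <;> simp [chn] at h <;> done)
        | (simp [chn] at h ⊢; exact h))

theorem kinds (v : Var) : NC v ∨ CH v ∨ ∃ k, v = .ph k := by
  cases v <;> simp [NC, CH]

theorem div_aux {K a b c d : ℕ} (hb : b < K) (hd : d < K) (h : a * K + b = c * K + d) :
    a = c ∧ b = d := by
  have hK : 0 < K := by omega
  have h1 : (a * K + b) / K = a := by
    rw [Nat.add_comm, Nat.add_mul_div_right _ _ hK, Nat.div_eq_of_lt hb, Nat.zero_add]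
  have h2 : (c * K + d) / K = c := by
    rw [Nat.add_comm, Nat.add_mul_div_right _ _ hK, Nat.div_eq_of_lt hd, Nat.zero_add]
  have h3 : a = c := by rw [← h1, h, h2]
  subst h3
  exact ⟨rfl, by omega⟩

theorem div_val {K a b : ℕ} (hb : b < K) : (a * K + b) / K = a ∧ (a * K + b) % K = b := by
  have hK : 0 < K := by omega
  constructor
  · rw [Nat.add_comm, Nat.add_mul_div_right _ _ hK, Nat.div_eq_of_lt hb, Nat.zero_add]
  · rw [Nat.add_comm, Nat.add_mul_mod_self_right, Nat.mod_eq_of_lt hb]

theorem chn_lt {v : Var} (h : CH v) (hv : Vld B v) :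
    3 * Z B + 8 ≤ num B v ∧ num B v < Nv B := by
  obtain ⟨h1, h2⟩ := chn_bd h hv
  rw [num_chain h, Nv]
  have := Nat.mul_le_mul_right (Z B + 1) (show (chn v).1 + 1 ≤ 7 by omega)
  constructor
  · omega
  · nlinarith

end NumAux

open NumAux

theorem num_lt {v : Var} (hv : Vld B v) : num B v < Nv B := by
  rcases kinds v with h | h | ⟨k, rfl⟩
  · have := nc_lt h hv
    unfold Nv
    omega
  · exact (chn_lt h hv).2
  · simp only [num, Nv, Vld] at *
    omega

theorem num_inj {v w : Var} (hv : Vld B v) (hw : Vld B w)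
    (h : num B v = num B w) : v = w := by
  have hp : ∀ k, num B (.ph k) = Z B + k := fun _ => rfl
  rcases kinds v with h1 | h1 | ⟨k, rfl⟩ <;> rcases kinds w with h2 | h2 | ⟨l, rfl⟩
  · rw [num_nc h1, num_nc h2] at h
    obtain ⟨a1, a2, a3⟩ := code_bd h1 hv
    obtain ⟨b1, b2, b3⟩ := code_bd h2 hw
    obtain ⟨c1, c2⟩ := div_aux a3 b3 h
    obtain ⟨c3, c4⟩ := div_aux a2 b2 c1
    exact code_inj (Prod.ext c3 (Prod.ext c4 c2))
  · have := nc_lt h1 hv
    have := chn_lt h2 hw
    omega
  · have := nc_lt h1 hv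
    rw [hp] at h
    omega
  · have := nc_lt h2 hw
    have := chn_lt h1 hv
    omega
  · rw [num_chain h1, num_chain h2] at h
    obtain ⟨a1, a2⟩ := chn_bd h1 hv
    obtain ⟨b1, b2⟩ := chn_bd h2 hw
    obtain ⟨c1, c2⟩ := div_aux a2 b2 (by omega : (chn v).1 * (Z B + 1) + (chn v).2 =
      (chn w).1 * (Z B + 1) + (chn w).2)
    exact chn_inj h1 h2 (Prod.ext c1 c2)
  · have := chn_lt h1 hv
    rw [hp] at h
    simp only [Vld] at hw
    omega
  · have := nc_lt h2 hw
    rw [hp] at h
    omega
  · have := chn_lt h2 hw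
    rw [hp] at h
    simp only [Vld] at hv
    omega
  · rw [hp, hp] at h
    have : k = l := by omega
    rw [this]

theorem num_lt_Z {g : Var} (hr : Rail g) (hv : Vld B g) : num B g < Z B :=
  nc_lt (rail_nc hr) hv

theorem inv_eq {g : Var} (hr : Rail g) (hv : Vld B g) : inv B (pos B g) = g := by
  have hex : ∃ g', Rail g' ∧ Vld B g' ∧ pos B g' = pos B g := ⟨g, hr, hv, rfl⟩
  unfold inv
  rw [dif_pos hex]
  obtain ⟨_, h2, h3⟩ := hex.choose_spec
  have h4 : num B hex.choose + 1 = num B g + 1 := h3
  exact num_inj h2 hv (by omega)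

theorem num_f_lt {a : Ch} (ha : ChV B a) : num B (.f a) < Z B :=
  nc_lt (v := .f a) trivial ha

theorem flagAt_num {a : Ch} (ha : ChV B a) : flagAt B (num B (.f a)) = some a := by
  obtain ⟨h1, h2⟩ := codeC_bd ha
  have h3 : num B (.f a) = ((24 + (codeC a).1) * R B + (codeC a).2.1) * R B + (codeC a).2.2 := rfl
  obtain ⟨e1, e2⟩ := div_val (a := (24 + (codeC a).1) * R B + (codeC a).2.1) h2
  obtain ⟨e3, e4⟩ := div_val (a := 24 + (codeC a).1) h1
  rw [← h3] at e1 e2
  unfold flagAt
  rw [e1, e2, e3, e4]
  rcases a with ⟨_ | _, _ | _, w, k⟩ | ⟨_ | _, k⟩ | ⟨_ | _, k⟩ <;> simp [codeC, ChV] at ha ⊢ <;>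
    simp [ha]

theorem flagAt_some {k : ℕ} {a : Ch} (h : flagAt B k = some a) :
    ChV B a ∧ num B (.f a) = k := by
  have e1 := Nat.div_add_mod' k (R B)
  have e2 := Nat.div_add_mod' (k / R B) (R B)
  unfold flagAt at h
  split_ifs at h with c1 c2 c3 c4 c5 c6 c7 c8 <;>
  · obtain rfl := Option.some.inj h
    first
    | obtain ⟨h1, h2, h3⟩ := c1
    | obtain ⟨h1, h2, h3⟩ := c2
    | obtain ⟨h1, h2, h3⟩ := c3
    | obtain ⟨h1, h2, h3⟩ := c4
    | obtain ⟨h1, h2, h3⟩ := c5
    | obtain ⟨h1, h2, h3⟩ := c6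
    | obtain ⟨h1, h2, h3⟩ := c7
    | obtain ⟨h1, h2, h3⟩ := c8
    rw [h1] at e2
    simp only [ChV, num, code, codeC, Bool.toNat_false, Bool.toNat_true]
    generalize k / R B % R B = u at *
    generalize k % R B = v at *
    generalize k / R B = w at *
    subst e2
    refine ⟨by first | exact ⟨h2, h3⟩ | exact h2, ?_⟩
    rw [← e1]
    try rw [h3]

end Pool.Agent.MPa0a715.BT
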