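import Pool.Agent.Lib.MP_a0a715_lc_BT.Defs
import Pool.Agent.Lib.MP_a0a715_lc_TL.PTRed

/-!
# The list of the constraints is computed in polynomial time
-/

namespace Pool.Agent.MPa0a715.BT

open Pool.Agent.MPa0a715 Pool.Agent.PolyTime
open Pool.Agent.MPa0a715.BI (Base)
open Pool.Agent.MPa0a715.TL (NT litNames termCircuit)

/-- the parts of a constraint with numbers for the variables -/
def numC (B : Base) (c : Con) : List NT := c.map fun P => P.map fun l => (num B l.1, l.2)

/-- all constraints, the least important one first -/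
def allC (B : Base) : List (List NT) := ((posL B).map fun p => numC B (con B p)).reverse

namespace PtbAux

local instance encVar : Enc Var := ⟨fun v => enc (code v)⟩

local instance encCh : Enc Ch := ⟨fun a => enc (codeC a)⟩

section
variable {α β : Type} [Enc α] [Enc β]

/-- the parts of a base are computed in polynomial time -/
structure PB (B : α → Base) : Prop where
  n : PU fun a => (B a).n
  G : PTime fun a => (B a).G
  nx : PTime fun a => (B a).nx
  co : PTime fun a => (B a).co
  im : PTime fun a => (B a).im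

theorem PB.comp {B : α → Base} (h : PB B) {g : β → α} (hg : PTime g) :
    PB (fun b => B (g b)) :=
  ⟨PU.comp (f := fun a => (B a).n) h.n hg, PTime.comp (f := fun a => (B a).G) h.G hg,
    PTime.comp (f := fun a => (B a).nx) h.nx hg, PTime.comp (f := fun a => (B a).co) h.co hg,
    PTime.comp (f := fun a => (B a).im) h.im hg⟩

theorem PB.fst {B : α → Base} (h : PB B) : PB (fun p : α × β => B p.1) := h.comp PTime.fst

variable {B : α → Base}

theorem PB.uN (h : PB B) : PU (fun a => (B a).N) := h.n.add (PU.ofLength h.G)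

theorem PB.um (h : PB B) : PU (fun a => (B a).m) := PU.ofLength h.co

theorem PB.uK (h : PB B) : PU (fun a => K (B a)) :=
  (((((PU.const 2).mul h.uN).add (PU.const 1)).add ((PU.const 2).mul h.n)).add
    ((PU.const 3).mul h.um))

theorem PB.uR (h : PB B) : PU (fun a => R (B a)) := h.uK.add (PU.const 1)

theorem PB.uZ (h : PB B) : PU (fun a => Z (B a)) := ((PU.const 77).mul h.uR).mul h.uR

theorem PB.uZ1 (h : PB B) : PU (fun a => Z (B a) + 1) := h.uZ.add (PU.const 1)

theorem PB.uNv (h : PB B) : PU (fun a => Nv (B a)) :=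
  (((PU.const 3).mul h.uZ).add (PU.const 8)).add ((PU.const 7).mul h.uZ1)

theorem PB.pn (h : PB B) : PTime (fun a => (B a).n) := h.n.toNat
theorem PB.pN (h : PB B) : PTime (fun a => (B a).N) := h.uN.toNat
theorem PB.pm (h : PB B) : PTime (fun a => (B a).m) := h.um.toNat
theorem PB.pK (h : PB B) : PTime (fun a => K (B a)) := h.uK.toNat
theorem PB.pR (h : PB B) : PTime (fun a => R (B a)) := h.uR.toNat
theorem PB.pZ (h : PB B) : PTime (fun a => Z (B a)) := h.uZ.toNat

theorem PB.gnx (h : PB B) {i : α → ℕ} (hi : PTime i) :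
    PTime (fun a => (B a).nx.getD (i a) 0) := PTime.listGetD h.nx hi (PTime.const 0)
theorem PB.gco (h : PB B) {i : α → ℕ} (hi : PTime i) :
    PTime (fun a => (B a).co.getD (i a) 0) := PTime.listGetD h.co hi (PTime.const 0)
theorem PB.gim (h : PB B) {i : α → ℕ} (hi : PTime i) :
    PTime (fun a => (B a).im.getD (i a) 0) := PTime.listGetD h.im hi (PTime.const 0)

theorem PB.gck (h : PB B) {i : α → ℕ} (hi : PTime i) : PTime (fun a => kck (B a) (i a)) :=
  (((PTime.const 2).mul h.pN).add (PTime.const 1)).add hi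
theorem PB.gxi (h : PB B) {i : α → ℕ} (hi : PTime i) : PTime (fun a => kxi (B a) (i a)) :=
  ((((PTime.const 2).mul h.pN).add (PTime.const 1)).add h.pn).add hi
theorem PB.gp (h : PB B) {i : α → ℕ} (hi : PTime i) : PTime (fun a => kp (B a) (i a)) :=
  ((((PTime.const 2).mul h.pN).add (PTime.const 1)).add ((PTime.const 2).mul h.pn)).add hi
theorem PB.gu (h : PB B) {i : α → ℕ} (hi : PTime i) : PTime (fun a => ku (B a) (i a)) :=
  (((((PTime.const 2).mul h.pN).add (PTime.const 1)).add ((PTime.const 2).mul h.pn)).add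
    h.pm).add hi
theorem PB.gbe (h : PB B) {i : α → ℕ} (hi : PTime i) : PTime (fun a => kbe (B a) (i a)) :=
  (((((PTime.const 2).mul h.pN).add (PTime.const 1)).add ((PTime.const 2).mul h.pn)).add
    ((PTime.const 2).mul h.pm)).add hi

/-! ### places and variables -/

variable {f g : α → ℕ}

theorem mkc {k : ℕ} {F : α → Ch} (hf : PTime f) (hg : PTime g)
    (h : ∀ a, codeC (F a) = (k, f a, g a)) : PTime F :=
  ((PTime.const k).pair (hf.pair hg)).of_enc_eq (fun x => x) (fun _ => rfl)
    (fun x => by show enc (codeC (F x)) = _; rw [h])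

theorem mkv {k : ℕ} {F : α → Var} (hf : PTime f) (hg : PTime g)
    (h : ∀ a, code (F a) = (k, f a, g a)) : PTime F :=
  ((PTime.const k).pair (hf.pair hg)).of_enc_eq (fun x => x) (fun _ => rfl)
    (fun x => by show enc (code (F x)) = _; rw [h])

theorem pcodeC {a : α → Ch} (ha : PTime a) : PTime (fun x => codeC (a x)) :=
  ha.of_enc_eq (fun x => x) (fun _ => rfl) (fun _ => rfl)

theorem pcode {v : α → Var} (hv : PTime v) : PTime (fun x => code (v x)) :=
  hv.of_enc_eq (fun x => x) (fun _ => rfl) (fun _ => rfl)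

theorem ofcodeC {F : α → Ch} {c : α → ℕ × ℕ × ℕ} (hc : PTime c) (h : ∀ a, codeC (F a) = c a) :
    PTime F :=
  hc.of_enc_eq (fun x => x) (fun _ => rfl) (fun x => by show enc (codeC (F x)) = _; rw [h])

theorem ofcode {F : α → Var} {c : α → ℕ × ℕ × ℕ} (hc : PTime c) (h : ∀ a, code (F a) = c a) :
    PTime F :=
  hc.of_enc_eq (fun x => x) (fun _ => rfl) (fun x => by show enc (code (F x)) = _; rw [h])

theorem pr {s b : Bool} (hf : PTime f) (hg : PTime g) :
    PTime (fun a => Ch.r s b (f a) (g a)) := mkc hf hg fun _ => rfl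
theorem pD {s : Bool} (hf : PTime f) : PTime (fun a => Ch.D s (f a)) :=
  mkc hf (PTime.const 0) fun _ => rfl
theorem pY {s : Bool} (hf : PTime f) : PTime (fun a => Ch.Y s (f a)) :=
  mkc hf (PTime.const 0) fun _ => rfl

theorem codeC_nxt (a : Ch) : codeC (nxt a) =
    if (codeC a).1 < 4 then ((codeC a).1, (codeC a).2.1, (codeC a).2.2 + 1)
    else ((codeC a).1, (codeC a).2.1 + 1, (codeC a).2.2) := by
  cases a with
  | r s g w k => cases s <;> cases g <;> rfl
  | D t k => cases t <;> rfl
  | Y s k => cases s <;> rfl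

theorem pnxt {a : α → Ch} (ha : PTime a) : PTime (fun x => nxt (a x)) := by
  have h0 := pcodeC ha
  have h1 := h0.fst'
  have h2 := h0.snd'.fst'
  have h3 := h0.snd'.snd'
  exact ofcodeC (PTime.iteP (PTime.lt h1 (PTime.const 4)) (h1.pair (h2.pair h3.succ))
    (h1.pair (h2.succ.pair h3))) fun x => codeC_nxt (a x)

theorem pv_c {a : α → Ch} (ha : PTime a) : PTime (fun x => Var.c (a x)) :=
  ofcode (pcodeC ha) fun _ => rfl
theorem pv_d {a : α → Ch} (ha : PTime a) : PTime (fun x => Var.d (a x)) :=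
  ofcode (((PTime.const 8).add (pcodeC ha).fst').pair (pcodeC ha).snd') fun _ => rfl
theorem pv_x {a : α → Ch} (ha : PTime a) : PTime (fun x => Var.x (a x)) :=
  ofcode (((PTime.const 16).add (pcodeC ha).fst').pair (pcodeC ha).snd') fun _ => rfl
theorem pv_f {a : α → Ch} (ha : PTime a) : PTime (fun x => Var.f (a x)) :=
  ofcode (((PTime.const 24).add (pcodeC ha).fst').pair (pcodeC ha).snd') fun _ => rfl

theorem pv_V {s : Bool} (hf : PTime f) : PTime (fun a => Var.V s (f a)) :=
  mkv hf (PTime.const 0) fun _ => rfl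
theorem pv_z {s b : Bool} (hf : PTime f) : PTime (fun a => Var.z s b (f a)) :=
  mkv hf (PTime.const 0) fun _ => rfl
theorem pv_ck {s b : Bool} (hf : PTime f) : PTime (fun a => Var.ck s b (f a)) :=
  mkv hf (PTime.const 0) fun _ => rfl
theorem pv_F {s : Bool} (hf : PTime f) : PTime (fun a => Var.F s (f a)) :=
  mkv hf (PTime.const 0) fun _ => rfl
theorem pv_E {s : Bool} (hf : PTime f) : PTime (fun a => Var.E s (f a)) :=
  mkv hf (PTime.const 0) fun _ => rfl
theorem pv_p {s : Bool} (hf : PTime f) : PTime (fun a => Var.p s (f a)) :=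
  mkv hf (PTime.const 0) fun _ => rfl
theorem pv_u {s : Bool} (hf : PTime f) : PTime (fun a => Var.u s (f a)) :=
  mkv hf (PTime.const 0) fun _ => rfl
theorem pv_al {s : Bool} (hf : PTime f) : PTime (fun a => Var.al s (f a)) :=
  mkv hf (PTime.const 0) fun _ => rfl
theorem pv_be {s : Bool} (hf : PTime f) : PTime (fun a => Var.be s (f a)) :=
  mkv hf (PTime.const 0) fun _ => rfl
theorem pv_q (hf : PTime f) : PTime (fun a => Var.q (f a)) :=
  mkv hf (PTime.const 0) fun _ => rfl
theorem pv_m (hf : PTime f) : PTime (fun a => Var.m (f a)) :=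
  mkv hf (PTime.const 0) fun _ => rfl
theorem pv_mp (hf : PTime f) : PTime (fun a => Var.mp (f a)) :=
  mkv hf (PTime.const 0) fun _ => rfl
theorem pv_tau {s : Bool} (hf : PTime f) : PTime (fun a => Var.tau s (f a)) :=
  mkv hf (PTime.const 0) fun _ => rfl
theorem pv_L {s : Bool} (hf : PTime f) : PTime (fun a => Var.L s (f a)) :=
  mkv hf (PTime.const 0) fun _ => rfl
theorem pv_rho (hf : PTime f) : PTime (fun a => Var.rho (f a)) :=
  mkv hf (PTime.const 0) fun _ => rfl
theorem pv_ph (hf : PTime f) : PTime (fun a => Var.ph (f a)) :=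
  mkv (PTime.const 0) hf fun _ => rfl
theorem pv_UJ {s : Bool} (hf : PTime f) : PTime (fun a => Var.UJ s (f a)) :=
  mkv (PTime.const 0) hf fun _ => rfl
theorem pv_UE {s : Bool} (hf : PTime f) : PTime (fun a => Var.UE s (f a)) :=
  mkv (PTime.const 0) hf fun _ => rfl
theorem pv_UW {s : Bool} (hf : PTime f) : PTime (fun a => Var.UW s (f a)) :=
  mkv (PTime.const 0) hf fun _ => rfl
theorem pv_UQ (hf : PTime f) : PTime (fun a => Var.UQ (f a)) :=
  mkv (PTime.const 0) hf fun _ => rfl
theorem pv_xi {s b : Bool} (hf : PTime f) : PTime (fun a => Var.xi s b (f a)) :=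
  mkv hf (PTime.const 0) fun _ => rfl

theorem codeC_lt (a : Ch) : (codeC a).1 < 8 := by
  cases a with
  | r s g w k => cases s <;> cases g <;> simp [codeC]
  | D t k => cases t <;> simp [codeC]
  | Y s k => cases s <;> simp [codeC]

theorem num_eq (B : Base) (v : Var) : num B v =
    if (code v).1 < 77 then
      ((code v).1 * R B + (code v).2.1) * R B + (code v).2.2
    else if (code v).1 = 77 then Z B + (code v).2.2
    else 3 * Z B + 8 + ((code v).1 - 78) * (Z B + 1) + (code v).2.2 := by
  cases v with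
  | c a =>
    have h : (code (.c a)).1 < 77 := (codeC_lt a).trans (by norm_num)
    rw [if_pos h]
    rfl
  | d a =>
    have h : (code (.d a)).1 < 77 := (Nat.add_lt_add_left (codeC_lt a) 8).trans (by norm_num)
    rw [if_pos h]
    rfl
  | x a =>
    have h : (code (.x a)).1 < 77 := (Nat.add_lt_add_left (codeC_lt a) 16).trans (by norm_num)
    rw [if_pos h]
    rfl
  | f a =>
    have h : (code (.f a)).1 < 77 := (Nat.add_lt_add_left (codeC_lt a) 24).trans (by norm_num)
    rw [if_pos h]
    rfl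
  | V s i => cases s <;> simp [num, code]
  | z t g i => cases t <;> cases g <;> simp [num, code]
  | ck t g i => cases t <;> cases g <;> simp [num, code]
  | F t i => cases t <;> simp [num, code]
  | E t i => cases t <;> simp [num, code]
  | p t i => cases t <;> simp [num, code]
  | u t i => cases t <;> simp [num, code]
  | al t i => cases t <;> simp [num, code]
  | be t i => cases t <;> simp [num, code]
  | q i => simp [num, code]
  | m i => simp [num, code]
  | mp i => simp [num, code]
  | tau t i => cases t <;> simp [num, code]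
  | L t i => cases t <;> simp [num, code]
  | rho i => simp [num, code]
  | y => simp [num, code]
  | yc b => cases b <;> simp [num, code]
  | e t => cases t <;> simp [num, code]
  | ph k => simp [num, code]
  | UJ t k => cases t <;> simp [num, code]
  | UE t k => cases t <;> simp [num, code]
  | UW t k => cases t <;> simp [num, code]
  | UQ k => simp [num, code]
  | La t b => cases t <;> cases b <;> simp [num, code]
  | A t => cases t <;> simp [num, code]
  | xi t g i => cases t <;> cases g <;> simp [num, code]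

theorem PB.num (h : PB B) {v : α → Var} (hv : PTime v) : PTime (fun a => num (B a) (v a)) := by
  have hc := pcode hv
  have h1 := hc.fst'
  have h2 := hc.snd'.fst'
  have h3 := hc.snd'.snd'
  refine (PTime.iteP (PTime.lt h1 (PTime.const 77))
    ((((h1.mul h.pR).add h2).mul h.pR).add h3)
    (PTime.iteP (PTime.eq h1 (PTime.const 77)) (h.pZ.add h3)
      (((((PTime.const 3).mul h.pZ).add (PTime.const 8)).add
        ((h1.sub (PTime.const 78)).mul (h.pZ.add (PTime.const 1)))).add h3))).of_eq
    fun a => (num_eq (B a) (v a)).symm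

theorem PB.pos (h : PB B) {v : α → Var} (hv : PTime v) : PTime (fun a => pos (B a) (v a)) :=
  (h.num hv).add (PTime.const 1)

/-- kinds of the signals for the kinds of the rails -/
def tab : List ℕ :=
  [80, 80, 81, 81, 78, 79, 82, 83, 80, 80, 81, 81, 78, 79, 82, 83,
    80, 80, 81, 81, 78, 79, 82, 83, 84, 84, 84, 84, 84, 84, 84, 84,
    84, 84, 84, 84, 84, 84, 78, 78, 79, 79, 78, 79, 78, 79, 80, 81, 80, 81, 82, 83, 82, 83]

theorem code_upv (B : Base) (v : Var) :
    code (upv B v) = (tab.getD (code v).1 84, 0, BT.pos B v) := by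
  cases v with
  | c a =>
    cases a with
    | r s g w k => cases s <;> cases g <;> rfl
    | D t k => cases t <;> rfl
    | Y s k => cases s <;> rfl
  | d a =>
    cases a with
    | r s g w k => cases s <;> cases g <;> rfl
    | D t k => cases t <;> rfl
    | Y s k => cases s <;> rfl
  | x a =>
    cases a with
    | r s g w k => cases s <;> cases g <;> rfl
    | D t k => cases t <;> rfl
    | Y s k => cases s <;> rfl
  | f a =>
    cases a with
    | r s g w k => cases s <;> cases g <;> rfl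
    | D t k => cases t <;> rfl
    | Y s k => cases s <;> rfl
  | V s i => cases s <;> rfl
  | z t g i => cases t <;> cases g <;> rfl
  | ck t g i => cases t <;> cases g <;> rfl
  | F t i => cases t <;> rfl
  | E t i => cases t <;> rfl
  | p t i => cases t <;> rfl
  | u t i => cases t <;> rfl
  | al t i => cases t <;> rfl
  | be t i => cases t <;> rfl
  | q i => rfl
  | m i => rfl
  | mp i => rfl
  | tau t i => cases t <;> rfl
  | L t i => cases t <;> rfl
  | rho i => rfl
  | y => rfl
  | yc b => cases b <;> rfl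
  | e t => cases t <;> rfl
  | ph k => rfl
  | UJ t k => cases t <;> rfl
  | UE t k => cases t <;> rfl
  | UW t k => cases t <;> rfl
  | UQ k => rfl
  | La t b => cases t <;> cases b <;> rfl
  | A t => cases t <;> rfl
  | xi t g i => cases t <;> cases g <;> rfl

theorem pupv (h : PB B) {v : α → Var} (hv : PTime v) : PTime (fun a => upv (B a) (v a)) :=
  ofcode ((PTime.listGetD (PTime.const tab) (pcode hv).fst' (PTime.const 84)).pair
    ((PTime.const 0).pair (h.pos hv))) fun a => code_upv (B a) (v a)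

/-! ### kinds of constraints -/

variable {u v w : α → Var}

theorem p_lit (hu : PTime u) (b : Bool) : PTime (fun a => (u a, b)) := hu.pair (PTime.const b)

theorem p_one (hu : PTime u) (b : Bool) : PTime (fun a => ([(u a, b)] : Part)) :=
  (p_lit hu b).cons (PTime.const [])

theorem p_two (hu : PTime u) (b : Bool) (hv : PTime v) (c : Bool) :
    PTime (fun a => ([(u a, b), (v a, c)] : Part)) := (p_lit hu b).cons (p_one hv c)

theorem p_three (hu : PTime u) (b : Bool) (hv : PTime v) (c : Bool) (hw : PTime w) (d : Bool) :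
    PTime (fun a => ([(u a, b), (v a, c), (w a, d)] : Part)) :=
  (p_lit hu b).cons (p_two hv c hw d)

variable {P Q S : α → Part}

theorem c_one (hP : PTime P) : PTime (fun a => ([P a] : Con)) := hP.cons (PTime.const [])

theorem c_two (hP : PTime P) (hQ : PTime Q) : PTime (fun a => ([P a, Q a] : Con)) :=
  hP.cons (c_one hQ)

theorem c_three (hP : PTime P) (hQ : PTime Q) (hS : PTime S) :
    PTime (fun a => ([P a, Q a, S a] : Con)) := hP.cons (c_two hQ hS)

theorem p_cAnd (hu : PTime u) (hv : PTime v) (hw : PTime w) :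
    PTime (fun a => cAnd (u a) (v a) (w a)) := c_one (p_three hu _ hv _ hw _)

theorem p_cOr (hu : PTime u) (hv : PTime v) (hw : PTime w) :
    PTime (fun a => cOr (u a) (v a) (w a)) := c_two (p_two hu _ hw _) (p_two hv _ hw _)

theorem p_cCp (hu : PTime u) (hv : PTime v) : PTime (fun a => cCp (u a) (v a)) :=
  c_one (p_two hu _ hv _)

theorem p_cEq (hu : PTime u) (hv : PTime v) : PTime (fun a => cEq (u a) (v a)) :=
  c_two (p_two hv _ hu _) (p_two hv _ hu _)

theorem p_cNor (hu : PTime u) (hv : PTime v) (hw : PTime w) :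
    PTime (fun a => cNor (u a) (v a) (w a)) :=
  c_three (p_three hw _ hu _ hv _) (p_two hw _ hu _) (p_two hw _ hv _)

theorem p_cOl (hu : PTime u) (b : Bool) (hv : PTime v) (hw : PTime w) :
    PTime (fun a => cOl (u a) b (v a) (w a)) :=
  c_three (p_three hw _ hu _ hv _) (p_two hw _ hu _) (p_two hw _ hv _)

theorem p_cAn (hu : PTime u) (hv : PTime v) (hw : PTime w) :
    PTime (fun a => cAn (u a) (v a) (w a)) :=
  c_three (p_two hw _ hu _) (p_two hw _ hv _) (p_three hw _ hu _ hv _)

end

section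
variable {α : Type} [Enc α] {B : α → Base} {f g : α → ℕ} {x : α → Ch}

/-! ### constraints -/

theorem c_HL (s : Bool) (hf : PTime f) : PTime (fun a => con (B a) (.HL s (f a))) :=
  c_two (p_two (pv_V hf) _ (pv_c (pr hf (PTime.const 0))) _)
    (p_two (pv_V hf) _ (pv_c (pr hf (PTime.const 0))) _)

theorem c_HZ (s : Bool) (hf : PTime f) : PTime (fun a => con (B a) (.HZ s (f a))) :=
  c_two (p_two (pv_V hf) _ (pv_z hf) _) (p_two (pv_V hf) _ (pv_z hf) _)

theorem c_Hy : PTime (fun a => con (B a) .Hy) :=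
  (PTime.const ([[(.y, true), (.c (.Y true 0), false)],
    [(.y, false), (.c (.Y false 0), false)]] : Con) : PTime fun _ : α => _)

theorem c_N (hx : PTime x) : PTime (fun a => con (B a) (.N (x a))) :=
  c_two (p_two (pv_d hx) _ (pv_c (pnxt hx)) _) (p_two (pv_d hx) _ (pv_x hx) _)

theorem c_O (hx : PTime x) : PTime (fun a => con (B a) (.O (x a))) :=
  c_one (p_three (pv_c hx) _ (pv_d hx) _ (pv_f hx) _)

theorem c_Df (hx : PTime x) : PTime (fun a => con (B a) (.Df (x a))) := c_one (p_one (pv_f hx) _)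

theorem c_hold (hf : PTime f) : PTime (fun a => con (B a) (.hold (f a))) :=
  p_cOr (pv_q hf) (pv_rho hf) (pv_m hf)

theorem c_M (h : PB B) (hf : PTime f) : PTime (fun a => con (B a) (.M (f a))) :=
  p_cEq (pv_ph ((h.pZ.add (PTime.const 1)).add hf)) (pv_m hf)

theorem c_T1 (t : Bool) (hf : PTime f) : PTime (fun a => con (B a) (.T1 t (f a))) :=
  c_one (p_three (pv_be hf) _ (pv_mp hf) _ (pv_tau hf) _)

theorem c_T2 (t : Bool) (hf : PTime f) : PTime (fun a => con (B a) (.T2 t (f a))) :=
  c_one (p_one (pv_tau hf) _)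

theorem c_Yd : PTime (fun a => con (B a) .Yd) :=
  (PTime.const ([[(.y, true), (.L false 0, true)], [(.y, false), (.L true 0, true)]] : Con) :
    PTime fun _ : α => _)

theorem c_K1 (t : Bool) : PTime (fun a => con (B a) (.K1 t)) :=
  (PTime.const ([[(.e t, true), (.x (.D t 0), true), (.UJ t 0, false)]] : Con) :
    PTime fun _ : α => _)

theorem c_K2 (t : Bool) : PTime (fun a => con (B a) (.K2 t)) :=
  (PTime.const ([[(.e t, false)]] : Con) : PTime fun _ : α => _)

theorem c_Lp (h : PB B) {v : α → Var} (hv : PTime v) : PTime (fun a => con (B a) (.Lp (v a))) :=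
  p_cEq (pupv h hv) hv

theorem c_Lz (t b : Bool) (hf : PTime f) : PTime (fun a => con (B a) (.Lz t b (f a))) :=
  p_cEq (pv_xi hf) (pv_z hf)

theorem c_Ld (t : Bool) (hf : PTime f) : PTime (fun a => con (B a) (.Ld t (f a))) :=
  p_cEq (pv_xi hf) (pv_V hf)

/-! ### constraints which force rails up -/

theorem c_Hg (s b : Bool) (h : PB B) (hf : PTime f) :
    PTime (fun a => con (B a) (.H (.c (.r s b (f a) 0)))) := by
  have hG : PTime (fun a => (B a).G[f a - (B a).n]?) := PTime.getElem? h.G (hf.sub h.pn)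
  have hc : PTime (fun p : α × Gate => p.2.code) := ptime_code PTime.snd
  have h1 : PTime (fun p : α × Gate => p.2.code.2.1) := hc.snd'.fst'
  have h2 : PTime (fun p : α × Gate => p.2.code.2.2) := hc.snd'.snd'
  have h3 : PTime (fun p : α × Gate => f p.1) := hf.comp PTime.fst
  have h4 : PTime (fun p : α × Gate => 2 * f p.1 + 1) :=
    ((PTime.const 2).mul h3).add (PTime.const 1)
  have h5 : PTime (fun p : α × Gate => 2 * f p.1 + 2) :=
    ((PTime.const 2).mul h3).add (PTime.const 2)
  have hA : ∀ (b' : Bool), PTime (fun p : α × Gate =>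
      cAnd (.x (.r s b' p.2.code.2.1 (2 * f p.1 + 1)))
        (.x (.r s b' p.2.code.2.2 (2 * f p.1 + 2))) (.c (.r s b' (f p.1) 0))) := fun b' =>
    p_cAnd (pv_x (pr h1 h4)) (pv_x (pr h2 h5)) (pv_c (pr h3 (PTime.const 0)))
  have hO : ∀ (b' : Bool), PTime (fun p : α × Gate =>
      cOr (.x (.r s b' p.2.code.2.1 (2 * f p.1 + 1)))
        (.x (.r s b' p.2.code.2.2 (2 * f p.1 + 2))) (.c (.r s b' (f p.1) 0))) := fun b' =>
    p_cOr (pv_x (pr h1 h4)) (pv_x (pr h2 h5)) (pv_c (pr h3 (PTime.const 0)))
  have hN : PTime (fun p : α × Gate =>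
      cCp (.x (.r s (!b) p.2.code.2.1 (2 * f p.1 + 1))) (.c (.r s b (f p.1) 0))) :=
    p_cCp (pv_x (pr h1 h4)) (pv_c (pr h3 (PTime.const 0)))
  have hk : PTime (fun p : α × Gate => p.2.code.1) := (ptime_code PTime.snd).fst'
  have hall : PTime (fun p : α × Gate =>
      if p.2.code.1 = some true then
        (if b then cAnd (.x (.r s b p.2.code.2.1 (2 * f p.1 + 1)))
            (.x (.r s b p.2.code.2.2 (2 * f p.1 + 2))) (.c (.r s b (f p.1) 0))
          else cOr (.x (.r s b p.2.code.2.1 (2 * f p.1 + 1)))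
            (.x (.r s b p.2.code.2.2 (2 * f p.1 + 2))) (.c (.r s b (f p.1) 0)))
      else if p.2.code.1 = some false then
        (if b then cOr (.x (.r s b p.2.code.2.1 (2 * f p.1 + 1)))
            (.x (.r s b p.2.code.2.2 (2 * f p.1 + 2))) (.c (.r s b (f p.1) 0))
          else cAnd (.x (.r s b p.2.code.2.1 (2 * f p.1 + 1)))
            (.x (.r s b p.2.code.2.2 (2 * f p.1 + 2))) (.c (.r s b (f p.1) 0)))
      else cCp (.x (.r s (!b) p.2.code.2.1 (2 * f p.1 + 1))) (.c (.r s b (f p.1) 0))) := by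
    cases b
    · exact ptime_ite_eq hk (b := some true) (hO false)
        (ptime_ite_eq hk (b := some false) (hA false) hN)
    · exact ptime_ite_eq hk (b := some true) (hA true)
        (ptime_ite_eq hk (b := some false) (hO true) hN)
  refine (PTime.option_cases (g := fun _ => ([] : Con)) hG (PTime.const _) hall).of_eq
    fun a => ?_
  simp only [con, hcon, gcon]
  cases (B a).G[f a - (B a).n]? with
  | none => rfl
  | some x => cases x <;> rfl

theorem c_HD (t : Bool) (h : PB B) : PTime (fun a => con (B a) (.H (.c (.D t 0)))) :=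
  (p_cCp (pv_E h.pn) (PTime.const (Var.c (.D t 0))) :
    PTime fun a => cCp (.E t (B a).n) (.c (.D t 0)))

theorem c_Hck (t b : Bool) (h : PB B) (hf : PTime f) :
    PTime (fun a => con (B a) (.H (.ck t b (f a)))) :=
  (p_cAnd (pv_z hf) (pv_x (pr (h.gnx hf) (h.gck hf))) (pv_ck hf) :
    PTime fun a => cAnd (.z t b (f a))
      (.x (.r (!t) (!b) ((B a).nx.getD (f a) 0) (kck (B a) (f a)))) (.ck t b (f a)))

theorem c_HF (t : Bool) (hf : PTime f) : PTime (fun a => con (B a) (.H (.F t (f a)))) :=
  (p_cOr (pv_ck hf) (pv_ck hf) (pv_F hf) :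
    PTime fun a => cOr (.ck t true (f a)) (.ck t false (f a)) (.F t (f a)))

theorem c_HE (t : Bool) (hf : PTime f) : PTime (fun a => con (B a) (.H (.E t (f a + 1)))) :=
  (p_cOr (pv_E hf) (pv_F hf) (pv_E hf.succ) :
    PTime fun a => cOr (.E t (f a)) (.F t (f a)) (.E t (f a + 1)))

theorem c_Hp (s : Bool) (h : PB B) (hf : PTime f) :
    PTime (fun a => con (B a) (.H (.p s (f a)))) :=
  (p_cOr (pv_x (pr (h.gim hf) (h.gp hf))) (pv_x (pD hf.succ)) (pv_p hf) :
    PTime fun a => cOr (.x (.r s false ((B a).im.getD (f a) 0) (kp (B a) (f a))))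
      (.x (.D (!s) (f a + 1))) (.p s (f a)))

theorem c_Hu (s : Bool) (h : PB B) (hf : PTime f) :
    PTime (fun a => con (B a) (.H (.u s (f a)))) :=
  (p_cAnd (pv_x (pr (h.gco hf) (h.gu hf))) (pv_p hf) (pv_u hf) :
    PTime fun a => cAnd (.x (.r s true ((B a).co.getD (f a) 0) (ku (B a) (f a))))
      (.p s (f a)) (.u s (f a)))

theorem c_Hal (s : Bool) (hf : PTime f) : PTime (fun a => con (B a) (.H (.al s (f a)))) :=
  (p_cAnd (pv_x (pY ((PTime.const 2).mul hf))) (pv_u hf) (pv_al hf) :
    PTime fun a => cAnd (.x (.Y s (2 * f a))) (.u s (f a)) (.al s (f a)))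

theorem c_Hbe (s : Bool) (h : PB B) (hf : PTime f) :
    PTime (fun a => con (B a) (.H (.be s (f a)))) :=
  (p_cAnd (pv_x (pY ((PTime.const 2).mul hf).succ)) (pv_x (pr (h.gim hf) (h.gbe hf)))
    (pv_be hf) :
    PTime fun a => cAnd (.x (.Y s (2 * f a + 1)))
      (.x (.r s true ((B a).im.getD (f a) 0) (kbe (B a) (f a)))) (.be s (f a)))

theorem c_Hq (hf : PTime f) : PTime (fun a => con (B a) (.H (.q (f a)))) :=
  (p_cOr (pv_al hf) (pv_al hf) (pv_q hf) :
    PTime fun a => cOr (.al false (f a)) (.al true (f a)) (.q (f a)))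

/-! ### constraints which determine variables -/

theorem p_flagAt (h : PB B) (hf : PTime f) : PTime (fun a => flagAt (B a) (f a)) := by
  have h1 : PTime (fun a => f a / R (B a) / R (B a)) := (hf.div h.pR).div h.pR
  have h2 : PTime (fun a => f a / R (B a) % R (B a)) := (hf.div h.pR).mod h.pR
  have h3 : PTime (fun a => f a % R (B a)) := hf.mod h.pR
  have hr : ∀ k, PTime (fun a => decide (f a / R (B a) / R (B a) = k ∧
      f a / R (B a) % R (B a) < (B a).N ∧ f a % R (B a) < K (B a))) := fun k =>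
    PTime.andP (PTime.eq h1 (PTime.const k)) (PTime.andP (PTime.lt h2 h.pN) (PTime.lt h3 h.pK))
  have hD : ∀ k, PTime (fun a => decide (f a / R (B a) / R (B a) = k ∧
      f a / R (B a) % R (B a) ≤ (B a).m ∧ f a % R (B a) = 0)) := fun k =>
    PTime.andP (PTime.eq h1 (PTime.const k)) (PTime.andP (PTime.le h2 h.pm)
      (PTime.eq h3 (PTime.const 0)))
  have hY : ∀ k, PTime (fun a => decide (f a / R (B a) / R (B a) = k ∧
      f a / R (B a) % R (B a) < 2 * (B a).m ∧ f a % R (B a) = 0)) := fun k =>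
    PTime.andP (PTime.eq h1 (PTime.const k)) (PTime.andP
      (PTime.lt h2 ((PTime.const 2).mul h.pm)) (PTime.eq h3 (PTime.const 0)))
  unfold flagAt
  exact PTime.iteP (hr 24) (pr h2 h3).some (PTime.iteP (hr 25) (pr h2 h3).some
    (PTime.iteP (hr 26) (pr h2 h3).some (PTime.iteP (hr 27) (pr h2 h3).some
    (PTime.iteP (hD 28) (pD h2).some (PTime.iteP (hD 29) (pD h2).some
    (PTime.iteP (hY 30) (pY h2).some (PTime.iteP (hY 31) (pY h2).some (PTime.const none))))))))

theorem c_ph (h : PB B) (hf : PTime f) : PTime (fun a => con (B a) (.P (.ph (f a)))) := by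
  have h1 : PTime (fun a => f a - 1) := hf.sub (PTime.const 1)
  have h2 : PTime (fun a => f a - 1 + 1) := h1.succ
  have h3 : PTime (fun p : α × Ch => f p.1 - 1) := h1.comp PTime.fst
  have h4 : PTime (fun p : α × Ch => f p.1 - 1 + 1) := h2.comp PTime.fst
  have e := PTime.iteP (PTime.eq hf (PTime.const 0))
    (PTime.const ([[(.ph 0, true)]] : Con))
    (PTime.option_cases (p_flagAt h h1) (p_cEq (pv_ph h1) (pv_ph h2))
      (p_cNor (pv_ph h3) (pv_f PTime.snd) (pv_ph h4)))
  refine e.of_eq fun a => ?_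
  show _ = pcon (B a) (.ph (f a))
  rcases hk : f a with _ | k
  · rfl
  · rw [if_neg (Nat.succ_ne_zero k)]
    simp only [pcon, Nat.add_sub_cancel, hk]
    cases flagAt (B a) k <;> rfl

theorem c_mp (hf : PTime f) : PTime (fun a => con (B a) (.P (.mp (f a)))) :=
  (p_cEq (pv_m hf) (pv_mp hf) : PTime fun a => cEq (.m (f a)) (.mp (f a)))

theorem c_L (t : Bool) (h : PB B) (hf : PTime f) :
    PTime (fun a => con (B a) (.P (.L t (f a)))) :=
  (PTime.iteP (PTime.eq hf h.pm) (c_one (p_one (pv_L hf) true))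
    (p_cNor (pv_L hf.succ) (pv_tau hf) (pv_L hf)) :
    PTime fun a => if f a = (B a).m then [[(.L t (f a), true)]] else
      cNor (.L t (f a + 1)) (.tau t (f a)) (.L t (f a)))

theorem c_rho (hf : PTime f) : PTime (fun a => con (B a) (.P (.rho (f a)))) :=
  (p_cNor (pv_L hf.succ) (pv_L hf.succ) (pv_rho hf) :
    PTime fun a => cNor (.L false (f a + 1)) (.L true (f a + 1)) (.rho (f a)))

theorem c_yc (b : Bool) : PTime (fun a => con (B a) (.P (.yc b))) := by
  cases b
  · exact (PTime.const (cEq .y (.yc false)) : PTime fun _ : α => _)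
  · exact (PTime.const (cEq (.yc false) (.yc true)) : PTime fun _ : α => _)

theorem c_UJ (t : Bool) (h : PB B) (hf : PTime f) :
    PTime (fun a => con (B a) (.P (.UJ t (f a)))) := by
  have h1 : PTime (fun a => f a - 1) := hf.sub (PTime.const 1)
  have hp : PTime (fun a => 2 * Z (B a) + 2 + t.toNat) :=
    (((PTime.const 2).mul h.pZ).add (PTime.const 2)).add (PTime.const _)
  refine (PTime.iteP (PTime.eq hf (PTime.const 0))
    (p_cOl (PTime.const (.yc t)) t (pv_ph hp) (PTime.const (.UJ t 0)))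
    (p_cEq (pv_UJ (s := t) h1) (pv_UJ (s := t) h1.succ))).of_eq fun a => ?_
  show _ = pcon (B a) (.UJ t (f a))
  cases f a <;> rfl

theorem c_UE (t : Bool) (h : PB B) (hf : PTime f) :
    PTime (fun a => con (B a) (.P (.UE t (f a)))) := by
  have h1 : PTime (fun a => f a - 1) := hf.sub (PTime.const 1)
  have hp : PTime (fun a => 2 * Z (B a) + 4 + t.toNat) :=
    (((PTime.const 2).mul h.pZ).add (PTime.const 4)).add (PTime.const _)
  refine (PTime.iteP (PTime.eq hf (PTime.const 0))
    (p_cOl (PTime.const (.e t)) false (pv_ph hp) (PTime.const (.UE t 0)))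
    (p_cEq (pv_UE (s := t) h1) (pv_UE (s := t) h1.succ))).of_eq fun a => ?_
  show _ = pcon (B a) (.UE t (f a))
  cases f a <;> rfl

theorem c_UW (t : Bool) (h : PB B) (hf : PTime f) :
    PTime (fun a => con (B a) (.P (.UW t (f a)))) := by
  have h1 : PTime (fun a => f a - 1) := hf.sub (PTime.const 1)
  have hp : PTime (fun a => 2 * Z (B a) + 6 + t.toNat) :=
    (((PTime.const 2).mul h.pZ).add (PTime.const 6)).add (PTime.const _)
  refine (PTime.iteP (PTime.eq hf (PTime.const 0))
    (p_cOl (PTime.const (.A t)) true (pv_ph hp) (PTime.const (.UW t 0)))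
    (p_cEq (pv_UW (s := t) h1) (pv_UW (s := t) h1.succ))).of_eq fun a => ?_
  show _ = pcon (B a) (.UW t (f a))
  cases f a <;> rfl

theorem c_UQ (hf : PTime f) : PTime (fun a => con (B a) (.P (.UQ (f a)))) := by
  have h1 : PTime (fun a => f a - 1) := hf.sub (PTime.const 1)
  refine (PTime.iteP (PTime.eq hf (PTime.const 0))
    (PTime.const (cNor (.UW false 0) (.UW true 0) (.UQ 0)))
    (p_cEq (pv_UQ h1) (pv_UQ h1.succ))).of_eq fun a => ?_
  show _ = pcon (B a) (.UQ (f a))
  cases f a <;> rfl

theorem c_La (t b : Bool) : PTime (fun a => con (B a) (.P (.La t b))) := by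
  cases b
  · exact (PTime.const (cEq (.L t 0) (.La t false)) : PTime fun _ : α => _)
  · exact (PTime.const (cEq (.La t false) (.La t true)) : PTime fun _ : α => _)

theorem c_A (s : Bool) : PTime (fun a => con (B a) (.P (.A s))) :=
  (PTime.const (cAn (.La s false) (.La (!s) true) (.A s)) : PTime fun _ : α => _)

theorem c_xi (t b : Bool) (h : PB B) (hf : PTime f) :
    PTime (fun a => con (B a) (.P (.xi t b (f a)))) :=
  (p_cEq (pv_x (pr (h.gnx hf) (h.gxi hf))) (pv_xi hf) :
    PTime fun a => cEq (.x (.r t b ((B a).nx.getD (f a) 0) (kxi (B a) (f a))))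
      (.xi t b (f a)))

/-! ### lists -/

/-- the constraints with these names are computed in polynomial time -/
def CL (B : α → Base) (l : α → List Pos) : Prop := PTime fun a => (l a).map (con (B a))

theorem CL.nil : CL B (fun _ => []) := (PTime.const ([] : List Con) : PTime fun _ : α => _)

theorem CL.cons {p : α → Pos} {l : α → List Pos} (hp : PTime fun a => con (B a) (p a))
    (hl : CL B l) : CL B (fun a => p a :: l a) := PTime.cons hp hl

theorem CL.append {l l' : α → List Pos} (h : CL B l) (h' : CL B l') :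
    CL B (fun a => l a ++ l' a) :=
  (PTime.append h h').of_eq fun a => by rw [List.map_append]

theorem CL.ite {c : α → Prop} [DecidablePred c] {l l' : α → List Pos}
    (hc : PTime fun a => decide (c a)) (h : CL B l) (h' : CL B l') :
    CL B (fun a => if c a then l a else l' a) :=
  (PTime.iteP hc h h').of_eq fun a => by
    show _ = List.map (con (B a)) (if c a then l a else l' a)
    split_ifs <;> rfl

theorem CL.range {u : α → ℕ} (hu : PU u) {l : α × ℕ → List Pos}
    (hl : CL (fun p : α × ℕ => B p.1) l) :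
    CL B (fun a => (List.range (u a)).flatMap fun i => l (a, i)) := by
  refine (PTime.flatMap (g := fun a i => (l (a, i)).map (con (B a))) hu.range hl).of_eq
    fun a => ?_
  rw [List.map_flatMap]

theorem CL.map {β : Type} [Enc β] {u : α → List β} (hu : PTime u) {p : α × β → Pos}
    (hp : PTime fun x => con (B x.1) (p x)) :
    CL B (fun a => (u a).map fun i => p (a, i)) := by
  refine (PTime.map (g := fun a i => con (B a) (p (a, i))) hu hp).of_eq fun a => ?_
  rw [List.map_map]
  rfl

theorem p_chs (h : PB B) {k : ℕ → ℕ} {u : α → ℕ} (h1 : PU fun a => k ((B a).m + 1))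
    (h2 : PU fun a => k (2 * (B a).m)) (hu : PU u) : PTime fun a => chs (B a) k (u a) := by
  have e1 : ∀ s g, PTime (fun a => (List.range (B a).N).flatMap fun w =>
      (List.range (u a)).map (Ch.r s g w)) := fun s g =>
    PTime.flatMap (g := fun (a : α) (w : ℕ) => (List.range (u a)).map (Ch.r s g w)) h.uN.range
      (PTime.map (g := fun (p : α × ℕ) (c : ℕ) => Ch.r s g p.2 c)
        (PU.comp hu PTime.fst).range (pr (PTime.snd' PTime.fst) PTime.snd))
  have e2 : ∀ t, PTime (fun a => (List.range (k ((B a).m + 1))).map (Ch.D t)) := fun t =>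
    PTime.map (g := fun (_ : α) (i : ℕ) => Ch.D t i) h1.range (pD PTime.snd)
  have e3 : ∀ s, PTime (fun a => (List.range (k (2 * (B a).m))).map (Ch.Y s)) := fun s =>
    PTime.map (g := fun (_ : α) (i : ℕ) => Ch.Y s i) h2.range (pY PTime.snd)
  unfold chs
  exact ((PTime.constFlatMap _ fun s _ => PTime.constFlatMap _ fun g _ => e1 s g).append
    (PTime.constFlatMap _ fun t _ => e2 t)).append (PTime.constFlatMap _ fun s _ => e3 s)

theorem p_chV (h : PB B) : PTime fun a => chV (B a) :=
  p_chs (k := fun k => k) h (h.um.add (PU.const 1)) ((PU.const 2).mul h.um) h.uK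

theorem p_chE (h : PB B) : PTime fun a => chE (B a) :=
  p_chs (k := fun k => k + 1) h ((h.um.add (PU.const 1)).add (PU.const 1))
    (((PU.const 2).mul h.um).add (PU.const 1)) (h.uK.add (PU.const 1))

theorem p_rails (h : PB B) : PTime fun a => rails (B a) := by
  have hn1 : PU (fun a => (B a).n + 1) := h.n.add (PU.const 1)
  have e0 : ∀ {u : α → ℕ} (F : ℕ → Var), PU u → (PTime fun p : α × ℕ => F p.2) →
      PTime (fun a => (List.range (u a)).map F) := fun F hu hF =>
    PTime.map (g := fun (_ : α) (i : ℕ) => F i) hu.range hF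
  unfold rails
  refine PTime.flatten ?_
  refine PTime.cons ?_ (PTime.cons ?_ (PTime.cons ?_ (PTime.cons ?_ (PTime.cons ?_
    (PTime.cons ?_ (PTime.cons ?_ (PTime.cons ?_ (PTime.cons ?_ (PTime.cons ?_
    (PTime.cons ?_ (PTime.const [])))))))))))
  · exact PTime.map (g := fun _ i => Var.c i) (p_chE h) (pv_c PTime.snd)
  · exact PTime.map (g := fun _ i => Var.d i) (p_chV h) (pv_d PTime.snd)
  · exact PTime.map (g := fun _ i => Var.x i) (p_chV h) (pv_x PTime.snd)
  · exact PTime.constFlatMap _ fun t _ => PTime.constFlatMap _ fun g _ =>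
      e0 _ h.n (pv_ck PTime.snd)
  · exact PTime.constFlatMap _ fun t _ => e0 _ h.n (pv_F PTime.snd)
  · exact PTime.constFlatMap _ fun t _ => e0 _ hn1 (pv_E PTime.snd)
  · exact PTime.constFlatMap _ fun t _ => e0 _ h.um (pv_p PTime.snd)
  · exact PTime.constFlatMap _ fun t _ => e0 _ h.um (pv_u PTime.snd)
  · exact PTime.constFlatMap _ fun t _ => e0 _ h.um (pv_al PTime.snd)
  · exact PTime.constFlatMap _ fun t _ => e0 _ h.um (pv_be PTime.snd)
  · exact e0 _ h.um (pv_q PTime.snd)

theorem CL_segR (h : PB B) (s : Bool) : CL B (fun a => segR (B a) s) := by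
  have h' : PB (fun p : α × ℕ => B p.1) := h.fst
  have hi : PTime (fun p : α × ℕ => p.2) := PTime.snd
  have hi1 : PTime (fun p : (α × ℕ) × ℕ => p.1.2) := PTime.snd' PTime.fst
  have hi2 : PTime (fun p : (α × ℕ) × ℕ => p.2) := PTime.snd
  refine CL.range h.uN (l := fun p : α × ℕ => (if p.2 < (B p.1).n then [] else
    [Pos.H (.c (.r s false p.2 0)), Pos.H (.c (.r s true p.2 0))]) ++
    (List.range (K (B p.1))).flatMap fun k => [Pos.N (.r s false p.2 k),
      Pos.N (.r s true p.2 k), Pos.O (.r s false p.2 k), Pos.O (.r s true p.2 k)]) ?_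
  refine CL.append (CL.ite (PTime.lt hi h'.pn) CL.nil
    (CL.cons (c_Hg s false h' hi) (CL.cons (c_Hg s true h' hi) CL.nil))) ?_
  refine CL.range h'.uK (l := fun q : (α × ℕ) × ℕ => [Pos.N (.r s false q.1.2 q.2),
    Pos.N (.r s true q.1.2 q.2), Pos.O (.r s false q.1.2 q.2), Pos.O (.r s true q.1.2 q.2)]) ?_
  exact CL.cons (c_N (pr hi1 hi2)) (CL.cons (c_N (pr hi1 hi2)) (CL.cons (c_O (pr hi1 hi2))
    (CL.cons (c_O (pr hi1 hi2)) CL.nil)))

/-- the constraints of a segment are computed in polynomial time -/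
theorem p_segs (h : PB B) : PTime fun a => (segs (B a)).map (List.map (con (B a))) := by
  have h' : PB (fun p : α × ℕ => B p.1) := h.fst
  have hi : PTime (fun p : α × ℕ => p.2) := PTime.snd
  have hj : PTime (fun p : α × ℕ => (B p.1).m - 1 - p.2) :=
    (h'.pm.sub (PTime.const 1)).sub hi
  have u2 : PU (fun a => 2 * (B a).m) := (PU.const 2).mul h.um
  have u3 : PU (fun a => (B a).m + 1) := h.um.add (PU.const 1)
  have u4 : PU (fun a => 2 * Z (B a) + 8) := ((PU.const 2).mul h.uZ).add (PU.const 8)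
  unfold segs
  simp only [List.map_cons, List.map_nil]
  refine PTime.cons ?_ (PTime.cons ?_ (PTime.cons ?_ (PTime.cons ?_ (PTime.cons ?_
    (PTime.cons ?_ (PTime.cons ?_ (PTime.cons ?_ (PTime.cons ?_ (PTime.cons ?_
    (PTime.cons ?_ (PTime.cons ?_ (PTime.cons ?_ (PTime.cons ?_ (PTime.cons ?_
    (PTime.cons ?_ (PTime.cons ?_ (PTime.cons ?_ (PTime.cons ?_ (PTime.cons ?_
    (PTime.cons ?_ (PTime.cons ?_ (PTime.cons ?_ (PTime.cons ?_ (PTime.cons ?_
    (PTime.cons ?_ (PTime.cons ?_ (PTime.cons ?_ (PTime.cons ?_ (PTime.cons ?_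
    (PTime.cons ?_ (PTime.const [])))))))))))))))))))))))))))))))
  · exact CL.range h.n (l := fun p : α × ℕ => [.HL false p.2, .HL true p.2])
      (CL.cons (c_HL _ hi) (CL.cons (c_HL _ hi) CL.nil))
  · exact CL.range h.n (l := fun p : α × ℕ => [.HZ false p.2, .HZ true p.2])
      (CL.cons (c_HZ _ hi) (CL.cons (c_HZ _ hi) CL.nil))
  · exact CL_segR h false
  · exact CL_segR h true
  · exact CL.range h.n (l := fun p : α × ℕ => [.H (.ck false false p.2),
      .H (.ck false true p.2), .H (.ck true false p.2), .H (.ck true true p.2)])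
      (CL.cons (c_Hck _ _ h' hi) (CL.cons (c_Hck _ _ h' hi) (CL.cons (c_Hck _ _ h' hi)
        (CL.cons (c_Hck _ _ h' hi) CL.nil))))
  · exact CL.range h.n (l := fun p : α × ℕ => [.H (.F false p.2), .H (.F true p.2)])
      (CL.cons (c_HF _ hi) (CL.cons (c_HF _ hi) CL.nil))
  · exact CL.range h.n (l := fun p : α × ℕ => [.H (.E false (p.2 + 1)), .H (.E true (p.2 + 1))])
      (CL.cons (c_HE _ hi) (CL.cons (c_HE _ hi) CL.nil))
  · exact CL.cons (c_HD _ h) (CL.cons (c_HD _ h) CL.nil)
  · exact CL.range u3 (l := fun p : α × ℕ => [.N (.D false p.2), .N (.D true p.2),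
      .O (.D false p.2), .O (.D true p.2)])
      (CL.cons (c_N (pD hi)) (CL.cons (c_N (pD hi)) (CL.cons (c_O (pD hi))
        (CL.cons (c_O (pD hi)) CL.nil))))
  · exact CL.range h.um (l := fun p : α × ℕ => [.H (.p false p.2), .H (.p true p.2)])
      (CL.cons (c_Hp _ h' hi) (CL.cons (c_Hp _ h' hi) CL.nil))
  · exact CL.range h.um (l := fun p : α × ℕ => [.H (.u false p.2), .H (.u true p.2)])
      (CL.cons (c_Hu _ h' hi) (CL.cons (c_Hu _ h' hi) CL.nil))
  · exact CL.cons c_Hy CL.nil
  · exact CL.range u2 (l := fun p : α × ℕ => [.N (.Y false p.2), .N (.Y true p.2),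
      .O (.Y false p.2), .O (.Y true p.2)])
      (CL.cons (c_N (pY hi)) (CL.cons (c_N (pY hi)) (CL.cons (c_O (pY hi))
        (CL.cons (c_O (pY hi)) CL.nil))))
  · exact CL.range h.um (l := fun p : α × ℕ => [.H (.al false p.2), .H (.al true p.2)])
      (CL.cons (c_Hal _ hi) (CL.cons (c_Hal _ hi) CL.nil))
  · exact CL.range h.um (l := fun p : α × ℕ => [.H (.be false p.2), .H (.be true p.2)])
      (CL.cons (c_Hbe _ h' hi) (CL.cons (c_Hbe _ h' hi) CL.nil))
  · exact CL.map h.um.range (p := fun p : α × ℕ => .H (.q p.2)) (c_Hq hi)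
  · exact CL.map (p_chV h) (p := fun p : α × Ch => .Df p.2) (c_Df PTime.snd)
  · exact CL.map u4.range (p := fun p : α × ℕ => .P (.ph p.2)) (c_ph h' hi)
  · exact CL.cons (c_L _ h h.pm) (CL.cons (c_L _ h h.pm) CL.nil)
  · exact CL.range h.um (l := fun p : α × ℕ => segD ((B p.1).m - 1 - p.2))
      (CL.cons (c_rho hj) (CL.cons (c_hold hj) (CL.cons (c_M h' hj) (CL.cons (c_mp hj)
        (CL.cons (c_T1 _ hj) (CL.cons (c_T1 _ hj) (CL.cons (c_T2 _ hj) (CL.cons (c_T2 _ hj)
        (CL.cons (c_L _ h' hj) (CL.cons (c_L _ h' hj) CL.nil))))))))))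
  · exact CL.cons c_Yd (CL.cons (c_yc _) (CL.cons (c_yc _) CL.nil))
  · exact CL.range h.uZ1 (l := fun p : α × ℕ => [.P (.UJ false p.2), .P (.UJ true p.2)])
      (CL.cons (c_UJ _ h' hi) (CL.cons (c_UJ _ h' hi) CL.nil))
  · exact CL.cons (c_K1 _) (CL.cons (c_K1 _) (CL.cons (c_K2 _) (CL.cons (c_K2 _) CL.nil)))
  · exact CL.range h.uZ1 (l := fun p : α × ℕ => [.P (.UE false p.2), .P (.UE true p.2)])
      (CL.cons (c_UE _ h' hi) (CL.cons (c_UE _ h' hi) CL.nil))
  · exact CL.cons (c_La _ _) (CL.cons (c_La _ _) (CL.cons (c_La _ _) (CL.cons (c_La _ _)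
      (CL.cons (c_A _) (CL.cons (c_A _) CL.nil)))))
  · exact CL.range h.uZ1 (l := fun p : α × ℕ => [.P (.UW false p.2), .P (.UW true p.2)])
      (CL.cons (c_UW _ h' hi) (CL.cons (c_UW _ h' hi) CL.nil))
  · exact CL.map h.uZ1.range (p := fun p : α × ℕ => .P (.UQ p.2)) (c_UQ hi)
  · exact CL.map (p_rails h) (p := fun p : α × Var => .Lp p.2) (c_Lp h.fst PTime.snd)
  · exact CL.range h.n (l := fun p : α × ℕ => [.P (.xi false false p.2),
      .P (.xi false true p.2), .P (.xi true false p.2), .P (.xi true true p.2)])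
      (CL.cons (c_xi _ _ h' hi) (CL.cons (c_xi _ _ h' hi) (CL.cons (c_xi _ _ h' hi)
        (CL.cons (c_xi _ _ h' hi) CL.nil))))
  · exact CL.range h.n (l := fun p : α × ℕ => [.Lz false false p.2, .Lz false true p.2,
      .Lz true false p.2, .Lz true true p.2])
      (CL.cons (c_Lz _ _ hi) (CL.cons (c_Lz _ _ hi) (CL.cons (c_Lz _ _ hi)
        (CL.cons (c_Lz _ _ hi) CL.nil))))
  · exact CL.range h.n (l := fun p : α × ℕ => [.Ld false p.2, .Ld true p.2])
      (CL.cons (c_Ld _ hi) (CL.cons (c_Ld _ hi) CL.nil))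

theorem ptime_numC {β : Type} [Enc β] {B : β → Base} (h : PB B) {c : β → Con} (hc : PTime c) :
    PTime (fun a => numC (B a) (c a)) := by
  have h' : PB (fun p : β × Part => B p.1) := h.fst
  have h'' : PB (fun p : (β × Part) × (Var × Bool) => B p.1.1) := h'.fst
  have h1 : PTime (fun p : (β × Part) × (Var × Bool) => p.2.1) := PTime.fst' PTime.snd
  have h2 : PTime (fun p : (β × Part) × (Var × Bool) => p.2.2) := PTime.snd' PTime.snd
  exact PTime.map (g := fun (a : β) (P : Part) => P.map fun l => (num (B a) l.1, l.2)) hc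
    (PTime.map (g := fun (p : β × Part) (l : Var × Bool) => (num (B p.1) l.1, l.2)) PTime.snd
      ((h''.num h1).pair h2))

theorem ptime_all (h : PB B) : PTime (fun a => allC (B a)) := by
  have h1 := PTime.flatten (p_segs h)
  have h' : PB (fun p : α × Con => B p.1) := h.fst
  have h2 := PTime.reverse (PTime.map (g := fun (a : α) (c : Con) => numC (B a) c) h1
    (ptime_numC h' PTime.snd))
  refine h2.of_eq fun a => ?_
  rw [← List.map_flatten, List.map_map]
  rfl

end

end PtbAux

theorem ptime_allC {α : Type} [Enc α] {B : α → Base} (hn : PU fun a => (B a).n)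
    (hG : PTime fun a => (B a).G) (hnx : PTime fun a => (B a).nx)
    (hco : PTime fun a => (B a).co) (him : PTime fun a => (B a).im) :
    PU (fun a => Nv (B a)) ∧ PTime (fun a => allC (B a)) :=
  ⟨PtbAux.PB.uNv ⟨hn, hG, hnx, hco, him⟩, PtbAux.ptime_all ⟨hn, hG, hnx, hco, him⟩⟩

end Pool.Agent.MPa0a715.BT
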