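import Pool.Agent.Lib.MP_a0a715_lc_BT.Drv

/-!
# The rails in general
-/

namespace Pool.Agent.MPa0a715.BT

open Pool.Agent.MPa0a715
open Pool.Agent.MPa0a715.BI (Base)

variable {B : Base} {X : Var → Bool}

namespace RailAux

/-- lowering a rail is no problem for a constraint that does not contain its negation -/
theorem ni_low {g : Var} {c : Con} (h : X g = true) (hc : ∀ P ∈ c, ((g, false) : Var × Bool) ∉ P) :
    NI X (fl X g) c := by
  intro P hP h1
  by_cases hO : ∃ l ∈ P, l.1 = g
  · obtain ⟨l, hl, rfl⟩ := hO
    exfalso
    unfold pv at h1
    rw [List.all_eq_true] at h1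
    have h2 := h1 l hl
    rw [fl_self, h] at h2
    have h3 : l.2 = false := by
      revert h2
      cases l.2 <;> simp
    apply hc P hP
    rw [← h3]
    exact hl
  · rwa [pv_fl (fun l hl e => hO ⟨l, hl, e⟩)] at h1

theorem ni_high {g : Var} {c : Con} (h : X g = false)
    (hc : ∀ P ∈ c, ((g, true) : Var × Bool) ∉ P) : NI X (fl X g) c := by
  intro P hP h1
  by_cases hO : ∃ l ∈ P, l.1 = g
  · obtain ⟨l, hl, rfl⟩ := hO
    exfalso
    unfold pv at h1
    rw [List.all_eq_true] at h1
    have h2 := h1 l hl
    rw [fl_self, h] at h2
    have h3 : l.2 = true := by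
      revert h2
      cases l.2 <;> simp
    apply hc P hP
    rw [← h3]
    exact hl
  · rwa [pv_fl (fun l hl e => hO ⟨l, hl, e⟩)] at h1

theorem occ_rail {g : Var} (hr : Rail g) : occ B g = [own B g, rdr B g, .Lp g] := by
  cases g <;> first | exact hr.elim | rfl

/-! ### a rail is up if the most important constraint containing it says so -/

theorem up_and (hB : B.Ok) (hX : Mn B X) {g a b : Var} {p : Pos} (hp : PVld B p)
    (hc : con B p = cAnd a b g)
    (h : ∀ d ∈ occ B g, ¬ klt (key B d) (key B p)) (hf : (X a && X b) = true) :
    X g = true := by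
  rw [Bool.and_eq_true] at hf
  by_contra hcon
  rw [Bool.not_eq_true] at hcon
  have h1 : cv X (con B p) = true := by
    rw [hc]
    simp [cv, pv, cAnd, hf.1, hf.2, hcon]
  have h2 := drive hB hX (v := g) hp h1 fun d hd _ _ hk => absurd hk (h d hd)
  rw [hc] at h2
  simp [cv, pv, cAnd, fl_self, hcon] at h2

theorem up_or (hB : B.Ok) (hX : Mn B X) {g a b : Var} {p : Pos} (hp : PVld B p)
    (hc : con B p = cOr a b g)
    (h : ∀ d ∈ occ B g, ¬ klt (key B d) (key B p)) (hf : (X a || X b) = true) :
    X g = true := by
  rw [Bool.or_eq_true] at hf
  by_contra hcon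
  rw [Bool.not_eq_true] at hcon
  have h1 : cv X (con B p) = true := by
    rw [hc]
    rcases hf with hf | hf <;> simp [cv, pv, cOr, hf, hcon]
  have h2 := drive hB hX (v := g) hp h1 fun d hd _ _ hk => absurd hk (h d hd)
  rw [hc] at h2
  simp [cv, pv, cOr, fl_self, hcon] at h2

theorem up_cp (hB : B.Ok) (hX : Mn B X) {g a : Var} {p : Pos} (hp : PVld B p)
    (hc : con B p = cCp a g)
    (h : ∀ d ∈ occ B g, ¬ klt (key B d) (key B p)) (hf : X a = true) :
    X g = true := by
  by_contra hcon
  rw [Bool.not_eq_true] at hcon
  have h1 : cv X (con B p) = true := by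
    rw [hc]
    simp [cv, pv, cCp, hf, hcon]
  have h2 := drive hB hX (v := g) hp h1 fun d hd _ _ hk => absurd hk (h d hd)
  rw [hc] at h2
  simp [cv, pv, cCp, fl_self, hcon] at h2

/-! ### lowering a rail which need not be up is no problem for its own constraint -/

/-- `c` is satisfied when `g` is lowered unless `g` has to be up -/
structure Low (B : Base) (X : Var → Bool) (g : Var) (c : Con) : Prop where
  neg : ∀ P ∈ c, ((g, true) : Var × Bool) ∉ P
  low : ∀ P ∈ c, ((g, false) : Var × Bool) ∈ P → pv (fl X g) P = true → frc B X g = true

theorem low_nil {g : Var} : Low B X g [] :=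
  ⟨fun _ h => absurd h List.not_mem_nil, fun _ h => absurd h List.not_mem_nil⟩

theorem low_and {g a b : Var} (hf : frc B X g = (X a && X b)) (ha : a ≠ g) (hb : b ≠ g) :
    Low B X g (cAnd a b g) := by
  constructor
  · intro P hP
    simp only [cAnd, List.mem_singleton] at hP
    subst hP
    simp [Ne.symm ha, Ne.symm hb]
  · intro P hP _ h1
    simp only [cAnd, List.mem_singleton] at hP
    subst hP
    simp only [pv, List.all_cons, List.all_nil, Bool.and_true, Bool.and_eq_true] at h1
    rw [fl_ne _ ha, fl_ne _ hb] at h1
    rw [hf, Bool.and_eq_true]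
    simp only [beq_true] at h1
    exact ⟨h1.1, h1.2.1⟩

theorem low_or {g a b : Var} (hf : frc B X g = (X a || X b)) (ha : a ≠ g) (hb : b ≠ g) :
    Low B X g (cOr a b g) := by
  constructor
  · intro P hP
    simp only [cOr, List.mem_cons, List.not_mem_nil, or_false] at hP
    rcases hP with rfl | rfl <;> simp [Ne.symm ha, Ne.symm hb]
  · intro P hP _ h1
    simp only [cOr, List.mem_cons, List.not_mem_nil, or_false] at hP
    rw [hf, Bool.or_eq_true]
    rcases hP with rfl | rfl
    · simp only [pv, List.all_cons, List.all_nil, Bool.and_true, Bool.and_eq_true] at h1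
      rw [fl_ne _ ha] at h1
      simp only [beq_true] at h1
      exact Or.inl h1.1
    · simp only [pv, List.all_cons, List.all_nil, Bool.and_true, Bool.and_eq_true] at h1
      rw [fl_ne _ hb] at h1
      simp only [beq_true] at h1
      exact Or.inr h1.1

theorem low_cp {g a : Var} (hf : frc B X g = X a) (ha : a ≠ g) : Low B X g (cCp a g) := by
  constructor
  · intro P hP
    simp only [cCp, List.mem_singleton] at hP
    subst hP
    simp [Ne.symm ha]
  · intro P hP _ h1
    simp only [cCp, List.mem_singleton] at hP
    subst hP
    simp only [pv, List.all_cons, List.all_nil, Bool.and_true, Bool.and_eq_true] at h1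
    rw [fl_ne _ ha] at h1
    rw [hf]
    simp only [beq_true] at h1
    exact h1.1

/-- a constraint `V → c true`, `not V → c false` -/
theorem low_two {v g0 g1 : Var} {b : Bool} (h0 : v ≠ g0) (h1 : v ≠ g1) (h01 : g0 ≠ g1)
    (hf : frc B X (if b then g1 else g0) = (X v == b)) :
    Low B X (if b then g1 else g0) [[(v, true), (g1, false)], [(v, false), (g0, false)]] := by
  constructor
  · intro P hP
    simp only [List.mem_cons, List.not_mem_nil, or_false] at hP
    cases b <;> rcases hP with rfl | rfl <;> simp [h0.symm, h1.symm]
  · intro P hP hm h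
    simp only [List.mem_cons, List.not_mem_nil, or_false] at hP
    rw [hf]
    cases b
    · simp only [Bool.false_eq_true, if_false] at hm h ⊢
      rcases hP with rfl | rfl
      · simp [h01, h0.symm] at hm
      · simp only [pv, List.all_cons, List.all_nil, Bool.and_true, Bool.and_eq_true] at h
        rw [fl_ne _ h0] at h
        exact h.1
    · simp only [if_true] at hm h ⊢
      rcases hP with rfl | rfl
      · simp only [pv, List.all_cons, List.all_nil, Bool.and_true, Bool.and_eq_true] at h
        rw [fl_ne _ h1] at h
        exact h.1
      · simp [h01.symm, h1.symm] at hm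

/-- the second constraint of a place -/
theorem low_N {a : Ch} {g : Var} (hg : g = .c (nxt a) ∨ g = .x a)
    (hf : frc B X g = X (.d a)) :
    Low B X g [[(.d a, true), (.c (nxt a), false)], [(.d a, true), (.x a, false)]] := by
  constructor
  · intro P hP
    simp only [List.mem_cons, List.not_mem_nil, or_false] at hP
    rcases hg with rfl | rfl <;> rcases hP with rfl | rfl <;> simp
  · intro P hP _ h
    simp only [List.mem_cons, List.not_mem_nil, or_false] at hP
    rw [hf]
    rcases hP with rfl | rfl
    · simp only [pv, List.all_cons, List.all_nil, Bool.and_true, Bool.and_eq_true] at h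
      rw [fl_ne _ (by rcases hg with rfl | rfl <;> simp)] at h
      simpa using h.1
    · simp only [pv, List.all_cons, List.all_nil, Bool.and_true, Bool.and_eq_true] at h
      rw [fl_ne _ (by rcases hg with rfl | rfl <;> simp)] at h
      simpa using h.1

theorem own_low {g : Var} (hr : Rail g) : Low B X g (con B (own B g)) := by
  cases g with
  | V => exact hr.elim
  | z => exact hr.elim
  | f => exact hr.elim
  | m => exact hr.elim
  | mp => exact hr.elim
  | tau => exact hr.elim
  | L => exact hr.elim
  | rho => exact hr.elim
  | y => exact hr.elim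
  | yc => exact hr.elim
  | e => exact hr.elim
  | ph => exact hr.elim
  | UJ => exact hr.elim
  | UE => exact hr.elim
  | UW => exact hr.elim
  | UQ => exact hr.elim
  | La => exact hr.elim
  | A => exact hr.elim
  | xi => exact hr.elim
  | c a =>
    rcases a with ⟨s, g, w, _ | k⟩ | ⟨t, _ | k⟩ | ⟨s, _ | k⟩
    · by_cases hw : w < B.n
      · have h1 : con B (own B (.c (.r s g w 0))) = [[(.V s w, true), (.c (.r s true w 0), false)],
            [(.V s w, false), (.c (.r s false w 0), false)]] := by
          simp only [own, if_pos hw]
          rfl
        rw [h1]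
        have h2 := low_two (B := B) (X := X) (v := .V s w) (g0 := .c (.r s false w 0))
          (g1 := .c (.r s true w 0)) (b := g) (by simp) (by simp) (by simp)
          (by cases g <;> simp [frc, hw])
        cases g <;> exact h2
      · have h1 : con B (own B (.c (.r s g w 0))) = gcon B s g w := by
          simp only [own, if_neg hw]
          rfl
        rw [h1]
        have hf : frc B X (.c (.r s g w 0)) = frc B X (.c (.r s g w 0)) := rfl
        conv_rhs at hf => simp only [frc, if_neg hw]
        unfold gcon
        rcases hG : B.G[w - B.n]? with _ | G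
        · exact low_nil
        · rw [hG] at hf
          cases G with
          | and i j =>
            cases g
            · exact low_or hf (by simp) (by simp)
            · exact low_and hf (by simp) (by simp)
          | or i j =>
            cases g
            · exact low_and hf (by simp) (by simp)
            · exact low_or hf (by simp) (by simp)
          | not i => exact low_cp hf (by simp)
    · exact low_N (a := .r s g w k) (Or.inl rfl) rfl
    · exact low_cp rfl (by simp)
    · exact low_N (a := .D t k) (Or.inl rfl) rfl
    · have h2 := low_two (B := B) (X := X) (v := .y) (g0 := .c (.Y false 0))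
          (g1 := .c (.Y true 0)) (b := s) (by simp) (by simp) (by simp)
          (by cases s <;> simp [frc])
      cases s <;> exact h2
    · exact low_N (a := .Y s k) (Or.inl rfl) rfl
  | d a =>
    constructor
    · intro P hP
      simp only [own, con, List.mem_cons, List.not_mem_nil, or_false] at hP
      subst hP
      simp
    · intro P hP _ h
      simp only [own, con, List.mem_cons, List.not_mem_nil, or_false] at hP
      subst hP
      simp only [pv, List.all_cons, List.all_nil, Bool.and_true, Bool.and_eq_true] at h
      rw [fl_ne _ (show Var.c a ≠ Var.d a by simp), fl_ne _ (show Var.f a ≠ Var.d a by simp)] at h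
      simp only [frc]
      obtain ⟨h1, -, h3⟩ := h
      simp only [beq_true, beq_false, Bool.not_eq_true'] at h1 h3
      rw [h1, h3]
      rfl
  | x a => exact low_N (a := a) (Or.inr rfl) rfl
  | ck t g i => exact low_and rfl (by simp) (by simp)
  | F t i => exact low_or rfl (by simp) (by simp)
  | E t i =>
    cases i with
    | zero => exact low_nil
    | succ i => exact low_or rfl (by simp) (by simp)
  | p s j => exact low_or rfl (by simp) (by simp)
  | u s j => exact low_and rfl (by simp) (by simp)
  | al s j => exact low_and rfl (by simp) (by simp)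
  | be s j => exact low_and rfl (by simp) (by simp)
  | q j => exact low_or rfl (by simp) (by simp)

/-- the constraint which reads a rail does not contain its negation -/
theorem reader {g : Var} (hr : Rail g) (hk : klt (key B (rdr B g)) (key B (.Lp g))) :
    ∀ P ∈ con B (rdr B g), ((g, false) : Var × Bool) ∉ P := by
  cases g with
  | V => exact hr.elim
  | z => exact hr.elim
  | f => exact hr.elim
  | m => exact hr.elim
  | mp => exact hr.elim
  | tau => exact hr.elim
  | L => exact hr.elim
  | rho => exact hr.elim
  | y => exact hr.elim
  | yc => exact hr.elim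
  | e => exact hr.elim
  | ph => exact hr.elim
  | UJ => exact hr.elim
  | UE => exact hr.elim
  | UW => exact hr.elim
  | UQ => exact hr.elim
  | La => exact hr.elim
  | A => exact hr.elim
  | xi => exact hr.elim
  | c a => simp [rdr, con]
  | d a => simp [rdr, con]
  | x a =>
    rcases a with ⟨s, g, w, k⟩ | ⟨t, k⟩ | ⟨s, k⟩
    · simp only [rdr] at hk ⊢
      unfold rdx at hk ⊢
      have hgc : ∀ g' w', ∀ P ∈ con B (.H (.c (.r s g' w' 0))),
          ((.x (.r s g w k), false) : Var × Bool) ∉ P := by
        intro g' w'
        simp only [con, hcon]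
        unfold gcon
        rcases B.G[w' - B.n]? with _ | G
        · simp
        · cases G with
          | and i j => cases g' <;> simp [cOr, cAnd]
          | or i j => cases g' <;> simp [cOr, cAnd]
          | not i => simp [cCp]
      split_ifs at hk ⊢ with h1 h2 h3 h4 h5
      · split
        · exact hgc _ _
        · exact hgc _ _
      · simp [con, hcon, cAnd]
      · simp [key, klt] at hk
      · simp [con, hcon, cOr]
      · simp [con, hcon, cAnd]
      · simp [con, hcon, cAnd]
    · simp only [rdr]
      split_ifs <;> simp [con, hcon, cOr]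
    · simp only [rdr]
      split_ifs <;> simp [con, hcon, cAnd]
  | ck t g i => simp [rdr, con, hcon, cOr]
  | F t i => simp [rdr, con, hcon, cOr]
  | E t i =>
    simp only [rdr]
    split_ifs <;> simp [con, hcon, cOr, cCp]
  | p s j => simp [rdr, con, hcon, cAnd]
  | u s j => simp [rdr, con, hcon, cAnd]
  | al s j => simp [rdr, con, hcon, cOr]
  | be s j => simp [rdr, con]
  | q j => simp [rdr, con, cOr]

theorem cv_push {X : Var → Bool} {g v : Var} (hv : v ≠ g) :
    cv X (cEq v g) = (X g != X v) ∧ cv (fl X g) (cEq v g) = ((!X g) != X v) := by
  simp only [cv, pv, cEq, List.any_cons, List.any_nil, List.all_cons, List.all_nil]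
  rw [fl_self, fl_ne _ hv]
  cases X g <;> cases X v <;> simp

theorem upv_ne {g : Var} (hr : Rail g) : upv B g ≠ g := by
  cases g with
  | c a => cases a <;> simp [upv]
  | d a => cases a <;> simp [upv]
  | x a => cases a <;> simp [upv]
  | _ => first | exact hr.elim | simp [upv]

end RailAux

open RailAux

theorem N_ok (hB : B.Ok) (hX : Mn B X) {a : Ch} (ha : ChV B a) (h : X (.d a) = true) :
    X (.c (nxt a)) = true ∧ X (.x a) = true := by
  by_contra hcon
  have h1 : cv X (con B (.N a)) = true := by
    simp only [con, cv, pv, List.any_cons, List.any_nil, List.all_cons, List.all_nil, h]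
    revert hcon
    cases X (.c (nxt a)) <;> cases X (.x a) <;> simp
  have h2 := drive hB hX (v := .d a) (p := .N a) ha h1 fun d hd _ _ hk => by
    rw [occ_rail (g := .d a) trivial] at hd
    simp only [own, rdr, List.mem_cons, List.not_mem_nil, or_false] at hd
    exfalso
    rcases hd with rfl | rfl | rfl
    · rcases a with ⟨s, g, w, k⟩ | ⟨t, k⟩ | ⟨s, k⟩ <;> simp only [key, klt] at hk
      · have := NumAux.toNat_le g
        omega
      · have := NumAux.toNat_le t
        omega
      · have := NumAux.toNat_le s
        omega
    · simp [klt] at hk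
    · rcases a with ⟨s, g, w, k⟩ | ⟨t, k⟩ | ⟨s, k⟩ <;> simp only [key, klt] at hk
      · have := NumAux.toNat_le s
        omega
      · omega
      · omega
  simp [con, cv, pv, fl_self, h] at h2

theorem O_ok (hB : B.Ok) (hX : Mn B X) {a : Ch} (ha : ChV B a) (h : X (.c a) = true)
    (h' : X (.f a) = false) : X (.d a) = true := by
  by_contra hcon
  rw [Bool.not_eq_true] at hcon
  have h1 : cv X (con B (.O a)) = true := by
    simp [con, cv, pv, h, h', hcon]
  have h2 := drive hB hX (v := .f a) (p := .O a) ha h1 fun d hd _ _ hk => by
    simp only [occ, List.mem_cons, List.not_mem_nil, or_false] at hd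
    exfalso
    rcases hd with rfl | rfl | rfl
    · simp [klt] at hk
    · rcases a with ⟨s, g, w, k⟩ | ⟨t, k⟩ | ⟨s, k⟩ <;> simp only [key, klt] at hk
      · have := NumAux.toNat_le s
        omega
      · omega
      · omega
    · rcases a with ⟨s, g, w, k⟩ | ⟨t, k⟩ | ⟨s, k⟩ <;> simp only [key, klt] at hk
      · have := NumAux.toNat_le s
        omega
      · omega
      · omega
  simp [con, cv, pv, fl_self, h'] at h2

theorem f_up (hB : B.Ok) (hX : Mn B X) {a : Ch} (ha : ChV B a) (h : X (.f a) = true) :
    X (.c a) = true ∧ X (.d a) = false := by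
  by_contra hcon
  have h1 : cv X (con B (.Df a)) = true := by
    simp [con, cv, pv, h]
  have h2 := drive hB hX (v := .f a) (p := .Df a) ha h1 fun d hd _ _ hk => by
    simp only [occ, List.mem_cons, List.not_mem_nil, or_false] at hd
    rcases hd with rfl | rfl | rfl
    · intro P hP h3
      exfalso
      simp only [con, List.mem_cons, List.not_mem_nil, or_false] at hP
      subst hP
      simp only [pv, List.all_cons, List.all_nil, Bool.and_true, Bool.and_eq_true] at h3
      rw [fl_ne _ (show Var.c a ≠ Var.f a by simp), fl_ne _ (show Var.d a ≠ Var.f a by simp)] at h3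
      simp only [beq_true, beq_false, Bool.not_eq_true'] at h3
      exact hcon ⟨h3.1, h3.2.1⟩
    · simp [klt] at hk
    · simp [key, klt] at hk
  simp [con, cv, pv, fl_self, h] at h2

theorem rail_up (hB : B.Ok) (hX : Mn B X) {g : Var} (hr : Rail g) (hv : Vld B g)
    (h : frc B X g = true) : X g = true := by
  cases g with
  | V => exact hr.elim
  | z => exact hr.elim
  | f => exact hr.elim
  | m => exact hr.elim
  | mp => exact hr.elim
  | tau => exact hr.elim
  | L => exact hr.elim
  | rho => exact hr.elim
  | y => exact hr.elim
  | yc => exact hr.elim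
  | e => exact hr.elim
  | ph => exact hr.elim
  | UJ => exact hr.elim
  | UE => exact hr.elim
  | UW => exact hr.elim
  | UQ => exact hr.elim
  | La => exact hr.elim
  | A => exact hr.elim
  | xi => exact hr.elim
  | c a =>
    rcases a with ⟨s, g, w, _ | k⟩ | ⟨t, _ | k⟩ | ⟨s, _ | k⟩
    · by_cases hw : w < B.n
      · by_contra hcon
        rw [Bool.not_eq_true] at hcon
        simp only [frc, if_pos hw, beq_iff_eq] at h
        have h1 : cv X (con B (.HL s w)) = true := by
          cases g <;> simp [con, cv, pv, h, hcon]
        have h2 := drive hB hX (v := .c (.r s g w 0)) (p := .HL s w) hw h1 fun d hd _ _ hk => by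
          rw [occ_rail (g := .c (.r s g w 0)) trivial] at hd
          simp only [own, if_pos hw, rdr, List.mem_cons, List.not_mem_nil, or_false] at hd
          exfalso
          rcases hd with rfl | rfl | rfl <;> simp [key, klt] at hk
        cases g <;> simp [con, cv, pv, fl_self, fl_ne, h, hcon] at h2
      · have hfirst : ∀ d ∈ occ B (.c (.r s g w 0)),
            ¬ klt (key B d) (key B (.H (.c (.r s g w 0)))) := by
          intro d hd
          rw [occ_rail (g := .c (.r s g w 0)) trivial] at hd
          simp only [own, if_neg hw, rdr, List.mem_cons, List.not_mem_nil, or_false] at hd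
          have := NumAux.toNat_le s
          rcases hd with rfl | rfl | rfl <;> simp only [key, klt] <;> omega
        have hvw : PVld B (.H (.c (.r s g w 0))) := ⟨by omega, hv.1⟩
        have hcon : con B (.H (.c (.r s g w 0))) = gcon B s g w := rfl
        simp only [frc, if_neg hw] at h
        unfold gcon at hcon
        rcases hG : B.G[w - B.n]? with _ | G
        · rw [hG] at h
          exact absurd h (by simp)
        · rw [hG] at h hcon
          cases G with
          | and i j =>
            cases g
            · exact up_or hB hX hvw hcon hfirst h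
            · exact up_and hB hX hvw hcon hfirst h
          | or i j =>
            cases g
            · exact up_and hB hX hvw hcon hfirst h
            · exact up_or hB hX hvw hcon hfirst h
          | not i => exact up_cp hB hX hvw hcon hfirst h
    · exact (N_ok hB hX (a := .r s g w k) ⟨hv.1, hv.2⟩ h).1
    · refine up_cp hB hX (p := .H (.c (.D t 0))) trivial rfl ?_ h
      intro d hd
      rw [occ_rail (g := .c (.D t 0)) trivial] at hd
      simp only [own, rdr, List.mem_cons, List.not_mem_nil, or_false] at hd
      rcases hd with rfl | rfl | rfl <;> simp [key, klt]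
    · exact (N_ok hB hX (a := .D t k) (Nat.le_of_succ_le_succ hv) h).1
    · by_contra hcon
      rw [Bool.not_eq_true] at hcon
      simp only [frc, beq_iff_eq] at h
      have h1 : cv X (con B .Hy) = true := by
        cases s <;> simp [con, cv, pv, h, hcon]
      have h2 := drive hB hX (v := .c (.Y s 0)) (p := .Hy) trivial h1 fun d hd _ _ hk => by
        rw [occ_rail (g := .c (.Y s 0)) trivial] at hd
        simp only [own, rdr, List.mem_cons, List.not_mem_nil, or_false] at hd
        exfalso
        rcases hd with rfl | rfl | rfl <;> simp [key, klt] at hk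
      cases s <;> simp [con, cv, pv, fl_self, fl_ne, h, hcon] at h2
    · exact (N_ok hB hX (a := .Y s k) hv h).1
  | d a =>
    simp only [frc, Bool.and_eq_true, Bool.not_eq_true'] at h
    exact O_ok hB hX hv h.1 h.2
  | x a => exact (N_ok hB hX hv h).2
  | ck t g i =>
    refine up_and hB hX (p := .H (.ck t g i)) hv rfl ?_ h
    intro d hd
    rw [occ_rail (g := .ck t g i) trivial] at hd
    simp only [own, rdr, List.mem_cons, List.not_mem_nil, or_false] at hd
    rcases hd with rfl | rfl | rfl <;> simp [key, klt]
  | F t i =>
    refine up_or hB hX (p := .H (.F t i)) hv rfl ?_ h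
    intro d hd
    rw [occ_rail (g := .F t i) trivial] at hd
    simp only [own, rdr, List.mem_cons, List.not_mem_nil, or_false] at hd
    rcases hd with rfl | rfl | rfl <;> simp [key, klt]
  | E t i =>
    cases i with
    | zero => exact absurd h (by simp [frc])
    | succ i =>
      refine up_or hB hX (p := .H (.E t (i + 1))) hv rfl ?_ h
      intro d hd
      rw [occ_rail (g := .E t (i + 1)) trivial] at hd
      simp only [own, rdr, List.mem_cons, List.not_mem_nil, or_false] at hd
      rcases hd with rfl | rfl | rfl
      · simp [key, klt]
      · split_ifs <;> simp [key, klt]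
      · simp [key, klt]
  | p s j =>
    refine up_or hB hX (p := .H (.p s j)) hv rfl ?_ h
    intro d hd
    rw [occ_rail (g := .p s j) trivial] at hd
    simp only [own, rdr, List.mem_cons, List.not_mem_nil, or_false] at hd
    rcases hd with rfl | rfl | rfl <;> simp [key, klt]
  | u s j =>
    refine up_and hB hX (p := .H (.u s j)) hv rfl ?_ h
    intro d hd
    rw [occ_rail (g := .u s j) trivial] at hd
    simp only [own, rdr, List.mem_cons, List.not_mem_nil, or_false] at hd
    rcases hd with rfl | rfl | rfl <;> simp [key, klt]
  | al s j =>
    refine up_and hB hX (p := .H (.al s j)) hv rfl ?_ h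
    intro d hd
    rw [occ_rail (g := .al s j) trivial] at hd
    simp only [own, rdr, List.mem_cons, List.not_mem_nil, or_false] at hd
    rcases hd with rfl | rfl | rfl <;> simp [key, klt]
  | be s j =>
    refine up_and hB hX (p := .H (.be s j)) hv rfl ?_ h
    intro d hd
    rw [occ_rail (g := .be s j) trivial] at hd
    simp only [own, rdr, List.mem_cons, List.not_mem_nil, or_false] at hd
    rcases hd with rfl | rfl | rfl <;> simp [key, klt]
  | q j =>
    refine up_or hB hX (p := .H (.q j)) hv rfl ?_ h
    intro d hd
    rw [occ_rail (g := .q j) trivial] at hd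
    simp only [own, rdr, List.mem_cons, List.not_mem_nil, or_false] at hd
    rcases hd with rfl | rfl | rfl <;> simp [key, klt]

theorem rail_down (hB : B.Ok) (hX : Mn B X) {g : Var} (hr : Rail g) (hv : Vld B g)
    (h : X (upv B g) = false) : X g = frc B X g := by
  cases hf : frc B X g with
  | true => exact rail_up hB hX hr hv hf
  | false =>
    by_contra hcon
    rw [Bool.not_eq_false] at hcon
    obtain ⟨c1, c2⟩ := cv_push (X := X) (upv_ne (B := B) hr)
    rw [hcon, h] at c1 c2
    have h3 := drive hB hX (v := g) (p := .Lp g) ⟨hr, hv⟩ c1 fun d hd hdv hO hk => by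
      rw [occ_rail hr] at hd
      simp only [List.mem_cons, List.not_mem_nil, or_false] at hd
      rcases hd with rfl | rfl | rfl
      · have ho := own_low (B := B) (X := X) hr
        intro P hP h4
        by_cases hO' : ∃ l ∈ P, l.1 = g
        · obtain ⟨z, hz, rfl⟩ := hO'
          have h5 : z.2 = false := by
            have := ho.neg P hP
            cases h6 : z.2 with
            | false => rfl
            | true =>
              exfalso
              apply this
              rw [← h6]
              exact hz
          have h6 := ho.low P hP (by rw [← h5]; exact hz) h4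
          rw [hf] at h6
          exact absurd h6 (by simp)
        · rwa [pv_fl (fun l hl e => hO' ⟨l, hl, e⟩)] at h4
      · exact ni_low hcon (reader hr hk)
      · simp [klt] at hk
    change cv (fl X g) (cEq (upv B g) g) = true at h3
    rw [c2] at h3
    exact absurd h3 (by simp)

/-- a rail that is pushed up is up if the constraint which reads it allows it -/
theorem rail_push (hB : B.Ok) (hX : Mn B X) {g : Var} (hr : Rail g) (hv : Vld B g)
    (h : X (upv B g) = true)
    (h' : PVld B (rdr B g) → Occ g (con B (rdr B g)) →
      klt (key B (rdr B g)) (key B (.Lp g)) →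
      cv (Function.update X g true) (con B (rdr B g)) = false) :
    X g = true := by
  by_contra hcon
  rw [Bool.not_eq_true] at hcon
  obtain ⟨c1, c2⟩ := cv_push (X := X) (upv_ne (B := B) hr)
  rw [hcon, h] at c1 c2
  have hfl : fl X g = Function.update X g true := by
    unfold fl
    rw [hcon]
    rfl
  have h3 := drive hB hX (v := g) (p := .Lp g) ⟨hr, hv⟩ c1 fun d hd hdv hO hk => by
    rw [occ_rail hr] at hd
    simp only [List.mem_cons, List.not_mem_nil, or_false] at hd
    rcases hd with rfl | rfl | rfl
    · exact ni_high hcon (own_low (B := B) (X := X) hr).neg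
    · have h5 := h' hdv hO hk
      rw [← hfl] at h5
      intro P hP h6
      unfold cv at h5
      rw [List.any_eq_false] at h5
      exact absurd h6 (h5 P hP)
    · simp [klt] at hk
  change cv (fl X g) (cEq (upv B g) g) = true at h3
  rw [c2] at h3
  exact absurd h3 (by simp)

end Pool.Agent.MPa0a715.BT
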