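import Pool.Agent.Lib.MP_a0a715_lc_BT.Up

/-!
# The rails of a slot which is reset are all up
-/

namespace Pool.Agent.MPa0a715.BT

open Pool.Agent.MPa0a715
open Pool.Agent.MPa0a715.BI (Base)

variable {B : Base} {X : Var → Bool}

namespace SluAux

/-- descending induction -/
theorem desc {P : ℕ → Prop} {m : ℕ} (h0 : P m) (h : ∀ k < m, P (k + 1) → P k) :
    ∀ k ≤ m, P k := by
  intro k hk
  obtain ⟨d, rfl⟩ : ∃ d, m = k + d := ⟨m - k, by omega⟩
  clear hk
  induction d generalizing k with
  | zero => exact h0
  | succ d ih =>
    refine h k (by omega) ?_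
    refine ih (k := k + 1) ?_ ?_
    · rw [show k + 1 + d = k + (d + 1) by omega]
      exact h0
    · intro j hj
      exact h j (by omega)

/-- a gate which reads a rail has a larger number -/
theorem gate_lt (hB : B.Ok) {t g g' : Bool} {w w' k : ℕ} (h1 : B.n ≤ w') (h2 : w' < B.N)
    (hO : Occ (.x (.r t g w k)) (gcon B t g' w')) : w < w' := by
  obtain ⟨l, rfl⟩ : ∃ l, w' = B.n + l := ⟨w' - B.n, by omega⟩
  have hkl : l < B.G.length := by unfold Base.N at h2; omega
  have hrefs := hB.gates l hkl
  unfold gcon at hO
  rw [Nat.add_sub_cancel_left, List.getElem?_eq_getElem hkl] at hO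
  generalize B.G[l] = G at hrefs hO
  unfold Occ at hO
  cases G with
  | and i j =>
    have hi := hrefs i (by simp [Gate.refs])
    have hj := hrefs j (by simp [Gate.refs])
    cases g'
    · simp only [Bool.false_eq_true, if_false, cOr, List.mem_cons,
        List.not_mem_nil, or_false, exists_eq_or_imp, exists_eq_left, Var.x.injEq, Ch.r.injEq,
        reduceCtorEq] at hO
      omega
    · simp only [if_true, cAnd, List.mem_cons,
        List.not_mem_nil, or_false, exists_eq_or_imp, exists_eq_left, Var.x.injEq, Ch.r.injEq,
        reduceCtorEq] at hO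
      omega
  | or i j =>
    have hi := hrefs i (by simp [Gate.refs])
    have hj := hrefs j (by simp [Gate.refs])
    cases g'
    · simp only [Bool.false_eq_true, if_false, cAnd, List.mem_cons,
        List.not_mem_nil, or_false, exists_eq_or_imp, exists_eq_left, Var.x.injEq, Ch.r.injEq,
        reduceCtorEq] at hO
      omega
    · simp only [if_true, cOr, List.mem_cons,
        List.not_mem_nil, or_false, exists_eq_or_imp, exists_eq_left, Var.x.injEq, Ch.r.injEq,
        reduceCtorEq] at hO
      omega
  | not i =>
    have hi := hrefs i (by simp [Gate.refs])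
    simp only [cCp, List.mem_cons,
        List.not_mem_nil, or_false, exists_eq_or_imp, exists_eq_left, Var.x.injEq, Ch.r.injEq,
        reduceCtorEq] at hO
    omega

open UpAux in
/-- a gate whose rail is up allows the rails it reads to be up -/
theorem cv_gate {g v : Var} {t g' : Bool} {w' : ℕ} (h : X (.c (.r t g' w' 0)) = true)
    (hv : v = g) : cv (Function.update X g true) (gcon B t g' w') = false := by
  subst hv
  unfold gcon
  rcases B.G[w' - B.n]? with _ | G
  · rfl
  · cases G with
    | and i j =>
      cases g'
      · exact cv_or h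
      · exact cv_and h
    | or i j =>
      cases g'
      · exact cv_and h
      · exact cv_or h
    | not i => exact cv_cp h

/-- all rails of a place are up, from the end of the chain -/
theorem chain_step (hB : B.Ok) (hX : Mn B X) {a : Ch} (ha : ChV B a) (hd : dir B X a = true)
    (h1 : X (.c (nxt a)) = true) (h2 : X (.x a) = true) (he : ChE B a) :
    X (.d a) = true ∧ X (.c a) = true := by
  have h3 := up_d hB hX ha hd h1 h2
  exact ⟨h3, up_c hB hX he hd fun _ => h3⟩

end SluAux

open SluAux

/-- all rails of slot `t`, and those which compare the other slot with it, are up -/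
theorem slot_up (hB : B.Ok) (hX : Mn B X) {t : Bool} (h1 : dir B X (.r t false 0 0) = true)
    (h2 : dir B X (.D (!t) 0) = true)
    (h3 : ∀ j < B.m, X (.x (.Y t (2 * j))) = false ∨ X (.al t j) = true)
    (h4 : ∀ j < B.m, X (.x (.Y t (2 * j + 1))) = false ∨ X (.be t j) = true) :
    (∀ k ≤ B.m, X (.d (.D (!t) k)) = true) ∧
    ∀ g, ∀ w < B.N, ∀ k < K B, X (.d (.r t g w k)) = true ∧ X (.c (.r t g w k)) = true := by
  have hu : ∀ j < B.m, X (.u t j) = true := fun j hj => up_u hB hX hj h1 (h3 j hj)
  have hp : ∀ j < B.m, X (.p t j) = true := fun j hj => up_p hB hX hj h1 (hu j hj)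
  have hD' : ∀ k ≤ B.m, X (.c (.D (!t) (k + 1))) = true →
      X (.d (.D (!t) k)) = true ∧ X (.c (.D (!t) k)) = true := by
    intro k hk ih
    refine chain_step hB hX (a := .D (!t) k) hk h2 ih (up_xD hB hX hk h2 fun h => ?_)
      (show k ≤ B.m + 1 by omega)
    rw [Bool.not_not]
    exact hp _ (by omega)
  have hDc : ∀ k ≤ B.m + 1, X (.c (.D (!t) k)) = true := by
    refine desc ?_ ?_
    · exact up_c hB hX (a := .D (!t) (B.m + 1)) (le_refl (B.m + 1)) h2 fun h => by
        exfalso
        change B.m + 1 ≤ B.m at h
        omega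
    · intro k hk ih
      exact (hD' k (by omega) ih).2
  have hD : ∀ k ≤ B.m, X (.d (.D (!t) k)) = true := fun k hk =>
    (hD' k hk (hDc (k + 1) (by omega))).1
  refine ⟨hD, ?_⟩
  have hE : ∀ i ≤ B.n, X (.E (!t) i) = true := by
    refine desc ?_ ?_
    · exact up_E hB hX le_rfl h2 (fun h => absurd h (lt_irrefl _)) fun _ => hDc 0 (by omega)
    · intro k hk ih
      exact up_E hB hX hk.le h2 (fun _ => ih) fun h => absurd h (by omega)
  have hF : ∀ i < B.n, X (.F (!t) i) = true := fun i hi =>
    up_F hB hX hi h2 (hE (i + 1) (by omega))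
  have hck : ∀ g, ∀ i < B.n, X (.ck (!t) g i) = true := fun g i hi =>
    up_ck hB hX hi h2 (hF i hi)
  -- the rails of the slot
  have main : ∀ d ≤ B.N, ∀ w < B.N, B.N - d ≤ w → ∀ k < K B, ∀ g,
      X (.d (.r t g w k)) = true ∧ X (.c (.r t g w k)) = true := by
    intro d
    induction d with
    | zero => intro _ w hw h; omega
    | succ d ih =>
      intro hd w hw hle
      have ih' : ∀ w' < B.N, w < w' → ∀ g, X (.c (.r t g w' 0)) = true :=
        fun w' hw' h g => (ih (by omega) w' hw' (by omega) 0 (by rw [NumAux.K_eq]; omega) g).2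
      have step : ∀ g, ∀ k < K B, X (.c (.r t g w (k + 1))) = true →
          X (.d (.r t g w k)) = true ∧ X (.c (.r t g w k)) = true := by
        intro g k hk hc
        have hg : ∀ g' w', PVld B (.H (.c (.r t g' w' 0))) →
            Occ (.x (.r t g w k)) (con B (.H (.c (.r t g' w' 0)))) →
            cv (Function.update X (.x (.r t g w k)) true) (con B (.H (.c (.r t g' w' 0)))) =
              false := by
          intro g' w' hv hO
          obtain ⟨hv1, hv2⟩ := hv
          exact cv_gate (v := .x (.r t g w k)) (ih' w' hv2 (gate_lt hB hv1 hv2 hO) g') rfl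
        refine chain_step hB hX (a := .r t g w k) ⟨hw, hk⟩ h1 hc
          (up_xr hB hX hw hk h1 ?_) ⟨hw, hk.le⟩
        unfold rdx
        split_ifs with c1 c2 c3 c4 c5
        · split
          · exact fun hv hO _ => hg _ _ hv hO
          · exact fun hv hO _ => hg _ _ hv hO
        · exact fun hv _ _ => UpAux.cv_and (hck _ _ hv)
        · intro _ _ hlt
          simp [key, klt] at hlt
        · exact fun hv _ _ => UpAux.cv_or (hp _ hv)
        · exact fun hv _ _ => UpAux.cv_and (hu _ hv)
        · intro hv _ _
          rcases h4 _ hv with h5 | h5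
          · simp only [con, hcon, cAnd, cv, pv, List.any_cons, List.any_nil, List.all_cons,
              List.all_nil]
            rw [Function.update_of_ne (show Var.x (.Y t _) ≠ Var.x (.r t g w k) by simp), h5]
            simp
          · exact UpAux.cv_and h5
      have hcc : ∀ g, ∀ k ≤ K B, X (.c (.r t g w k)) = true := by
        intro g
        refine desc ?_ ?_
        · refine up_c hB hX (a := .r t g w (K B)) ⟨hw, le_rfl⟩ h1 fun h => ?_
          exact absurd h.2 (lt_irrefl _)
        · intro k hk ih
          exact (step g k hk ih).2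
      intro k hk g
      exact step g k hk (hcc g (k + 1) hk)
  exact fun g w hw k hk => main B.N le_rfl w hw (by omega) k hk g

end Pool.Agent.MPa0a715.BT
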