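import Pool.Agent.Lib.MP_a0a715_lc_BT.SynDefs
import Pool.Agent.Lib.MP_a0a715_lc_BW.PT
import Pool.Agent.Lib.MP_a0a715_lc_TL.PTRed

/-!
# Circuits with separate gates for each output
-/

namespace Pool.Agent.MPa0a715.BT

open Pool.Agent.MPa0a715 Pool.Agent.PolyTime
open Pool.Agent.MPa0a715.TL (NT)

/-- literal `l` of part `k` of constraint `j`; missing ones are replaced by the first one -/
def lit (Cs : List (List NT)) (j k l : ℕ) : ℕ × Bool :=
  ((Cs.getD j []).getD k ((Cs.getD j []).getD 0 [])).getD l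
    (((Cs.getD j []).getD k ((Cs.getD j []).getD 0 [])).getD 0 (0, true))

/-- gate number `r` of the gates of constraint `j` -/
def gt (N : ℕ) (Cs : List (List NT)) (j r : ℕ) : Gate :=
  if r < 9 then
    if (lit Cs j (r / 3) (r % 3)).2 = true then
      .and (lit Cs j (r / 3) (r % 3)).1 (lit Cs j (r / 3) (r % 3)).1
    else .not (lit Cs j (r / 3) (r % 3)).1
  else if r < 12 then .and (N + 17 * j + 3 * (r - 9)) (N + 17 * j + (3 * (r - 9) + 1))
  else if r < 15 then .and (N + 17 * j + (r - 3)) (N + 17 * j + (3 * (r - 12) + 2))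
  else if r < 16 then .or (N + 17 * j + 12) (N + 17 * j + 13)
  else .or (N + 17 * j + 15) (N + 17 * j + 14)

/-- the circuit with `N` inputs whose outputs are the disjunctions of the conjunctions in the
lists in `Cs` (at most three conjunctions of at most three literals each) -/
def syn (N : ℕ) (Cs : List (List NT)) : Circuit :=
  ⟨N, (List.range (17 * Cs.length)).map fun q => gt N Cs (q / 17) (q % 17),
    (List.range Cs.length).map fun j => N + 17 * j + 16⟩

/-- the lists are in order -/
def COk3 (N : ℕ) (Cs : List (List NT)) : Prop :=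
  ∀ c ∈ Cs, c ≠ [] ∧ c.length ≤ 3 ∧ ∀ T ∈ c, T ≠ [] ∧ T.length ≤ 3 ∧ ∀ p ∈ T, p.1 < N

namespace SynAux

variable {N : ℕ} {Cs : List (List NT)}

theorem getD_mem {α : Type} {c : List α} (hc : c ≠ []) (i : ℕ) (d : α) :
    c.getD i (c.getD 0 d) ∈ c := by
  have h0 : 0 < c.length := List.length_pos_iff.2 hc
  by_cases hi : i < c.length
  · rw [List.getD_eq_getElem _ _ hi]
    exact List.getElem_mem hi
  · rw [List.getD_eq_default _ _ (by omega), List.getD_eq_getElem _ _ h0]
    exact List.getElem_mem h0

theorem cs_mem {j : ℕ} (hj : j < Cs.length) : Cs.getD j [] ∈ Cs := by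
  rw [List.getD_eq_getElem _ _ hj]
  exact List.getElem_mem hj

/-- part `k` of constraint `j` -/
def prt (Cs : List (List NT)) (j k : ℕ) : NT := (Cs.getD j []).getD k ((Cs.getD j []).getD 0 [])

theorem prt_mem (h : COk3 N Cs) {j : ℕ} (hj : j < Cs.length) (k : ℕ) :
    prt Cs j k ∈ Cs.getD j [] := getD_mem (h _ (cs_mem hj)).1 k _

theorem lit_mem (h : COk3 N Cs) {j : ℕ} (hj : j < Cs.length) (k l : ℕ) :
    lit Cs j k l ∈ prt Cs j k :=
  getD_mem ((h _ (cs_mem hj)).2.2 _ (prt_mem h hj k)).1 l _

theorem lit_lt (h : COk3 N Cs) {j : ℕ} (hj : j < Cs.length) (k l : ℕ) :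
    (lit Cs j k l).1 < N :=
  ((h _ (cs_mem hj)).2.2 _ (prt_mem h hj k)).2.2 _ (lit_mem h hj k l)

/-- a disjunction with repeated parts -/
theorem any_three {α : Type} {c : List α} {d : α} (hc : c ≠ []) (hl : c.length ≤ 3)
    (f : α → Prop) :
    (f (c.getD 0 (c.getD 0 d)) ∨ f (c.getD 1 (c.getD 0 d)) ∨ f (c.getD 2 (c.getD 0 d))) ↔
      ∃ T ∈ c, f T := by
  constructor
  · rintro (h | h | h)
    · exact ⟨_, getD_mem hc 0 d, h⟩
    · exact ⟨_, getD_mem hc 1 d, h⟩
    · exact ⟨_, getD_mem hc 2 d, h⟩
  · rintro ⟨T, hT, h⟩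
    obtain ⟨i, hi, rfl⟩ := List.getElem_of_mem hT
    have hi3 : i < 3 := by omega
    have e : c.getD i (c.getD 0 d) = (c)[i] := List.getD_eq_getElem _ _ hi
    rw [← e] at h
    interval_cases i
    · exact Or.inl h
    · exact Or.inr (Or.inl h)
    · exact Or.inr (Or.inr h)

/-- a conjunction with repeated parts -/
theorem all_three {α : Type} {c : List α} {d : α} (hc : c ≠ []) (hl : c.length ≤ 3)
    (f : α → Prop) :
    (f (c.getD 0 (c.getD 0 d)) ∧ f (c.getD 1 (c.getD 0 d)) ∧ f (c.getD 2 (c.getD 0 d))) ↔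
      ∀ T ∈ c, f T := by
  have h := any_three (d := d) hc hl fun a => ¬ f a
  constructor
  · intro h1 T hT
    by_contra h2
    have := h.2 ⟨T, hT, h2⟩
    tauto
  · intro h1
    exact ⟨h1 _ (getD_mem hc 0 d), h1 _ (getD_mem hc 1 d), h1 _ (getD_mem hc 2 d)⟩

theorem gates_length : (syn N Cs).gates.length = 17 * Cs.length := by
  unfold syn
  simp

theorem outs_length : (syn N Cs).outs.length = Cs.length := by
  unfold syn
  simp

theorem synGates_getElem {q : ℕ} (hq : q < (syn N Cs).gates.length) :
    (syn N Cs).gates[q] = gt N Cs (q / 17) (q % 17) := by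
  unfold syn
  simp

theorem gate_eq {j r : ℕ} (hj : j < Cs.length) (hr : r < 17) :
    ∃ hq : 17 * j + r < (syn N Cs).gates.length,
      (syn N Cs).gates[17 * j + r] = gt N Cs j r := by
  have hq : 17 * j + r < (syn N Cs).gates.length := by rw [gates_length]; omega
  refine ⟨hq, ?_⟩
  rw [synGates_getElem, show (17 * j + r) / 17 = j by omega, show (17 * j + r) % 17 = r by omega]

theorem outs_getD {j : ℕ} (hj : j < Cs.length) : (syn N Cs).outs.getD j 0 = N + 17 * j + 16 := by
  rw [List.getD_eq_getElem _ _ (by rw [outs_length]; exact hj)]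
  unfold syn
  simp

/-- the wires read by a gate: an input which occurs in the constraint, or an earlier gate for
the same constraint -/
theorem gt_refs (h : COk3 N Cs) {j r v : ℕ} (hj : j < Cs.length) (hr : r < 17)
    (hv : v ∈ (gt N Cs j r).refs) :
    (v < N ∧ ∃ T ∈ Cs.getD j [], ∃ p ∈ T, p.1 = v) ∨ ∃ s < r, v = N + 17 * j + s := by
  unfold gt at hv
  split_ifs at hv with h1 h2 h3 h4 h5
  · left
    simp only [Gate.refs, List.mem_cons, List.not_mem_nil, or_false, or_self] at hv
    rw [hv]
    exact ⟨lit_lt h hj _ _, _, prt_mem h hj _, _, lit_mem h hj _ _, rfl⟩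
  · left
    simp only [Gate.refs, List.mem_cons, List.not_mem_nil, or_false] at hv
    rw [hv]
    exact ⟨lit_lt h hj _ _, _, prt_mem h hj _, _, lit_mem h hj _ _, rfl⟩
  · right
    simp only [Gate.refs, List.mem_cons, List.not_mem_nil, or_false] at hv
    rcases hv with rfl | rfl
    · exact ⟨3 * (r - 9), by omega, rfl⟩
    · exact ⟨3 * (r - 9) + 1, by omega, rfl⟩
  · right
    simp only [Gate.refs, List.mem_cons, List.not_mem_nil, or_false] at hv
    rcases hv with rfl | rfl
    · exact ⟨r - 3, by omega, rfl⟩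
    · exact ⟨3 * (r - 12) + 2, by omega, rfl⟩
  · right
    simp only [Gate.refs, List.mem_cons, List.not_mem_nil, or_false] at hv
    rcases hv with rfl | rfl
    · exact ⟨12, by omega, rfl⟩
    · exact ⟨13, by omega, rfl⟩
  · right
    simp only [Gate.refs, List.mem_cons, List.not_mem_nil, or_false] at hv
    rcases hv with rfl | rfl
    · exact ⟨15, by omega, rfl⟩
    · exact ⟨14, by omega, rfl⟩

theorem div17_lt {q : ℕ} (hq : q < 17 * Cs.length) : q / 17 < Cs.length := by omega

end SynAux

open SynAux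

variable {N : ℕ} {Cs : List (List NT)}

theorem syn_valid (h : COk3 N Cs) : (syn N Cs).Valid := by
  constructor
  · intro q hq v hv
    have hq' : q < 17 * Cs.length := by rw [gates_length] at hq; exact hq
    rw [synGates_getElem] at hv
    change v < N + q
    rcases gt_refs h (div17_lt hq') (Nat.mod_lt _ (by norm_num)) hv with h1 | ⟨s, hs, rfl⟩
    · omega
    · omega
  · intro o ho
    rw [gates_length]
    change o ∈ (List.range Cs.length).map fun j => N + 17 * j + 16 at ho
    obtain ⟨j, hj, rfl⟩ := List.mem_map.1 ho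
    have := List.mem_range.1 hj
    change N ≤ N + 17 * j + 16 ∧ N + 17 * j + 16 < N + 17 * Cs.length
    omega

theorem syn_n : (syn N Cs).n = N := rfl

/-- the paths to an output come from the inputs in its constraint -/
theorem syn_reads (h : COk3 N Cs) {j i : ℕ} (hj : j < (syn N Cs).outs.length)
    (hr : (syn N Cs).Reads ((syn N Cs).outs.getD j 0) i) :
    ∃ T ∈ Cs.getD j [], ∃ p ∈ T, p.1 = i := by
  have key : ∀ w, (syn N Cs).Reads w i → (w < N ∧ w = i) ∨
      ∃ j < Cs.length, ∃ r < 17, w = N + 17 * j + r ∧ ∃ T ∈ Cs.getD j [], ∃ p ∈ T, p.1 = i := by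
    clear hr
    intro w hw
    induction hw with
    | input hi => exact Or.inl ⟨hi, rfl⟩
    | @gate q r i hq hrq _ ih =>
      right
      have hq' : q < 17 * Cs.length := by rw [gates_length] at hq; exact hq
      refine ⟨q / 17, div17_lt hq', q % 17, Nat.mod_lt _ (by norm_num), ?_, ?_⟩
      · change N + q = _
        omega
      rw [synGates_getElem] at hrq
      rcases gt_refs h (div17_lt hq') (Nat.mod_lt _ (by norm_num)) hrq with ⟨h1, h2⟩ | ⟨s, hs, rfl⟩
      · rcases ih with ⟨_, rfl⟩ | ⟨j', _, r', _, h3, _⟩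
        · exact h2
        · omega
      · rcases ih with ⟨h1, _⟩ | ⟨j', _, r', hr', h3, h4⟩
        · omega
        · have hs' : s < 17 := by
            have := Nat.mod_lt q (show 0 < 17 by norm_num)
            omega
          have e : j' = q / 17 := by omega
          rw [← e]
          exact h4
  rw [outs_length] at hj
  rw [outs_getD hj] at hr
  rcases key _ hr with ⟨h1, _⟩ | ⟨j', _, r', hr', h3, h4⟩
  · omega
  · have e : j' = j := by omega
    rw [← e]
    exact h4

theorem syn_bit (h : COk3 N Cs) {x : List Bool} (hx : x.length = N) {j : ℕ}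
    (hj : j < Cs.length) : (syn N Cs).outBit x j =
      (Cs.getD j []).any fun T => decide (∀ p ∈ T, x.getD p.1 false = p.2) := by
  have hV := syn_valid h
  obtain ⟨E, hE⟩ : ∃ E, E = (syn N Cs).env x := ⟨_, rfl⟩
  have hin : ∀ i < N, E i = x.getD i false := by
    intro i hi
    rw [hE]
    exact Circuit.env_input _ (by omega)
  have hg : ∀ r < 17, E (N + 17 * j + r) = (gt N Cs j r).evalW E := by
    intro r hr
    obtain ⟨hq, e⟩ := gate_eq (N := N) hj hr
    have h1 := Circuit.env_gate hV (x := x) hx hq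
    rw [e, ← hE] at h1
    rw [← h1, Nat.add_assoc]
    rfl
  -- literals
  have hl : ∀ k < 3, ∀ l < 3, (E (N + 17 * j + (3 * k + l)) = true ↔
      x.getD (lit Cs j k l).1 false = (lit Cs j k l).2) := by
    intro k hk l hl
    rw [hg _ (by omega)]
    unfold gt
    rw [if_pos (show 3 * k + l < 9 by omega), show (3 * k + l) / 3 = k by omega,
      show (3 * k + l) % 3 = l by omega]
    have h2 := hin _ (lit_lt h hj k l)
    split_ifs with h3
    · simp only [Gate.evalW, Bool.and_self]
      rw [h2, h3]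
    · simp only [Gate.evalW]
      rw [Bool.not_eq_true] at h3
      rw [h2, h3]
      simp
  -- parts
  have hp : ∀ k < 3, (E (N + 17 * j + (12 + k)) = true ↔
      ∀ p ∈ prt Cs j k, x.getD p.1 false = p.2) := by
    intro k hk
    obtain ⟨h1, h2, _⟩ := (h _ (cs_mem hj)).2.2 _ (prt_mem h hj k)
    have e1 : E (N + 17 * j + (12 + k)) =
        (E (N + 17 * j + (9 + k)) && E (N + 17 * j + (3 * k + 2))) := by
      rw [hg _ (by omega)]
      unfold gt
      rw [if_neg (by omega), if_neg (by omega), if_pos (by omega),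
        show 12 + k - 3 = 9 + k by omega, show 12 + k - 12 = k by omega]
      rfl
    have e2 : E (N + 17 * j + (9 + k)) =
        (E (N + 17 * j + (3 * k + 0)) && E (N + 17 * j + (3 * k + 1))) := by
      rw [hg _ (by omega)]
      unfold gt
      rw [if_neg (by omega), if_pos (by omega), show 9 + k - 9 = k by omega]
      rfl
    rw [e1, e2, Bool.and_eq_true, Bool.and_eq_true, hl k hk 0 (by omega), hl k hk 1 (by omega),
      hl k hk 2 (by omega), and_assoc]
    exact all_three h1 h2 fun p => x.getD p.1 false = p.2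
  have e1 : E (N + 17 * j + 16) = ((E (N + 17 * j + (12 + 0)) || E (N + 17 * j + (12 + 1))) ||
      E (N + 17 * j + (12 + 2))) := by
    rw [hg 16 (by omega)]
    have : E (N + 17 * j + 15) = (E (N + 17 * j + 12) || E (N + 17 * j + 13)) := by
      rw [hg 15 (by omega)]
      rfl
    unfold gt
    rw [if_neg (by omega), if_neg (by omega), if_neg (by omega), if_neg (by omega)]
    simp only [Gate.evalW]
    rw [this]
  have hb : (syn N Cs).outBit x j = E (N + 17 * j + 16) := by
    unfold Circuit.outBit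
    rw [outs_getD hj, hE]
    rfl
  obtain ⟨h1, h2, _⟩ := h _ (cs_mem hj)
  rw [hb, e1, Bool.eq_iff_iff, Bool.or_eq_true, Bool.or_eq_true, hp 0 (by omega),
    hp 1 (by omega), hp 2 (by omega), List.any_eq_true, or_assoc]
  have h3 := any_three (d := ([] : NT)) h1 h2 fun T => ∀ p ∈ T, x.getD p.1 false = p.2
  refine h3.trans ?_
  simp only [decide_eq_true_eq]

section
variable {α : Type} [Enc α]

theorem ptime_syn {N : α → ℕ} {Cs : α → List (List NT)} (hN : PU N) (hC : PTime Cs) :
    PTime (fun a => syn (N a) (Cs a)) := by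
  have hl : PU (fun a => (Cs a).length) := PU.ofLength hC
  have n1 : PTime (fun p : α × ℕ => N p.1) := hN.toNat.comp PTime.fst
  have n2 : PTime (fun p : α × ℕ => Cs p.1) := hC.comp PTime.fst
  have hj : PTime (fun p : α × ℕ => p.2 / 17) := PTime.snd.div (PTime.const 17)
  have hr : PTime (fun p : α × ℕ => p.2 % 17) := PTime.snd.mod (PTime.const 17)
  have hc : PTime (fun p : α × ℕ => (Cs p.1).getD (p.2 / 17) []) :=
    PTime.listGetD n2 hj (PTime.const [])
  have hprt : PTime (fun p : α × ℕ => ((Cs p.1).getD (p.2 / 17) []).getD (p.2 % 17 / 3)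
      (((Cs p.1).getD (p.2 / 17) []).getD 0 [])) :=
    PTime.listGetD hc (hr.div (PTime.const 3)) (PTime.listGetD hc (PTime.const 0)
      (PTime.const []))
  have hlit : PTime (fun p : α × ℕ => lit (Cs p.1) (p.2 / 17) (p.2 % 17 / 3) (p.2 % 17 % 3)) :=
    PTime.listGetD hprt (hr.mod (PTime.const 3)) (PTime.listGetD hprt (PTime.const 0)
      (PTime.const (0, true)))
  have hb : PTime (fun p : α × ℕ => N p.1 + 17 * (p.2 / 17)) :=
    n1.add ((PTime.const 17).mul hj)
  refine ptime_circuit hN ?_ ?_
  · refine PTime.map (g := fun (a : α) (q : ℕ) => gt (N a) (Cs a) (q / 17) (q % 17))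
      ((PU.const 17).mul hl).range ?_
    unfold gt
    refine PTime.iteP (PTime.lt hr (PTime.const 9)) ?_ (PTime.iteP (PTime.lt hr (PTime.const 12))
      ?_ (PTime.iteP (PTime.lt hr (PTime.const 15)) ?_ (PTime.iteP (PTime.lt hr (PTime.const 16))
      ?_ ?_)))
    · exact PTime.iteP (PTime.eq hlit.snd' (PTime.const true)) (ptime_and hlit.fst' hlit.fst')
        (ptime_not hlit.fst')
    · exact ptime_and (hb.add ((PTime.const 3).mul (hr.sub (PTime.const 9))))
        (hb.add (((PTime.const 3).mul (hr.sub (PTime.const 9))).add (PTime.const 1)))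
    · exact ptime_and (hb.add (hr.sub (PTime.const 3)))
        (hb.add (((PTime.const 3).mul (hr.sub (PTime.const 12))).add (PTime.const 2)))
    · exact ptime_or (hb.add (PTime.const 12)) (hb.add (PTime.const 13))
    · exact ptime_or (hb.add (PTime.const 15)) (hb.add (PTime.const 14))
  · refine PTime.map (g := fun (a : α) (j : ℕ) => N a + 17 * j + 16) hl.range ?_
    exact (n1.add ((PTime.const 17).mul PTime.snd)).add (PTime.const 16)

end

end Pool.Agent.MPa0a715.BT
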