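import Pool.Agent.Lib.MP_a0a715_lc_BW.Defs

/-!
# Circuits with few paths from inputs to outputs
-/

namespace Pool.Agent.MPa0a715

/-- For every output bit there are at most `a` input bits from which a path leads to it. -/
def Circuit.SynArity (a : ℕ) (C : Circuit) : Prop :=
  ∀ j < C.outs.length, ∃ S : Finset ℕ, S.card ≤ a ∧
    ∀ i < C.n, C.Reads (C.outs.getD j 0) i → i ∈ S

/-- For every input bit there are at most `q` output bits to which a path leads from it. -/
def Circuit.SynInfluence (q : ℕ) (C : Circuit) : Prop :=
  ∀ i < C.n, ∃ S : Finset ℕ, S.card ≤ q ∧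
    ∀ j < C.outs.length, C.Reads (C.outs.getD j 0) i → j ∈ S

/-- There are bounds `a`, `q`, `β` in the relation `R` with the number of inputs such that paths
lead to every output bit from at most `a` input bits, and from every input bit to at most `q`
output bits, all of them in a window of `β` consecutive positions. -/
def Circuit.SynBounded (R : ℕ → ℕ → ℕ → ℕ → Prop) (C : Circuit) : Prop :=
  ∃ a q β : ℕ, R C.n a q β ∧ C.SynArity a ∧ C.SynInfluence q ∧ C.SynWindow β

end Pool.Agent.MPa0a715
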