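import Pool.Agent.Lib.MP_a0a715_lc_BT.Red
import Pool.Agent.Lib.MP_a0a715_lc_BT.SynCirc
import Pool.Agent.Lib.MP_a0a715_lc_BW.Main

/-!
# The reduction to circuits with separate gates for each output
-/

namespace Pool.Agent.MPa0a715.BT

open Pool.Agent.MPa0a715 Pool.Agent.PolyTime
open Pool.Agent.MPa0a715.BI (Base baseOf baseOf_n baseOf_ok baseOf_sem baseOf_min ptime_baseOf)
open Pool.Agent.MPa0a715.TL (NT)
open Pool.Agent.MPa0a715.BW (hard_of mono)

variable {B : Base} {X : Var → Bool}

namespace SynAux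

open RedAux

theorem allC_ok3 (hB : B.Ok) {N : ℕ} (hN : Nv B ≤ N) : COk3 N (allC B) := by
  intro c hc
  unfold allC at hc
  rw [List.mem_reverse, List.mem_map] at hc
  obtain ⟨p, hp, rfl⟩ := hc
  have hp' := mem_posL.1 hp
  obtain ⟨h1, h2, h3⟩ := con_shape hB hp'
  unfold numC
  refine ⟨fun h => h1 (List.map_eq_nil_iff.1 h), by rw [List.length_map]; exact h2, ?_⟩
  intro T hT
  obtain ⟨P, hP, rfl⟩ := List.mem_map.1 hT
  refine ⟨fun h => (h3 P hP).1 (List.map_eq_nil_iff.1 h),
    by rw [List.length_map]; exact (h3 P hP).2.1, ?_⟩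
  intro q hq
  obtain ⟨l, hl, rfl⟩ := List.mem_map.1 hq
  exact (num_lt (con_vld hB hp' ⟨P, hP, l, hl, rfl⟩)).trans_le hN

theorem sbit (hB : B.Ok) {N : ℕ} (hN : Nv B ≤ N) {x : List Bool} (hx : x.length = N) {j : ℕ}
    (hj : j < (posL B).length) :
    (syn N (allC B)).outBit x j = cv (asg B x) (con B (pj B j)) := by
  rw [syn_bit (allC_ok3 hB hN) hx (by rw [length_allC]; exact hj), getD_allC hj]
  exact con_val x _

theorem souts {N : ℕ} : (syn N (allC B)).outs.length = (posL B).length := by
  rw [outs_length, length_allC]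

/-- the assignment after a flip -/
theorem asg_flip' {N : ℕ} (hN : Nv B ≤ N) {x : List Bool} (hx : x.length = N) {i : ℕ} {v : Var}
    (hv : Vld B v) : asg B (flip x i) v = if i = num B v then !asg B x v
      else asg B x v := by
  unfold asg
  rw [getD_flip _ _ _ (by rw [hx]; exact (num_lt hv).trans_le hN)]

/-- a path to an output comes from a variable in the constraint -/
theorem reads_var (hB : B.Ok) {N : ℕ} (hN : Nv B ≤ N) {i j : ℕ} (hj : j < (posL B).length)
    (h : (syn N (allC B)).Reads ((syn N (allC B)).outs.getD j 0) i) :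
    ∃ v, Occ v (con B (pj B j)) ∧ Vld B v ∧ num B v = i := by
  obtain ⟨T, hT, p, hp, hpi⟩ := syn_reads (allC_ok3 hB hN) (by rw [souts]; exact hj) h
  rw [getD_allC hj] at hT
  unfold numC at hT
  obtain ⟨P, hP, rfl⟩ := List.mem_map.1 hT
  obtain ⟨l, hl, rfl⟩ := List.mem_map.1 hp
  have ho : Occ l.1 (con B (pj B j)) := ⟨P, hP, l, hl, rfl⟩
  exact ⟨l.1, ho, con_vld hB (mem_posL.1 (pj_mem hj)) ho, hpi⟩

theorem min_syn (hB : B.Ok) {N : ℕ} (hN : Nv B ≤ N) {x : List Bool}
    (hx : (syn N (allC B)).IsLocalMin x) : Mn B (asg B x) := by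
  obtain ⟨hlen, hmin⟩ := hx
  rw [syn_n] at hlen hmin
  intro v P Q p hpos hcv hNI
  by_contra hcon
  rw [Bool.not_eq_true] at hcon
  have hp : p ∈ posL B := by
    rw [hpos]
    simp
  have hpv := mem_posL.1 hp
  -- the variable occurs
  have hocc : Occ v (con B p) := by
    by_contra hno
    have h1 : cv (fl (asg B x) v) (con B p) = cv (asg B x) (con B p) := by
      refine cv_congr fun w hw => ?_
      unfold fl
      rw [Function.update_of_ne]
      rintro rfl
      exact hno hw
    rw [h1, hcv] at hcon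
    exact Bool.noConfusion hcon
  have hv := con_vld hB hpv hocc
  have hi := (num_lt hv).trans_le hN
  have hlen' : (flip x (num B v)).length = N := by rw [length_flip, hlen]
  have hasg : ∀ w, Vld B w → asg B (flip x (num B v)) w = fl (asg B x) v w := by
    intro w hw
    rw [asg_flip' hN hlen hw]
    unfold fl
    by_cases hwv : w = v
    · subst hwv
      rw [if_pos rfl, Function.update_self]
    · rw [Function.update_of_ne hwv, if_neg]
      intro h
      exact hwv (num_inj hw hv h.symm)
  have hcv' : ∀ d ∈ posL B, cv (asg B (flip x (num B v))) (con B d) =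
      cv (fl (asg B x) v) (con B d) := by
    intro d hd
    exact cv_congr fun w hw => hasg w (con_vld hB (mem_posL.1 hd) hw)
  set L := (posL B).length with hL
  set C := syn N (allC B) with hC
  have houts : C.outs.length = L := souts
  -- the output of `p`
  have hLP : L = P.length + (Q.length + 1) := by
    rw [hL, hpos, List.length_append, List.length_cons]
  set j := L - 1 - P.length with hj
  have hjL : j < L := by omega
  have hpj : pj B j = p := by
    unfold pj
    have e : (posL B).length - 1 - j = P.length := by omega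
    rw [e, hpos]
    simp
  have hbx := sbit hB hN hlen hjL
  have hbx' := sbit hB hN hlen' hjL
  rw [hpj, hcv] at hbx
  rw [hpj, hcv' p hp, hcon] at hbx'
  -- the highest output which changes
  let S := (Finset.range L).filter fun r => C.outBit (flip x (num B v)) r ≠ C.outBit x r
  have hjS : j ∈ S := by
    refine Finset.mem_filter.2 ⟨Finset.mem_range.2 hjL, ?_⟩
    rw [hbx, hbx']
    simp
  have hne : S.Nonempty := ⟨j, hjS⟩
  obtain ⟨r, hr⟩ : ∃ r, r = S.max' hne := ⟨_, rfl⟩
  have hrS : r ∈ S := by rw [hr]; exact S.max'_mem hne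
  have hjr : j ≤ r := by rw [hr]; exact S.le_max' j hjS
  have hrL : r < L := Finset.mem_range.1 (Finset.mem_filter.1 hrS).1
  have hrne := (Finset.mem_filter.1 hrS).2
  have hup : ∀ s < L, r < s → C.outBit (flip x (num B v)) s = C.outBit x s := by
    intro s hs hrs
    by_contra h
    have h1 : s ∈ S := Finset.mem_filter.2 ⟨Finset.mem_range.2 hs, h⟩
    have h2 := S.le_max' s h1
    rw [← hr] at h2
    omega
  have hdown : C.outBit (flip x (num B v)) r = true → C.outBit x r = true := by
    rcases Nat.eq_or_lt_of_le hjr with h1 | h1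
    · rw [← h1, hbx]
      exact fun _ => rfl
    · have hmem : pj B r ∈ P := by
        unfold pj
        rw [← hL, hpos, List.getD_append _ _ _ _ (by omega)]
        rw [List.getD_eq_getElem _ _ (by omega)]
        exact List.getElem_mem _
      rw [sbit hB hN hlen' hrL, sbit hB hN hlen hrL, hcv' _ (pj_mem hrL)]
      unfold cv
      rw [List.any_eq_true, List.any_eq_true]
      rintro ⟨T, hT, hval⟩
      exact ⟨T, hT, hNI _ hmem T hT hval⟩
  have hlt : C.cost (flip x (num B v)) < C.cost x := by
    rw [IN.cost_lt_iff]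
    refine ⟨r, by rw [houts]; exact hrL, ?_, ?_, ?_⟩
    · by_contra h
      rw [Bool.not_eq_false] at h
      exact hrne (by rw [h, hdown h])
    · by_contra h
      rw [Bool.not_eq_true] at h
      apply hrne
      rw [h]
      by_contra h2
      rw [Bool.not_eq_false] at h2
      rw [hdown h2] at h
      exact Bool.noConfusion h
    · intro q hq hrq
      rw [houts] at hq
      exact hup q hq hrq
  have := hmin (num B v) hi
  omega

theorem arity_syn (hB : B.Ok) {N : ℕ} (hN : Nv B ≤ N) : (syn N (allC B)).SynArity 3 := by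
  classical
  intro j hj
  rw [souts] at hj
  obtain ⟨S, hS, hS'⟩ := con_vars (B := B) (pj B j)
  refine ⟨S.image (num B), le_trans Finset.card_image_le hS, ?_⟩
  intro i _ hinf
  obtain ⟨v, hv, -, rfl⟩ := reads_var hB hN hj hinf
  exact Finset.mem_image_of_mem _ (hS' v hv)

theorem influence_syn (hB : B.Ok) {N : ℕ} (hN : Nv B ≤ N) :
    (syn N (allC B)).SynInfluence 3 := by
  classical
  intro i _
  by_cases hex : ∃ v, Vld B v ∧ num B v = i
  · obtain ⟨v, hv, hvi⟩ := hex
    refine ⟨(occ B v).toFinset.image fun p => (posL B).length - 1 - (posL B).idxOf p,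
      le_trans Finset.card_image_le (le_trans (List.toFinset_card_le _) (occ_len v)), ?_⟩
    intro j hj hinf
    rw [souts] at hj
    obtain ⟨w, hw, hwv, hwi⟩ := reads_var hB hN hj hinf
    have hwv' : w = v := num_inj hwv hv (by rw [hwi, hvi])
    subst hwv'
    refine Finset.mem_image.2 ⟨pj B j, List.mem_toFinset.2
      (occ_mem hB (mem_posL.1 (pj_mem hj)) hw), ?_⟩
    have h1 : (posL B).idxOf (pj B j) = (posL B).length - 1 - j := by
      unfold pj
      rw [List.getD_eq_getElem _ _ (by omega)]
      exact List.Nodup.idxOf_getElem nodup_posL _ _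
    rw [h1]
    omega
  · refine ⟨∅, by simp, ?_⟩
    intro j hj hinf
    rw [souts] at hj
    obtain ⟨w, -, hwv, hwi⟩ := reads_var hB hN hj hinf
    exact absurd ⟨w, hwv, hwi⟩ hex

/-- the constructed circuit -/
def sred (κ : ℕ) (C : Circuit) : Circuit :=
  syn (Nv (baseOf C) + (allC (baseOf C)).length ^ κ) (allC (baseOf C))

theorem ptime_sred (κ : ℕ) : PTime (sred κ) := by
  obtain ⟨h1, h2, h3, h4⟩ := ptime_baseOf
  obtain ⟨h5, h6⟩ := ptime_allC (B := baseOf) pu_baseN h1 h2 h3 h4
  exact ptime_syn (h5.add (BW.pu_pow (PU.ofLength h6) κ)) h6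

end SynAux

open RedAux SynAux

/-- unrestricted Circuit-FLIP reduces to circuits in which at most three inputs are connected
to each output, and each input to at most three outputs -/
theorem hard_syn (κ : ℕ) (hκ : 0 < κ) : PLSReduces (fun _ => True) fun C =>
    C.SynArity 3 ∧ C.SynInfluence 3 ∧ C.outs.length ^ κ ≤ C.n := by
  have hn := pu_n (PTime.id (α := Circuit))
  have hn1 : PTime (fun C : Circuit => decide (C.n ≤ 0)) := PTime.le hn.toNat (PTime.const 0)
  refine ⟨fun C => if C.n ≤ 0 then ⟨0, [], []⟩ else sred κ C,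
    fun p => if p.1.n ≤ 0 then [] else dec (baseOf p.1) p.2, ?_, ?_, ?_⟩
  · exact (PTime.iteP hn1 (PTime.const _) (ptime_sred κ)).isPolyTime
  · exact (PTime.iteP (hn1.comp PTime.fst) (PTime.const _) ptime_dec).isPolyTime
  · intro C hC _
    dsimp only
    split_ifs with h1
    · refine ⟨⟨fun k hk => absurd hk (Nat.not_lt_zero k), fun o ho => absurd ho
        List.not_mem_nil⟩, ⟨fun j hj => absurd hj (Nat.not_lt_zero j),
        fun j hj => absurd hj (Nat.not_lt_zero j), ?_⟩, fun y _ => ?_⟩
      · rw [List.length_nil, Nat.zero_pow hκ]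
      have h2 : C.n = 0 := by omega
      exact ⟨h2.symm, fun i hi => absurd hi (by omega)⟩
    · have h2 : 0 < C.n := by omega
      have hB := baseOf_ok hC h2
      have hS := baseOf_sem hC h2
      have hN : Nv (baseOf C) ≤ Nv (baseOf C) + (allC (baseOf C)).length ^ κ :=
        Nat.le_add_right _ _
      refine ⟨syn_valid (allC_ok3 hB hN), ⟨arity_syn hB hN, influence_syn hB hN, ?_⟩,
        fun y hy => ?_⟩
      · unfold sred
        rw [outs_length, syn_n]
        exact Nat.le_add_left _ _
      have hX := min_syn hB hN hy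
      have hst := static hB hS hX
      rw [← dec_eq] at hst
      exact baseOf_min hC h2 (by rw [length_dec, baseOf_n]) hst

theorem synWindow_length (C : Circuit) : C.SynWindow C.outs.length :=
  fun _ _ => ⟨0, fun _ hj _ => ⟨Nat.zero_le _, by omega⟩⟩

/-- arity `3`, influence `3` and windows of size `n ^ ε` -/
theorem hard_three (κ : ℕ) (hκ : 0 < κ) :
    Hard (Circuit.SynBounded fun n a q β => a ≤ 3 ∧ q ≤ 3 ∧ β ^ κ ≤ n) := by
  refine hard_of (mono (fun C h => ?_) (hard_syn κ hκ))
  exact ⟨3, 3, C.outs.length, ⟨le_rfl, le_rfl, h.2.2⟩, h.1, h.2.1, synWindow_length C⟩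

/-- the complete classification for constant bounds of the arity and the influence -/
theorem dichotomy (a q : ℕ) :
    (min a q ≤ 2 → HasSolver fun C => C.Arity a ∧ C.Influence q) ∧
    (3 ≤ min a q → Hard fun C => C.SynArity a ∧ C.SynInfluence q) := by
  constructor
  · intro h
    refine OD.solver_mono (fun C hC => ?_) (BW.easy_const 0)
    rcases min_le_iff.1 h with h | h
    · exact Or.inr ⟨a, q, C.outs.length, Or.inl h, hC.1, hC.2, BW.window_length C⟩
    · exact Or.inl (IN.changes_mono h (IN.influence_changes hC.2))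
  · intro h
    refine hard_of (mono (fun C hC => ?_) (hard_syn 1 one_pos))
    have ha : 3 ≤ a := (le_min_iff.1 h).1
    have hq : 3 ≤ q := (le_min_iff.1 h).2
    refine ⟨fun j hj => ?_, fun i hi => ?_⟩
    · obtain ⟨S, hS, h1⟩ := hC.1 j hj
      exact ⟨S, hS.trans ha, h1⟩
    · obtain ⟨S, hS, h1⟩ := hC.2.1 i hi
      exact ⟨S, hS.trans hq, h1⟩

/-- for valid circuits the bounds for paths imply those for influences -/
theorem bounded_of_syn {C : Circuit} (hC : C.Valid) {R : ℕ → ℕ → ℕ → ℕ → Prop}
    (h : C.SynBounded R) : C.Bounded R := by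
  obtain ⟨a, q, β, hR, ha, hq, hβ⟩ := h
  have key : ∀ i < C.n, ∀ j < C.outs.length, C.Influences i j →
      C.Reads (C.outs.getD j 0) i := by
    rintro i hi j hj ⟨x, hx, hne⟩
    refine BW.reads_of_env hC hx hi _ ?_ hne
    rw [List.getD_eq_getElem _ _ hj]
    exact (hC.2 _ (List.getElem_mem hj)).2
  refine ⟨a, q, β, hR, fun j hj => ?_, fun i hi => ?_, BW.window_of_syn hC hβ⟩
  · obtain ⟨S, hS, h1⟩ := ha j hj
    exact ⟨S, hS, fun i hi hij => h1 i hi (key i hi j hj hij)⟩
  · obtain ⟨S, hS, h1⟩ := hq i hi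
    exact ⟨S, hS, fun j hj hij => h1 j hj (key i hi j hj hij)⟩

end Pool.Agent.MPa0a715.BT
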