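import Pool.Agent.Lib.MP_a0a715_lc_BT.Rail
import Pool.Agent.Lib.MP_a0a715_lc_BT.Mis

/-!
# Rails which are pushed up, for each kind of rails
-/

namespace Pool.Agent.MPa0a715.BT

open Pool.Agent.MPa0a715
open Pool.Agent.MPa0a715.BI (Base)

variable {B : Base} {X : Var → Bool}

/-- the direction of the rails of a place -/
def dir (B : Base) (X : Var → Bool) : Ch → Bool
  | .r s _ _ _ => !X (.e s) || X (.ph (Z B))
  | .D t _ => (X .y == t) || X (.ph (Z B))
  | .Y s _ => (X (.L s 0) && !X (.L (!s) 0)) || X (.ph (Z B))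

namespace UpAux

theorem upd_true {X : Var → Bool} {g v : Var} (h : X v = true) :
    Function.update X g true v = true := by
  by_cases hv : v = g
  · rw [hv, Function.update_self]
  · rw [Function.update_of_ne hv, h]

theorem cv_and {X : Var → Bool} {a b g v : Var} (h : X v = true) :
    cv (Function.update X g true) (cAnd a b v) = false := by
  simp [cv, pv, cAnd, upd_true h]

theorem cv_or {X : Var → Bool} {a b g v : Var} (h : X v = true) :
    cv (Function.update X g true) (cOr a b v) = false := by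
  simp [cv, pv, cOr, upd_true h]

theorem cv_cp {X : Var → Bool} {a g v : Var} (h : X v = true) :
    cv (Function.update X g true) (cCp a v) = false := by
  simp [cv, pv, cCp, upd_true h]

theorem pos_lt {g : Var} (hr : Rail g) (hv : Vld B g) : pos B g < Z B + 1 := by
  have := num_lt_Z hr hv
  unfold pos
  omega

theorem dir_r (hB : B.Ok) (hX : Mn B X) {g : Var} (hr : Rail g) (hv : Vld B g) {s : Bool}
    (h : upv B g = .UE s (pos B g)) : X (upv B g) = (!X (.e s) || X (.ph (Z B))) := by
  rw [h, UE_eq hB hX (pos_lt hr hv)]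

theorem dir_D (hB : B.Ok) (hX : Mn B X) {g : Var} (hr : Rail g) (hv : Vld B g) {t : Bool}
    (h : upv B g = .UJ t (pos B g)) : X (upv B g) = ((X .y == t) || X (.ph (Z B))) := by
  rw [h, UJ_eq hB hX (pos_lt hr hv)]

theorem dir_Y (hB : B.Ok) (hX : Mn B X) {g : Var} (hr : Rail g) (hv : Vld B g) {s : Bool}
    (h : upv B g = .UW s (pos B g)) :
    X (upv B g) = ((X (.L s 0) && !X (.L (!s) 0)) || X (.ph (Z B))) := by
  rw [h, UW_eq hB hX (pos_lt hr hv)]

end UpAux

open UpAux

theorem dir_c (hB : B.Ok) (hX : Mn B X) {a : Ch} (ha : ChE B a) :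
    X (upv B (.c a)) = dir B X a := by
  cases a with
  | r s g w k => exact dir_r (g := .c (.r s g w k)) hB hX trivial ha rfl
  | D t k => exact dir_D (g := .c (.D t k)) hB hX trivial ha rfl
  | Y s k => exact dir_Y (g := .c (.Y s k)) hB hX trivial ha rfl

theorem dir_d (hB : B.Ok) (hX : Mn B X) {a : Ch} (ha : ChV B a) :
    X (upv B (.d a)) = dir B X a := by
  cases a with
  | r s g w k => exact dir_r (g := .d (.r s g w k)) hB hX trivial ha rfl
  | D t k => exact dir_D (g := .d (.D t k)) hB hX trivial ha rfl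
  | Y s k => exact dir_Y (g := .d (.Y s k)) hB hX trivial ha rfl

theorem dir_x (hB : B.Ok) (hX : Mn B X) {a : Ch} (ha : ChV B a) :
    X (upv B (.x a)) = dir B X a := by
  cases a with
  | r s g w k => exact dir_r (g := .x (.r s g w k)) hB hX trivial ha rfl
  | D t k => exact dir_D (g := .x (.D t k)) hB hX trivial ha rfl
  | Y s k => exact dir_Y (g := .x (.Y s k)) hB hX trivial ha rfl

theorem up_c (hB : B.Ok) (hX : Mn B X) {a : Ch} (ha : ChE B a) (hd : dir B X a = true)
    (h : ChV B a → X (.d a) = true) : X (.c a) = true := by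
  refine rail_push hB hX trivial ha (by rw [dir_c hB hX ha, hd]) fun hv _ _ => ?_
  simp only [rdr, con, cv, pv, List.any_cons, List.any_nil, List.all_cons, List.all_nil]
  rw [upd_true (h hv)]
  simp

theorem up_d (hB : B.Ok) (hX : Mn B X) {a : Ch} (ha : ChV B a) (hd : dir B X a = true)
    (h1 : X (.c (nxt a)) = true) (h2 : X (.x a) = true) : X (.d a) = true := by
  refine rail_push hB hX trivial ha (by rw [dir_d hB hX ha, hd]) fun hv _ _ => ?_
  simp only [rdr, con, cv, pv, List.any_cons, List.any_nil, List.all_cons, List.all_nil]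
  rw [upd_true h1, upd_true h2]
  simp

theorem up_xr (hB : B.Ok) (hX : Mn B X) {s g : Bool} {w k : ℕ} (hw : w < B.N) (hk : k < K B)
    (hd : dir B X (.r s g w k) = true)
    (h : PVld B (rdx B s g k) → Occ (.x (.r s g w k)) (con B (rdx B s g k)) →
      klt (key B (rdx B s g k)) (key B (.Lp (.x (.r s g w k)))) →
      cv (Function.update X (.x (.r s g w k)) true) (con B (rdx B s g k)) = false) :
    X (.x (.r s g w k)) = true :=
  rail_push hB hX trivial (show ChV B (.r s g w k) from ⟨hw, hk⟩)
    (by rw [dir_x (a := .r s g w k) hB hX ⟨hw, hk⟩, hd]) h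

theorem up_xD (hB : B.Ok) (hX : Mn B X) {t : Bool} {k : ℕ} (hk : k ≤ B.m)
    (hd : dir B X (.D t k) = true) (h : 0 < k → X (.p (!t) (k - 1)) = true) :
    X (.x (.D t k)) = true := by
  refine rail_push hB hX trivial hk (by rw [dir_x (a := .D t k) hB hX hk, hd]) fun hv _ _ => ?_
  simp only [rdr]
  split_ifs with h3
  · have hU : X (.UJ t 0) = true := by
      rw [MisAux.UJ0 hB hX]
      exact hd
    simp only [con, cv, pv, List.any_cons, List.any_nil, List.all_cons, List.all_nil]
    rw [upd_true hU]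
    simp
  · exact cv_or (h (by omega))

theorem up_xY0 (hB : B.Ok) (hX : Mn B X) {s : Bool} {j : ℕ} (hj : j < B.m)
    (hd : dir B X (.Y s (2 * j)) = true) (h : X (.u s j) = false ∨ X (.al s j) = true) :
    X (.x (.Y s (2 * j))) = true := by
  have hk : ChV B (.Y s (2 * j)) := show 2 * j < 2 * B.m by omega
  refine rail_push hB hX trivial hk (by rw [dir_x hB hX hk, hd]) fun hv _ _ => ?_
  have h1 : rdr B (.x (.Y s (2 * j))) = .H (.al s j) := by
    simp only [rdr]
    rw [if_pos (by omega), show 2 * j / 2 = j by omega]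
  rw [h1]
  rcases h with h | h
  · simp [con, hcon, cAnd, cv, pv, h]
  · exact cv_and h

theorem up_xY1 (hB : B.Ok) (hX : Mn B X) {s : Bool} {j : ℕ} (hj : j < B.m)
    (hd : dir B X (.Y s (2 * j + 1)) = true)
    (h : X (.x (.r s true (B.im.getD j 0) (kbe B j))) = false ∨ X (.be s j) = true) :
    X (.x (.Y s (2 * j + 1))) = true := by
  have hk : ChV B (.Y s (2 * j + 1)) := show 2 * j + 1 < 2 * B.m by omega
  refine rail_push hB hX trivial hk (by rw [dir_x hB hX hk, hd]) fun hv _ _ => ?_
  have h1 : rdr B (.x (.Y s (2 * j + 1))) = .H (.be s j) := by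
    simp only [rdr]
    rw [if_neg (by omega), show (2 * j + 1) / 2 = j by omega]
  rw [h1]
  rcases h with h | h
  · simp only [con, hcon, cAnd, cv, pv, List.any_cons, List.any_nil, List.all_cons, List.all_nil]
    rw [Function.update_of_ne (show Var.x (.r s true _ _) ≠ Var.x (.Y s (2 * j + 1)) by simp), h]
    simp
  · exact cv_and h

theorem up_ck (hB : B.Ok) (hX : Mn B X) {t g : Bool} {i : ℕ} (hi : i < B.n)
    (hd : dir B X (.D t 0) = true) (h : X (.F t i) = true) : X (.ck t g i) = true := by
  refine rail_push hB hX trivial hi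
    ((dir_D (B := B) (g := .ck t g i) hB hX trivial hi rfl).trans hd) fun hv _ _ => ?_
  exact cv_or h

theorem up_F (hB : B.Ok) (hX : Mn B X) {t : Bool} {i : ℕ} (hi : i < B.n)
    (hd : dir B X (.D t 0) = true) (h : X (.E t (i + 1)) = true) : X (.F t i) = true := by
  refine rail_push hB hX trivial hi
    ((dir_D (B := B) (g := .F t i) hB hX trivial hi rfl).trans hd) fun hv _ _ => ?_
  exact cv_or h

theorem up_E (hB : B.Ok) (hX : Mn B X) {t : Bool} {i : ℕ} (hi : i ≤ B.n)
    (hd : dir B X (.D t 0) = true) (h1 : i < B.n → X (.E t (i + 1)) = true)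
    (h2 : i = B.n → X (.c (.D t 0)) = true) : X (.E t i) = true := by
  refine rail_push hB hX trivial hi
    ((dir_D (B := B) (g := .E t i) hB hX trivial hi rfl).trans hd) fun hv _ _ => ?_
  simp only [rdr]
  split_ifs with h3
  · exact cv_cp (h2 h3)
  · exact cv_or (h1 (by omega))

theorem up_p (hB : B.Ok) (hX : Mn B X) {s : Bool} {j : ℕ} (hj : j < B.m)
    (hd : dir B X (.r s false 0 0) = true) (h : X (.u s j) = true) : X (.p s j) = true := by
  refine rail_push hB hX trivial hj
    ((dir_r (B := B) (g := .p s j) hB hX trivial hj rfl).trans hd) fun hv _ _ => ?_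
  exact cv_and h

theorem up_u (hB : B.Ok) (hX : Mn B X) {s : Bool} {j : ℕ} (hj : j < B.m)
    (hd : dir B X (.r s false 0 0) = true)
    (h : X (.x (.Y s (2 * j))) = false ∨ X (.al s j) = true) : X (.u s j) = true := by
  refine rail_push hB hX trivial hj
    ((dir_r (B := B) (g := .u s j) hB hX trivial hj rfl).trans hd) fun hv _ _ => ?_
  rcases h with h | h
  · simp [rdr, con, hcon, cAnd, cv, pv, h]
  · exact cv_and h

theorem up_al (hB : B.Ok) (hX : Mn B X) {s : Bool} {j : ℕ} (hj : j < B.m)
    (hd : dir B X (.Y s 0) = true) (h : X (.q j) = true) : X (.al s j) = true := by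
  refine rail_push hB hX trivial hj
    ((dir_Y (B := B) (g := .al s j) hB hX trivial hj rfl).trans hd) fun hv _ _ => ?_
  exact cv_or h

theorem up_be (hB : B.Ok) (hX : Mn B X) {s : Bool} {j : ℕ} (hj : j < B.m)
    (hd : dir B X (.Y s 0) = true) (h : X (.m j) = true) : X (.be s j) = true := by
  refine rail_push hB hX trivial hj
    ((dir_Y (B := B) (g := .be s j) hB hX trivial hj rfl).trans hd) fun hv _ _ => ?_
  have h1 : X (.mp j) = true := by rw [mp_eq hB hX hj, h]
  simp [rdr, con, cv, pv, h1]

theorem up_q (hB : B.Ok) (hX : Mn B X) {j : ℕ} (hj : j < B.m)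
    (hd : dir B X (.Y false 0) = true ∨ dir B X (.Y true 0) = true) (h : X (.m j) = true) :
    X (.q j) = true := by
  have h1 : X (upv B (.q j)) = true := by
    change X (.UQ (pos B (.q j))) = true
    rw [UQ_eq hB hX (pos_lt (g := .q j) trivial hj)]
    simp only [dir, Bool.not_true, Bool.not_false] at hd
    revert hd
    cases X (.L false 0) <;> cases X (.L true 0) <;> cases X (.ph (Z B)) <;> simp
  refine rail_push hB hX trivial hj h1 fun hv _ _ => ?_
  exact cv_or h

end Pool.Agent.MPa0a715.BT
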